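import Pool.Agent.LevelLower.Comp2

/-!
# Alternations in the composed system (windows version)
-/

namespace LevelLower

section comp

variable {C : Type} [DecidableEq C] {s T B r N c : ℕ} {x : ℕ → C → ℤ} {up dn : ℕ → C}
  {g : Gadget2 B r N c} {w : Win C} {L : ℕ}

/-- pairs of curves in different base chains: one block -/
theorem block_base2 (hN : 0 < N) (h01 : ∀ t c, x t c = 0 ∨ x t c = 1)
    (hex : ExData T w x up dn)
    {a b : C} (hab : a ≠ b) (i : Fin (sz2 C T B r (.inl a))) (j : Fin (sz2 C T B r (.inl b)))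
    {e : ℕ} (he : e < T) {q q' : ℕ} (hq : q ≤ q') (h : 0 ≤ (-1) ^ q * (x e a - x e b))
    (h' : 0 ≤ (-1) ^ q' * (x (e + 1) a - x (e + 1) b)) :
    Ph (fun t => xx2 T x up dn g t ⟨.inl a, i⟩ - xx2 T x up dn g t ⟨.inl b, j⟩)
      (e * N) (e * N + N) q q' := by
  obtain ⟨-, -, e1, e2, e3, e4, e5⟩ := hex e he
  have hu := fun {p : ℕ} (hp : p ≤ N) {c : C} (hc : c = up e)
    (i : Fin (sz2 C T B r (.inl c))) => xx2_up (g := g) hN hex he hp hc i
  have hd := fun {p : ℕ} (hp : p ≤ N) {c : C} (hc : c = dn e)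
    (i : Fin (sz2 C T B r (.inl c))) => xx2_dn (g := g) hN hex he hp hc i
  have ho := fun {p : ℕ} (hp : p ≤ N) {c : C} (hc : c ≠ up e) (hc' : c ≠ dn e)
    (i : Fin (sz2 C T B r (.inl c))) => xx2_other (g := g) hN h01 hex he hp hc hc' i
  have hnn : ∀ k θ, 0 ≤ vl k θ := vl_nonneg
  have hl1 : ∀ k θ, vl k θ ≤ 1 := vl_le_one
  by_cases ha : a = up e
  · by_cases hb : b = dn e
    · -- both, up and down
      refine Ph.shift (g := fun p => vl i (g.u p) - vl j (r - g.m p)) ?_ ?_
      · refine block_updown2 g hq ?_ ?_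
        · refine neg_one_pow_eq_neg_one_of2 h ?_
          rw [ha, hb, e1, e3]; norm_num
        · refine neg_one_pow_eq_one_of2 h' ?_
          rw [ha, hb, e2, e4]; norm_num
      · intro p hp
        rw [hu hp.le ha, hd hp.le hb]
    · have hb' : b ≠ up e := fun hh => hab (ha.trans hh.symm)
      refine Ph.shift (g := fun p => vl i (g.u p) - x e b) ?_ ?_
      · rcases h01 e b with hβ | hβ
        · refine block_nonneg2 hq h h' (Or.inr ?_) (fun p _ => ?_)
          · rw [ha, e2, e5 b hb' hb, hβ]; norm_num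
          · have := hnn i (g.u p); omega
        · refine block_nonpos2 hq h h' (Or.inl ?_) (fun p _ => ?_)
          · rw [ha, e1, hβ]; norm_num
          · have := hl1 i (g.u p); omega
      · intro p hp
        rw [hu hp.le ha, ho hp.le hb' hb]
  · by_cases ha2 : a = dn e
    · by_cases hb : b = up e
      · refine Ph.shift (g := fun p => vl i (r - g.m p) - vl j (g.u p)) ?_ ?_
        · refine block_downup2 g hq ?_ ?_
          · refine neg_one_pow_eq_one_of2 h ?_
            rw [ha2, hb, e1, e3]; norm_num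
          · refine neg_one_pow_eq_neg_one_of2 h' ?_
            rw [ha2, hb, e2, e4]; norm_num
        · intro p hp
          rw [hd hp.le ha2, hu hp.le hb]
      · have hb' : b ≠ dn e := fun hh => hab (ha2.trans hh.symm)
        refine Ph.shift (g := fun p => vl i (r - g.m p) - x e b) ?_ ?_
        · rcases h01 e b with hβ | hβ
          · refine block_nonneg2 hq h h' (Or.inl ?_) (fun p _ => ?_)
            · rw [ha2, e3, hβ]; norm_num
            · have := hnn i (r - g.m p); omega
          · refine block_nonpos2 hq h h' (Or.inr ?_) (fun p _ => ?_)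
            · rw [ha2, e4, e5 b hb hb', hβ]; norm_num
            · have := hl1 i (r - g.m p); omega
        · intro p hp
          rw [hd hp.le ha2, ho hp.le hb hb']
    · by_cases hb : b = up e
      · refine Ph.shift (g := fun p => x e a - vl j (g.u p)) ?_ ?_
        · rcases h01 e a with hα | hα
          · refine block_nonpos2 hq h h' (Or.inr ?_) (fun p _ => ?_)
            · rw [hb, e2, e5 a ha ha2, hα]; norm_num
            · have := hnn j (g.u p); omega
          · refine block_nonneg2 hq h h' (Or.inl ?_) (fun p _ => ?_)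
            · rw [hb, e1, hα]; norm_num
            · have := hl1 j (g.u p); omega
        · intro p hp
          rw [ho hp.le ha ha2, hu hp.le hb]
      · by_cases hb2 : b = dn e
        · refine Ph.shift (g := fun p => x e a - vl j (r - g.m p)) ?_ ?_
          · rcases h01 e a with hα | hα
            · refine block_nonpos2 hq h h' (Or.inl ?_) (fun p _ => ?_)
              · rw [hb2, e3, hα]; norm_num
              · have := hnn j (r - g.m p); omega
            · refine block_nonneg2 hq h h' (Or.inr ?_) (fun p _ => ?_)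
              · rw [hb2, e4, e5 a ha ha2, hα]; norm_num
              · have := hl1 j (r - g.m p); omega
          · intro p hp
            rw [ho hp.le ha ha2, hd hp.le hb2]
        · refine Ph.shift (g := fun _ => x e a - x e b) ?_ ?_
          · exact Ph.const le_rfl hq (fun t _ _ => h)
          · intro p hp
            rw [ho hp.le ha ha2, ho hp.le hb hb2]

/-- pairs of curves in different base chains -/
theorem alt_base2 (hN : 0 < N) (h01 : ∀ t c, x t c = 0 ∨ x t c = 1)
    (hwin : ∀ c, w.lo c < w.hi c ∧ w.hi c ≤ T)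
    (hex : ExData T w x up dn)
    {a b : C} (hab : a ≠ b) (i : Fin (sz2 C T B r (.inl a))) (j : Fin (sz2 C T B r (.inl b)))
    {e₀ q : ℕ}
    (hF : Ph (fun t => x t a - x t b) e₀ (min (w.hi a) (w.hi b) + 1) q (q + s)) :
    Ph (fun t => xx2 T x up dn g t ⟨.inl a, i⟩ - xx2 T x up dn g t ⟨.inl b, j⟩)
      (e₀ * N) (min (w.hi a * N) (w.hi b * N) + 1) q (q + s) := by
  have hmin : min (w.hi a * N) (w.hi b * N) = min (w.hi a) (w.hi b) * N :=
    (Nat.mul_min_mul_right _ _ _)
  rw [hmin]
  refine Ph.blocks2 (F := fun t => x t a - x t b) (by omega) hN hF ?_ ?_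
  · intro e _ he q q' hq h h'
    have := (hwin a).2
    exact block_base2 hN h01 hex hab i j (by omega) hq h h'
  · rw [xx2_base hN h01 hex, xx2_base hN h01 hex]

/-- base curve against helper -/
theorem alt_helper2 (hN : 0 < N) (h01 : ∀ t c, x t c = 0 ∨ x t c = 1)
    (hex : ExData T w x up dn)
    {a : C} {e' : Fin T} (i : Fin (sz2 C T B r (.inl a))) (k : Fin (sz2 C T B r (.inr e')))
    {q : ℕ} (hq : 0 < (-1) ^ q * (2 * xx2 T x up dn g (e' * N) ⟨.inl a, i⟩ - 1)) :
    Ph (fun t => xx2 T x up dn g t ⟨.inl a, i⟩ - xx2 T x up dn g t ⟨.inr e', k⟩)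
      (e' * N) (min (w.hi a * N) (e' * N + N) + 1) q (q + c) := by
  have he := e'.2
  rcases Nat.lt_or_ge (w.hi a) (e' + 1) with hlt | hge
  · -- the base curve dies before: at most one common time
    refine ph_const_older (fun t => xx2_or t _) (fun t => xx2_or t _) (fun t h1 h2 => ?_) hq
    have h3 : w.hi a * N ≤ e' * N := Nat.mul_le_mul_right N (by omega)
    have : t = e' * N := by omega
    rw [this]
  · have h3 : (e' + 1) * N ≤ w.hi a * N := Nat.mul_le_mul_right N hge
    rw [add_mul, one_mul] at h3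
    rw [min_eq_right h3, add_assoc]
    rw [xx2_base hN h01 hex] at hq
    obtain ⟨-, -, e1, e2, e3, e4, e5⟩ := hex e' he
    by_cases ha : a = up e'
    · have hodd : Odd q := by
        apply odd_of_neg_one_pow
        refine neg_one_pow_eq_neg_one_of2 hq.le ?_
        rw [ha, e1]; norm_num
      refine Ph.shift (g.colq i k i.2 q hodd) (fun p hp => ?_)
      rw [xx2_up hN hex he (by omega) ha, xx2_helper_on hN hex e' (by omega)]
    · by_cases ha2 : a = dn e'
      · have heven : Even q := by
          apply even_of_neg_one_pow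
          refine neg_one_pow_eq_one_of2 hq.le ?_
          rw [ha2, e3]; norm_num
        refine Ph.shift (g.rowq i k i.2 q heven) (fun p hp => ?_)
        rw [xx2_dn hN hex he (by omega) ha2, xx2_helper_on hN hex e' (by omega)]
      · refine ph_const_older (fun t => xx2_or t _) (fun t => xx2_or t _) (fun t h1 h2 => ?_)
          (by rw [xx2_base hN h01 hex]; exact hq)
        obtain ⟨p, rfl⟩ := Nat.exists_eq_add_of_le h1
        rw [xx2_other hN h01 hex he (by omega) ha ha2 i, xx2_base hN h01 hex]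

/-- the pair conditions for an older and a younger curve -/
theorem old_all (hN : 0 < N) (h01 : ∀ t c, x t c = 0 ∨ x t c = 1)
    (hwin : ∀ c, w.lo c < w.hi c ∧ w.hi c ≤ T)
    (hex : ExData T w x up dn) (hL : ∀ c, w.rk c < L)
    (hold : ∀ a b, w.older a b → ∀ q, 0 < (-1) ^ q * (2 * x (w.lo b) a - 1) →
      Ph (fun t => x t a - x t b) (w.lo b) (min (w.hi a) (w.hi b) + 1) q (q + s))
    (a b : CC C T B r) (hab : (ww T B r N w L).older a b) (q : ℕ)
    (hq : 0 < (-1) ^ q * (2 * xx2 T x up dn g ((ww T B r N w L).lo b) a - 1)) :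
    Ph (fun t => xx2 T x up dn g t a - xx2 T x up dn g t b) ((ww T B r N w L).lo b)
      (min ((ww T B r N w L).hi a) ((ww T B r N w L).hi b) + 1) q (q + max s c) := by
  obtain ⟨d, i⟩ := a
  obtain ⟨d', j⟩ := b
  rcases d with a | e <;> rcases d' with b | e'
  · change w.lo a * N < w.lo b * N ∨ (w.lo a * N = w.lo b * N ∧ w.rk a < w.rk b) at hab
    have hab' : w.older a b := by
      rcases hab with h | ⟨h1, h2⟩
      · exact Or.inl (Nat.lt_of_mul_lt_mul_right h)
      · exact Or.inr ⟨Nat.eq_of_mul_eq_mul_right hN h1, h2⟩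
    have hne : a ≠ b := by
      rintro rfl
      rcases hab' with h | ⟨_, h⟩ <;> omega
    change 0 < (-1) ^ q * (2 * xx2 T x up dn g (w.lo b * N) ⟨.inl a, i⟩ - 1) at hq
    rw [xx2_base hN h01 hex] at hq
    exact (alt_base2 hN h01 hwin hex hne i j (hold a b hab' q hq)).mono le_rfl (by omega)
  · change 0 < (-1) ^ q * (2 * xx2 T x up dn g (e' * N) ⟨.inl a, i⟩ - 1) at hq
    exact (alt_helper2 (w := w) hN h01 hex i j hq).mono le_rfl (by omega)
  · -- the helper dies before the base curve is born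
    change (e : ℕ) * N < w.lo b * N ∨ ((e : ℕ) * N = w.lo b * N ∧ L < w.rk b) at hab
    have hlt : (e : ℕ) < w.lo b := by
      rcases hab with h | ⟨_, h⟩
      · exact Nat.lt_of_mul_lt_mul_right h
      · have := hL b; omega
    change 0 < (-1) ^ q * (2 * xx2 T x up dn g (w.lo b * N) ⟨.inr e, i⟩ - 1) at hq
    change Ph _ (w.lo b * N) (min ((e : ℕ) * N + N) (w.hi b * N) + 1) q (q + max s c)
    have h3 : ((e : ℕ) + 1) * N ≤ w.lo b * N := Nat.mul_le_mul_right N hlt
    rw [add_mul, one_mul] at h3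
    refine ph_const_older (fun t => xx2_or t _) (fun t => xx2_or t _) (fun t h1 h2 => ?_) hq
    have : t = w.lo b * N := by omega
    rw [this]
  · change (e : ℕ) * N < (e' : ℕ) * N ∨ ((e : ℕ) * N = (e' : ℕ) * N ∧ L < L) at hab
    have hlt : (e : ℕ) < e' := by
      rcases hab with h | ⟨_, h⟩
      · exact Nat.lt_of_mul_lt_mul_right h
      · omega
    change 0 < (-1) ^ q * (2 * xx2 T x up dn g (e' * N) ⟨.inr e, i⟩ - 1) at hq
    change Ph _ (e' * N) (min ((e : ℕ) * N + N) (e' * N + N) + 1) q (q + max s c)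
    have h3 : ((e : ℕ) + 1) * N ≤ e' * N := Nat.mul_le_mul_right N hlt
    rw [add_mul, one_mul] at h3
    refine ph_const_older (fun t => xx2_or t _) (fun t => xx2_or t _) (fun t h1 h2 => ?_) hq
    have : t = e' * N := by omega
    rw [this]

/-- pairs in the same chain are single-signed -/
theorem same_chain (d : C ⊕ Fin T) (i j : Fin (sz2 C T B r d)) :
    (∀ t, 0 ≤ xx2 T x up dn g t ⟨d, i⟩ - xx2 T x up dn g t ⟨d, j⟩) ∨
    (∀ t, xx2 T x up dn g t ⟨d, i⟩ - xx2 T x up dn g t ⟨d, j⟩ ≤ 0) := by
  rcases le_total (i : ℕ) j with h | h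
  · left
    intro t
    unfold xx2 st2 vl
    dsimp only
    split_ifs <;> omega
  · right
    intro t
    unfold xx2 st2 vl
    dsimp only
    split_ifs <;> omega

/-- the pair conditions for curves of the same age -/
theorem same_all (hN : 0 < N) (hs : 1 ≤ s) (h01 : ∀ t c, x t c = 0 ∨ x t c = 1)
    (hwin : ∀ c, w.lo c < w.hi c ∧ w.hi c ≤ T)
    (hex : ExData T w x up dn) (hL : ∀ c, w.rk c < L)
    (hsame : ∀ a b, a ≠ b → w.lo a = w.lo b → w.rk a = w.rk b →
      ∀ q, 0 ≤ (-1) ^ q * (x (w.lo a) a - x (w.lo a) b) →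
      Ph (fun t => x t a - x t b) (w.lo a) (min (w.hi a) (w.hi b) + 1) q (q + s))
    (a b : CC C T B r) (hab : a ≠ b) (hlo : (ww T B r N w L).lo a = (ww T B r N w L).lo b)
    (hrk : (ww T B r N w L).rk a = (ww T B r N w L).rk b) (q : ℕ)
    (hq : 0 ≤ (-1) ^ q * (xx2 T x up dn g ((ww T B r N w L).lo a) a -
      xx2 T x up dn g ((ww T B r N w L).lo a) b)) :
    Ph (fun t => xx2 T x up dn g t a - xx2 T x up dn g t b) ((ww T B r N w L).lo a)
      (min ((ww T B r N w L).hi a) ((ww T B r N w L).hi b) + 1) q (q + max s c) := by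
  obtain ⟨d, i⟩ := a
  obtain ⟨d', j⟩ := b
  by_cases hd : d = d'
  · subst hd
    exact ph_single (by omega) (same_chain d i j)
  rcases d with a | e <;> rcases d' with b | e'
  · have hne : a ≠ b := fun h => hd (by rw [h])
    change w.lo a * N = w.lo b * N at hlo
    change w.rk a = w.rk b at hrk
    change 0 ≤ (-1) ^ q * (xx2 T x up dn g (w.lo a * N) ⟨.inl a, i⟩ -
      xx2 T x up dn g (w.lo a * N) ⟨.inl b, j⟩) at hq
    rw [xx2_base hN h01 hex, xx2_base hN h01 hex] at hq
    exact (alt_base2 hN h01 hwin hex hne i j (hsame a b hne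
      (Nat.eq_of_mul_eq_mul_right hN hlo) hrk q hq)).mono le_rfl (by omega)
  · change w.rk a = L at hrk
    have := hL a
    omega
  · change L = w.rk b at hrk
    have := hL b
    omega
  · change (e : ℕ) * N = (e' : ℕ) * N at hlo
    have : e = e' := Fin.ext (Nat.eq_of_mul_eq_mul_right hN hlo)
    exact absurd (by rw [this]) hd

end comp

/-- **Composition**: each exchange of a system is replaced by a block exchange. -/
theorem HasSys2.comp {s n T B r N c : ℕ} (h : HasSys2 s n T) (g : Gadget2 B r N c) (hN : 0 < N)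
    (hs : 1 ≤ s) :
    HasSys2 (max s c) (r * n + T * (2 * B)) (T * N) := by
  classical
  obtain ⟨K, w, x, h⟩ := h
  rcases Nat.eq_zero_or_pos T with hT | hT
  · -- no curve can exist
    subst hT
    have hn : n = 0 := by
      by_contra hn
      have := h.win ⟨0, Nat.pos_of_ne_zero hn⟩
      omega
    subst hn
    simp only [mul_zero, zero_mul, add_zero]
    refine ⟨K, w, x, ⟨h.h01, h.win, fun t ht => by omega, fun t ht => by omega,
      fun a => a.elim0, fun a => a.elim0⟩⟩
  obtain ⟨a₀, b₀, _⟩ := h.exch 0 hT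
  have hch : ∀ t, ∃ ab : Fin n × Fin n, t < T → (w.lo ab.1 ≤ t ∧ t + 1 ≤ w.hi ab.1) ∧
      (w.lo ab.2 ≤ t ∧ t + 1 ≤ w.hi ab.2) ∧ x t ab.1 = 0 ∧ x (t + 1) ab.1 = 1 ∧
      x t ab.2 = 1 ∧ x (t + 1) ab.2 = 0 ∧ ∀ c, c ≠ ab.1 → c ≠ ab.2 → x (t + 1) c = x t c := by
    intro t
    by_cases ht : t < T
    · obtain ⟨a, b, h1⟩ := h.exch t ht
      exact ⟨(a, b), fun _ => h1⟩
    · exact ⟨(a₀, b₀), fun h => absurd h ht⟩
  choose ab hab using hch
  have hex : ExData T w x (fun t => (ab t).1) (fun t => (ab t).2) := fun t ht => hab t ht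
  obtain ⟨L, hL⟩ : ∃ L, ∀ c, w.rk c < L := by
    refine ⟨(Finset.univ.sup w.rk) + 1, fun c => ?_⟩
    have := Finset.le_sup (f := w.rk) (Finset.mem_univ c)
    omega
  refine HasSys2.of_fintype (C := CC (Fin n) T B r) (K := K * r + B) ?_
    (w := ww T B r N w L) (x := xx2 T x (fun t => (ab t).1) (fun t => (ab t).2) g) ?_
  · rw [Fintype.card_sigma]
    have e1 : ∑ _a : Fin n, Fintype.card (Fin r) = n * r := by simp
    have e2 : ∑ _a : Fin T, Fintype.card (Fin (2 * B)) = T * (2 * B) := by simp
    rw [Fintype.sum_sum_type]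
    change ∑ _a : Fin n, Fintype.card (Fin r) + ∑ _a : Fin T, Fintype.card (Fin (2 * B)) = _
    rw [e1, e2]
    ring
  · refine ⟨fun t c => xx2_or t c, ?_, fun t ht => xx2_exch hN hex t ht,
      cnt_all hN h.h01 hex h.cnt, ?_, ?_⟩
    · rintro ⟨a | e, i⟩
      · change w.lo a * N < w.hi a * N ∧ w.hi a * N ≤ T * N
        exact ⟨Nat.mul_lt_mul_of_pos_right (h.win a).1 hN, Nat.mul_le_mul_right N (h.win a).2⟩
      · change (e : ℕ) * N < e * N + N ∧ e * N + N ≤ T * N
        have := Nat.mul_le_mul_right N (show (e : ℕ) + 1 ≤ T from e.2)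
        rw [add_mul, one_mul] at this
        omega
    · intro a b hab q hq
      exact old_all hN h.h01 h.win hex hL h.old a b hab q hq
    · intro a b hab hlo hrk q hq
      exact same_all hN hs h.h01 h.win hex hL h.same a b hab hlo hrk q hq

end LevelLower
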