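import Pool.Agent.LevelLower.Defs
import Pool.Agent.LevelLower.CompAlt2

/-!
# Realising an exchange system with windows by x-monotone arcs
-/

namespace LevelLower

section bounded

/-- a bound for the number of vertices -/
theorem vertices_bound2 {s n : ℕ} {Γ : Fin n → XArc} (h : Intersecting s Γ) :
    (vertices Γ).Finite ∧ (vertices Γ).ncard ≤ 2 * n + n * n * s := by
  classical
  have hfin : ∀ i j, i ≠ j → ((Γ i).graph ∩ (Γ j).graph).Finite := fun i j hij =>
    Set.finite_of_encard_le_coe (h i j hij)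
  have hch : ∀ ij : Fin n × Fin n, ∃ F : Finset (ℝ × ℝ), F.card ≤ s ∧
      (ij.1 ≠ ij.2 → (Γ ij.1).graph ∩ (Γ ij.2).graph ⊆ ↑F) := by
    intro ij
    by_cases hij : ij.1 = ij.2
    · exact ⟨∅, by simp, fun hh => absurd hij hh⟩
    · refine ⟨(hfin _ _ hij).toFinset, ?_, fun _ => by simp⟩
      have := h _ _ hij
      rw [(hfin _ _ hij).encard_eq_coe_toFinset_card] at this
      exact_mod_cast this
  choose F hF1 hF2 using hch
  let V : Finset (ℝ × ℝ) := (Finset.univ.biUnion fun i : Fin n =>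
    ({((Γ i).lo, (Γ i).f (Γ i).lo), ((Γ i).hi, (Γ i).f (Γ i).hi)} : Finset (ℝ × ℝ))) ∪
    Finset.univ.biUnion F
  have hsub : vertices Γ ⊆ ↑V := by
    rintro p (⟨i, hi⟩ | ⟨i, j, hij, hp⟩)
    · refine Finset.mem_coe.2 (Finset.mem_union_left _ (Finset.mem_biUnion.2 ⟨i, by simp, ?_⟩))
      simpa [XArc.endpoints] using hi
    · exact Finset.mem_coe.2 (Finset.mem_union_right _ (Finset.mem_biUnion.2
        ⟨(i, j), by simp, hF2 (i, j) hij hp⟩))
  have hV : V.card ≤ 2 * n + n * n * s := by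
    refine (Finset.card_union_le _ _).trans (Nat.add_le_add ?_ ?_)
    · refine Finset.card_biUnion_le.trans ?_
      have h2 : ∀ i ∈ (Finset.univ : Finset (Fin n)),
          ({((Γ i).lo, (Γ i).f (Γ i).lo), ((Γ i).hi, (Γ i).f (Γ i).hi)} :
            Finset (ℝ × ℝ)).card ≤ 2 := fun i _ => Finset.card_le_two
      refine (Finset.sum_le_sum h2).trans ?_
      simp [mul_comm]
    · refine Finset.card_biUnion_le.trans ?_
      refine (Finset.sum_le_sum (fun i _ => hF1 i)).trans ?_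
      simp
  refine ⟨V.finite_toSet.subset hsub, ?_⟩
  refine (Set.ncard_le_ncard hsub V.finite_toSet).trans ?_
  rwa [Set.ncard_coe_finset]

theorem le_Psi2 {s n k : ℕ} {Γ : Fin n → XArc} (h : Intersecting s Γ) (hk : k < n) :
    psi Γ k ≤ Psi s n := by
  refine le_csSup ⟨2 * n + n * n * s, ?_⟩ ⟨Γ, h, k, hk, rfl⟩
  rintro m ⟨Γ', h', k', _, rfl⟩
  obtain ⟨h1, h2⟩ := vertices_bound2 h'
  exact (Set.ncard_le_ncard Set.inter_subset_left h1).trans h2

end bounded

section realise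

variable {n : ℕ}

/-- An injective key compatible with age. -/
theorem exists_key (w : Win (Fin n)) : ∃ κ : Fin n → ℕ, Function.Injective κ ∧
    ∀ a b, w.older a b → κ a < κ b ∧ κ a + (w.lo b - w.lo a) ≤ κ b := by
  obtain ⟨L, hL⟩ : ∃ L, ∀ c, w.rk c ≤ L :=
    ⟨Finset.univ.sup w.rk, fun c => Finset.le_sup (f := w.rk) (Finset.mem_univ c)⟩
  refine ⟨fun c => (w.lo c * (L + 1) + w.rk c) * n + c, ?_, ?_⟩
  · intro a b hab
    dsimp only at hab
    have ha := a.2
    have hb := b.2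
    have h1 : ((w.lo a * (L + 1) + w.rk a) * n + a) % n =
      ((w.lo b * (L + 1) + w.rk b) * n + b) % n := by rw [hab]
    rw [mul_comm, Nat.mul_add_mod, mul_comm (w.lo b * (L + 1) + w.rk b), Nat.mul_add_mod,
      Nat.mod_eq_of_lt ha, Nat.mod_eq_of_lt hb] at h1
    exact Fin.ext h1
  · intro a b hab
    have ha := a.2
    have hb := b.2
    have hra := hL a
    have hrb := hL b
    rcases hab with h | ⟨h, h'⟩
    · obtain ⟨m, hm⟩ : ∃ m, w.lo b = w.lo a + (m + 1) := ⟨w.lo b - w.lo a - 1, by omega⟩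
      have key : (w.lo a * (L + 1) + w.rk a) + (m + 1) ≤ w.lo b * (L + 1) + w.rk b := by
        rw [hm]
        nlinarith
      have key2 := Nat.mul_le_mul_right n key
      rw [add_mul] at key2
      have key3 : (m + 1) * n = m * n + n := by ring
      have key4 : m ≤ m * n := Nat.le_mul_of_pos_right m (by omega)
      dsimp only
      omega
    · have key : (w.lo a * (L + 1) + w.rk a) + 1 ≤ w.lo b * (L + 1) + w.rk b := by
        rw [h]; omega
      have key2 := Nat.mul_le_mul_right n key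
      rw [add_mul, one_mul] at key2
      dsimp only
      omega

/-- offset at birth -/
noncomputable def eta (κ : Fin n → ℕ) (c : Fin n) : ℝ := (1 / 3 : ℝ) ^ (κ c + 1)

theorem eta_pos (κ : Fin n → ℕ) (c : Fin n) : 0 < eta κ c := by unfold eta; positivity

theorem eta_le (κ : Fin n → ℕ) (c : Fin n) : eta κ c ≤ 1 / 3 := by
  unfold eta
  calc (1 / 3 : ℝ) ^ (κ c + 1) ≤ (1 / 3 : ℝ) ^ 1 :=
        pow_le_pow_of_le_one (by norm_num) (by norm_num) (by omega)
    _ = 1 / 3 := by norm_num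

theorem eta_older {κ : Fin n → ℕ} {a b : Fin n} {m : ℕ} (h1 : κ a < κ b) (h2 : κ a + m ≤ κ b) :
    eta κ b < eta κ a / 2 ^ m := by
  unfold eta
  rw [lt_div_iff₀ (by positivity)]
  obtain ⟨j, hj⟩ : ∃ j, κ b = κ a + j := ⟨κ b - κ a, by omega⟩
  rw [hj, show κ a + j + 1 = (κ a + 1) + j by ring, pow_add, mul_assoc]
  have hpos : (0 : ℝ) < (1 / 3) ^ (κ a + 1) := by positivity
  refine mul_lt_of_lt_one_right hpos ?_
  have hj1 : 1 ≤ j := by omega
  have hjm : m ≤ j := by omega
  have h3 : (2 : ℝ) ^ m ≤ 2 ^ j := pow_le_pow_right₀ (by norm_num) hjm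
  calc (1 / 3 : ℝ) ^ j * 2 ^ m ≤ (1 / 3) ^ j * 2 ^ j :=
        mul_le_mul_of_nonneg_left h3 (by positivity)
    _ = (2 / 3 : ℝ) ^ j := by rw [← mul_pow]; norm_num
    _ < 1 := pow_lt_one₀ (by norm_num) (by norm_num) (by omega)

/-- height at birth -/
noncomputable def vb (w : Win (Fin n)) (x : ℕ → Fin n → ℤ) (κ : Fin n → ℕ) (c : Fin n) : ℝ :=
  if x (w.lo c) c = 0 then 1 - eta κ c else 1 + eta κ c

/-- heights at integer times -/
noncomputable def v2 (w : Win (Fin n)) (x : ℕ → Fin n → ℤ) (κ : Fin n → ℕ) : ℕ → Fin n → ℝ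
  | 0, c => vb w x κ c
  | t + 1, c => if t + 1 ≤ w.lo c then vb w x κ c else x (t + 1) c + v2 w x κ t c / 2

variable {w : Win (Fin n)} {x : ℕ → Fin n → ℤ} {κ : Fin n → ℕ}

theorem v2_of_le {t : ℕ} {c : Fin n} (h : t ≤ w.lo c) : v2 w x κ t c = vb w x κ c := by
  cases t with
  | zero => rfl
  | succ t => rw [v2, if_pos h]

theorem v2_succ {t : ℕ} {c : Fin n} (h : w.lo c ≤ t) :
    v2 w x κ (t + 1) c = x (t + 1) c + v2 w x κ t c / 2 := by
  rw [v2, if_neg (by omega)]

theorem v2_inv (h01 : ∀ t c, x t c = 0 ∨ x t c = 1) {c : Fin n} {t : ℕ} (ht : w.lo c ≤ t) :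
    eta κ c / 2 ^ (t - w.lo c) ≤ v2 w x κ t c ∧
    v2 w x κ t c ≤ 2 - eta κ c / 2 ^ (t - w.lo c) ∧
    (x t c = 0 → v2 w x κ t c ≤ 1 - eta κ c / 2 ^ (t - w.lo c)) ∧
    (x t c = 1 → 1 + eta κ c / 2 ^ (t - w.lo c) ≤ v2 w x κ t c) := by
  have he := eta_pos κ c
  have he' := eta_le κ c
  induction t, ht using Nat.le_induction with
  | base =>
    rw [v2_of_le le_rfl, Nat.sub_self, pow_zero, div_one]
    unfold vb
    rcases h01 (w.lo c) c with h | h
    · rw [if_pos h, h]
      refine ⟨by linarith, by linarith, fun _ => le_rfl, fun h => by norm_num at h⟩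
    · rw [if_neg (by rw [h]; norm_num), h]
      refine ⟨by linarith, by linarith, fun h => by norm_num at h, fun _ => le_rfl⟩
  | succ t ht ih =>
    obtain ⟨i1, i2, -, -⟩ := ih
    rw [v2_succ ht, show t + 1 - w.lo c = (t - w.lo c) + 1 by omega, pow_succ,
      ← div_div]
    set δ := eta κ c / 2 ^ (t - w.lo c) with hδ
    have hδ0 : 0 < δ := by positivity
    rcases h01 (t + 1) c with h | h
    · rw [h]
      push_cast
      refine ⟨by linarith, by linarith, fun _ => by linarith, fun h => by norm_num at h⟩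
    · rw [h]
      push_cast
      refine ⟨by linarith, by linarith, fun h => by norm_num at h, fun _ => by linarith⟩

theorem v2_bounds (h01 : ∀ t c, x t c = 0 ∨ x t c = 1) {c : Fin n} {t : ℕ} (ht : w.lo c ≤ t) :
    (x t c : ℝ) < v2 w x κ t c ∧ v2 w x κ t c < x t c + 1 := by
  obtain ⟨i1, i2, i3, i4⟩ := v2_inv (κ := κ) h01 ht
  have he : 0 < eta κ c / 2 ^ (t - w.lo c) := div_pos (eta_pos κ c) (by positivity)
  rcases h01 t c with h | h
  · have := i3 h
    rw [h]
    push_cast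
    constructor <;> linarith
  · have := i4 h
    rw [h]
    push_cast
    constructor <;> linarith

/-- sign of the height difference of an older and a newborn curve -/
theorem v2_older (h01 : ∀ t c, x t c = 0 ∨ x t c = 1)
    (hκ : ∀ a b, w.older a b → κ a < κ b ∧ κ a + (w.lo b - w.lo a) ≤ κ b)
    {a b : Fin n} (hab : w.older a b) :
    (x (w.lo b) a = 1 → v2 w x κ (w.lo b) b < v2 w x κ (w.lo b) a) ∧
    (x (w.lo b) a = 0 → v2 w x κ (w.lo b) a < v2 w x κ (w.lo b) b) := by
  have hle : w.lo a ≤ w.lo b := by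
    rcases hab with h | ⟨h, _⟩ <;> omega
  obtain ⟨i1, i2, i3, i4⟩ := v2_inv (κ := κ) h01 hle
  obtain ⟨k1, k2⟩ := hκ a b hab
  have hη := eta_older k1 k2
  have hb : 1 - eta κ b ≤ v2 w x κ (w.lo b) b ∧ v2 w x κ (w.lo b) b ≤ 1 + eta κ b := by
    have := eta_pos κ b
    rw [v2_of_le le_rfl]
    unfold vb
    split_ifs <;> constructor <;> linarith
  constructor
  · intro h
    have := i4 h
    linarith [hb.2]
  · intro h
    have := i3 h
    linarith [hb.1]

theorem v2_lt_two (h01 : ∀ t c, x t c = 0 ∨ x t c = 1) {a b : Fin n} {t : ℕ}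
    (ha : w.lo a ≤ t) (hb : w.lo b ≤ t) : |v2 w x κ t a - v2 w x κ t b| < 2 := by
  have h1 := v2_bounds (κ := κ) h01 ha
  have h2 := v2_bounds (κ := κ) h01 hb
  have h3 : (0 : ℝ) ≤ x t a ∧ (x t a : ℝ) ≤ 1 := by
    rcases h01 t a with h | h <;> rw [h] <;> norm_num
  have h4 : (0 : ℝ) ≤ x t b ∧ (x t b : ℝ) ≤ 1 := by
    rcases h01 t b with h | h <;> rw [h] <;> norm_num
  rw [abs_lt]
  constructor <;> linarith [h1.1, h1.2, h2.1, h2.2, h3.1, h3.2, h4.1, h4.2]

theorem v2_diff_succ {a b : Fin n} {t : ℕ} (ha : w.lo a ≤ t) (hb : w.lo b ≤ t) :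
    v2 w x κ (t + 1) a - v2 w x κ (t + 1) b =
      ((x (t + 1) a : ℝ) - x (t + 1) b) + (v2 w x κ t a - v2 w x κ t b) / 2 := by
  rw [v2_succ ha, v2_succ hb]
  ring

/-- the certificate of a pair, with a starting phase matching the initial order -/
theorem pair_cert {s T K : ℕ} (h : IsSys2 s T K w x) (hκi : Function.Injective κ)
    (hκ : ∀ a b, w.older a b → κ a < κ b ∧ κ a + (w.lo b - w.lo a) ≤ κ b)
    {a b : Fin n} (hab : a ≠ b) :
    ∃ q, 0 < (-1 : ℝ) ^ q * (v2 w x κ (max (w.lo a) (w.lo b)) a -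
        v2 w x κ (max (w.lo a) (w.lo b)) b) ∧
      Ph (fun t => x t a - x t b) (max (w.lo a) (w.lo b)) (min (w.hi a) (w.hi b) + 1)
        q (q + s) := by
  have h01 := h.h01
  by_cases hold : w.older a b
  · have hle : w.lo a ≤ w.lo b := by
      rcases hold with h | ⟨h, _⟩ <;> omega
    rw [max_eq_right hle]
    obtain ⟨g1, g2⟩ := v2_older h01 hκ hold
    rcases h01 (w.lo b) a with h0 | h1
    · refine ⟨1, ?_, h.old a b hold 1 (by rw [h0]; norm_num)⟩
      have := g2 h0
      linarith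
    · refine ⟨0, ?_, h.old a b hold 0 (by rw [h1]; norm_num)⟩
      have := g1 h1
      linarith
  by_cases hold' : w.older b a
  · have hle : w.lo b ≤ w.lo a := by
      rcases hold' with h | ⟨h, _⟩ <;> omega
    rw [max_eq_left hle]
    obtain ⟨g1, g2⟩ := v2_older h01 hκ hold'
    rcases h01 (w.lo a) b with h0 | h1
    · refine ⟨0, ?_, ?_⟩
      · have := g2 h0
        linarith
      · have := h.old b a hold' 1 (by rw [h0]; norm_num)
        rw [show 1 + s = s + 1 by ring] at this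
        have := Ph.neg (a := 0) (b := s) this
        rw [min_comm]
        refine (this.mono le_rfl (by omega)).congr (fun t _ _ => ?_)
        ring
    · refine ⟨1, ?_, ?_⟩
      · have := g1 h1
        linarith
      · have := h.old b a hold' 2 (by rw [h1]; norm_num)
        rw [show 2 + s = (1 + s) + 1 by ring] at this
        have := Ph.neg (a := 1) (b := 1 + s) this
        rw [min_comm]
        refine this.congr (fun t _ _ => ?_)
        ring
  -- same age
  have hlo : w.lo a = w.lo b := by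
    unfold Win.older at hold hold'
    omega
  have hrk : w.rk a = w.rk b := by
    unfold Win.older at hold hold'
    omega
  rw [hlo, max_self]
  have va : v2 w x κ (w.lo b) a = vb w x κ a := v2_of_le hlo.ge
  have vbb : v2 w x κ (w.lo b) b = vb w x κ b := v2_of_le le_rfl
  have hne : eta κ a ≠ eta κ b := by
    intro he
    unfold eta at he
    have := pow_right_injective₀ (show (0 : ℝ) < 1 / 3 by norm_num) (by norm_num) he
    exact hab (hκi (by simpa using this))
  have hsame := h.same a b hab hlo hrk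
  rw [hlo] at hsame
  have ea := eta_pos κ a
  have eb := eta_pos κ b
  have xa : x (w.lo a) a = x (w.lo b) a := by rw [hlo]
  rw [va, vbb]
  unfold vb
  rw [xa]
  rcases h01 (w.lo b) a with h0 | h1 <;> rcases h01 (w.lo b) b with h0' | h1'
  · rw [if_pos h0, if_pos h0']
    rcases lt_or_gt_of_ne hne with hlt | hlt
    · exact ⟨0, by simp; linarith, hsame 0 (by rw [h0, h0']; norm_num)⟩
    · exact ⟨1, by simp; linarith, hsame 1 (by rw [h0, h0']; norm_num)⟩
  · rw [if_pos h0, if_neg (by rw [h1']; norm_num)]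
    exact ⟨1, by simp; linarith, hsame 1 (by rw [h0, h1']; norm_num)⟩
  · rw [if_neg (by rw [h1]; norm_num), if_pos h0']
    exact ⟨0, by simp; linarith, hsame 0 (by rw [h1, h0']; norm_num)⟩
  · rw [if_neg (by rw [h1]; norm_num), if_neg (by rw [h1']; norm_num)]
    rcases lt_or_gt_of_ne hne with hlt | hlt
    · exact ⟨1, by simp; linarith, hsame 1 (by rw [h1, h1']; norm_num)⟩
    · exact ⟨0, by simp; linarith, hsame 0 (by rw [h1, h1']; norm_num)⟩

theorem v2_ne (h01 : ∀ t c, x t c = 0 ∨ x t c = 1) {a b : Fin n} {t₀ : ℕ}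
    (ha : w.lo a ≤ t₀) (hb : w.lo b ≤ t₀) (h0 : v2 w x κ t₀ a - v2 w x κ t₀ b ≠ 0)
    {t : ℕ} (ht : t₀ ≤ t) : v2 w x κ t a - v2 w x κ t b ≠ 0 := by
  induction t, ht using Nat.le_induction with
  | base => exact h0
  | succ t ht ih =>
    have hlt := v2_lt_two (κ := κ) h01 (ha.trans ht) (hb.trans ht)
    rw [v2_diff_succ (ha.trans ht) (hb.trans ht)]
    rw [abs_lt] at hlt
    rcases h01 (t + 1) a with h1 | h1 <;> rcases h01 (t + 1) b with h2 | h2 <;> rw [h1, h2] <;>
      push_cast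
    · intro h
      exact ih (by linarith)
    · intro h
      linarith [hlt.2]
    · intro h
      linarith [hlt.1]
    · intro h
      exact ih (by linarith)

/-- piecewise linear interpolation -/
noncomputable def F2 (w : Win (Fin n)) (x : ℕ → Fin n → ℤ) (κ : Fin n → ℕ) (T : ℕ) (c : Fin n)
    (X : ℝ) : ℝ :=
  v2 w x κ 0 c + ∑ j ∈ Finset.range T,
    (v2 w x κ (j + 1) c - v2 w x κ j c) * max 0 (min 1 (X - j))

theorem F2_cont (w : Win (Fin n)) (x : ℕ → Fin n → ℤ) (κ : Fin n → ℕ) (T : ℕ) (c : Fin n) :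
    Continuous (F2 w x κ T c) := by
  unfold F2
  fun_prop

theorem F2_eq (w : Win (Fin n)) (x : ℕ → Fin n → ℤ) (κ : Fin n → ℕ) (T : ℕ) (c : Fin n) {t : ℕ}
    (ht : t < T) {X : ℝ} (h1 : (t : ℝ) ≤ X) (h2 : X ≤ t + 1) :
    F2 w x κ T c X = v2 w x κ t c + (X - t) * (v2 w x κ (t + 1) c - v2 w x κ t c) := by
  have key1 : ∀ m ≤ t, v2 w x κ 0 c + ∑ j ∈ Finset.range m,
      (v2 w x κ (j + 1) c - v2 w x κ j c) * max 0 (min 1 (X - j)) = v2 w x κ m c := by
    intro m
    induction m with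
    | zero => intro _; simp
    | succ m ih =>
      intro hm
      rw [Finset.sum_range_succ, ← add_assoc, ih (by omega)]
      have hm' : (m : ℝ) + 1 ≤ t := by exact_mod_cast hm
      rw [min_eq_left (by linarith), max_eq_right (by norm_num)]
      ring
  have key2 : ∀ m, t + 1 ≤ m → v2 w x κ 0 c + ∑ j ∈ Finset.range m,
      (v2 w x κ (j + 1) c - v2 w x κ j c) * max 0 (min 1 (X - j)) =
      v2 w x κ t c + (X - t) * (v2 w x κ (t + 1) c - v2 w x κ t c) := by
    intro m hm
    induction m, hm using Nat.le_induction with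
    | base =>
      rw [Finset.sum_range_succ, ← add_assoc, key1 t le_rfl]
      rw [min_eq_right (by linarith), max_eq_right (by linarith)]
      ring
    | succ m hm ih =>
      rw [Finset.sum_range_succ, ← add_assoc, ih]
      have hm' : (t : ℝ) + 1 ≤ m := by exact_mod_cast hm
      rw [min_eq_right (by linarith), max_eq_left (by linarith)]
      ring
  exact key2 T ht

/-- the arc of a curve -/
noncomputable def arc2 (w : Win (Fin n)) (x : ℕ → Fin n → ℤ) (κ : Fin n → ℕ) (T : ℕ)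
    (hw : ∀ c, w.lo c < w.hi c) (c : Fin n) : XArc where
  lo := w.lo c
  hi := w.hi c
  lo_lt_hi := by exact_mod_cast hw c
  f := F2 w x κ T c
  cont := (F2_cont w x κ T c).continuousOn

/-- a common point lies in the interior of a segment with a sign change -/
theorem zero_seg2 {T : ℕ} {a b : Fin n} {t₀ t₁ : ℕ} (ht₁ : t₁ ≤ T)
    (hne : ∀ t, t₀ ≤ t → v2 w x κ t a - v2 w x κ t b ≠ 0) {X : ℝ}
    (hX : X ∈ Set.Icc (t₀ : ℝ) t₁) (h : F2 w x κ T a X = F2 w x κ T b X) :
    t₀ ≤ ⌊X⌋₊ ∧ ⌊X⌋₊ < t₁ ∧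
    (v2 w x κ ⌊X⌋₊ a - v2 w x κ ⌊X⌋₊ b) * (v2 w x κ (⌊X⌋₊ + 1) a - v2 w x κ (⌊X⌋₊ + 1) b) < 0 ∧
    (v2 w x κ ⌊X⌋₊ a - v2 w x κ ⌊X⌋₊ b) + (X - ⌊X⌋₊) * ((v2 w x κ (⌊X⌋₊ + 1) a -
      v2 w x κ (⌊X⌋₊ + 1) b) - (v2 w x κ ⌊X⌋₊ a - v2 w x κ ⌊X⌋₊ b)) = 0 := by
  have hX0 : 0 ≤ X := le_trans (Nat.cast_nonneg _) hX.1
  have h01 : t₀ ≤ t₁ := by exact_mod_cast hX.1.trans hX.2
  have hXne : ∀ m : ℕ, t₀ ≤ m → m ≤ T → 0 < T → X ≠ m := by
    intro m hm hmT hT hXm
    rcases Nat.lt_or_ge m T with hmT' | hmT'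
    · have e1 := F2_eq w x κ T a hmT' (X := X) hXm.ge (by linarith)
      have e2 := F2_eq w x κ T b hmT' (X := X) hXm.ge (by linarith)
      rw [hXm, sub_self, zero_mul, add_zero] at e1 e2
      rw [hXm] at h
      exact hne m hm (by rw [← e1, ← e2, h, sub_self])
    · obtain rfl : m = T := by omega
      obtain ⟨T', rfl⟩ : ∃ T', m = T' + 1 := ⟨m - 1, by omega⟩
      have e1 := F2_eq w x κ (T' + 1) a (t := T') (by omega) (X := X)
        (by rw [hXm]; push_cast; linarith) (by rw [hXm]; push_cast; linarith)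
      have e2 := F2_eq w x κ (T' + 1) b (t := T') (by omega) (X := X)
        (by rw [hXm]; push_cast; linarith) (by rw [hXm]; push_cast; linarith)
      have e3 : X - T' = 1 := by rw [hXm]; push_cast; ring
      rw [e3] at e1 e2
      exact hne (T' + 1) hm (by linarith)
  rcases Nat.eq_zero_or_pos T with hT | hT
  · exfalso
    subst hT
    obtain rfl : t₁ = 0 := by omega
    obtain rfl : t₀ = 0 := by omega
    have hX00 : X = 0 := by
      have := hX.2
      push_cast at this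
      linarith
    subst hX00
    unfold F2 at h
    simp only [Finset.range_zero, Finset.sum_empty, add_zero] at h
    exact hne 0 le_rfl (by rw [h, sub_self])
  have hXT : X < t₁ := lt_of_le_of_ne hX.2 (hXne t₁ h01 ht₁ hT)
  set t := ⌊X⌋₊ with ht
  have t1 : (t : ℝ) ≤ X := Nat.floor_le hX0
  have t2 : X < t + 1 := Nat.lt_floor_add_one X
  have t3 : t < t₁ := by
    have : (t : ℝ) < t₁ := lt_of_le_of_lt t1 hXT
    exact_mod_cast this
  have t4 : t₀ ≤ t := Nat.le_floor hX.1
  have e1 := F2_eq w x κ T a (t3.trans_le ht₁) t1 t2.le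
  have e2 := F2_eq w x κ T b (t3.trans_le ht₁) t1 t2.le
  have e3 : (v2 w x κ t a - v2 w x κ t b) + (X - t) * ((v2 w x κ (t + 1) a -
      v2 w x κ (t + 1) b) - (v2 w x κ t a - v2 w x κ t b)) = 0 := by
    have : (v2 w x κ t a - v2 w x κ t b) + (X - t) * ((v2 w x κ (t + 1) a -
      v2 w x κ (t + 1) b) - (v2 w x κ t a - v2 w x κ t b)) =
      (v2 w x κ t a + (X - t) * (v2 w x κ (t + 1) a - v2 w x κ t a)) -
      (v2 w x κ t b + (X - t) * (v2 w x κ (t + 1) b - v2 w x κ t b)) := by ring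
    rw [this, ← e1, ← e2, h, sub_self]
  refine ⟨t4, t3, ?_, e3⟩
  have hd := hne t t4
  have hd' := hne (t + 1) (by omega)
  set D := v2 w x κ t a - v2 w x κ t b
  set D' := v2 w x κ (t + 1) a - v2 w x κ (t + 1) b
  set μ := X - t
  have m0 : 0 ≤ μ := by simp only [μ]; linarith
  have m1 : μ < 1 := by simp only [μ]; linarith
  by_contra hcon
  push Not at hcon
  have hpos : 0 < D * D' := lt_of_le_of_ne hcon (mul_ne_zero hd hd').symm
  have h5 : (1 - μ) * (D * D) + μ * (D * D') = 0 := by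
    have : (1 - μ) * (D * D) + μ * (D * D') = (D + μ * (D' - D)) * D := by ring
    rw [this, e3, zero_mul]
  have h6 : 0 < D * D := mul_self_pos.2 hd
  have h7 : 0 < (1 - μ) * (D * D) := mul_pos (by linarith) h6
  have h8 : 0 ≤ μ * (D * D') := mul_nonneg m0 hpos.le
  linarith

/-- the sign persists while the phase does not change -/
theorem persist {a b : Fin n} {t t' q : ℕ} (ha : w.lo a ≤ t) (hb : w.lo b ≤ t)
    (h0 : 0 < (-1 : ℝ) ^ q * (v2 w x κ t a - v2 w x κ t b))
    (hq : ∀ j, t + 1 ≤ j → j ≤ t' → 0 ≤ (-1) ^ q * (x j a - x j b)) :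
    ∀ j, t ≤ j → j ≤ t' → 0 < (-1 : ℝ) ^ q * (v2 w x κ j a - v2 w x κ j b) := by
  intro j hj
  induction j, hj using Nat.le_induction with
  | base => intro _; exact h0
  | succ j hj ih =>
    intro hj'
    have h1 := ih (by omega)
    have h2 := hq (j + 1) (by omega) hj'
    have h3 : (0 : ℝ) ≤ (-1) ^ q * ((x (j + 1) a : ℝ) - x (j + 1) b) := by
      have h3 : ((0 : ℤ) : ℝ) ≤ (((-1) ^ q * (x (j + 1) a - x (j + 1) b) : ℤ) : ℝ) := by
        exact_mod_cast h2
      push_cast at h3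
      exact h3
    rw [v2_diff_succ (ha.trans hj) (hb.trans hj), mul_add]
    have : (-1 : ℝ) ^ q * ((v2 w x κ j a - v2 w x κ j b) / 2) =
        ((-1) ^ q * (v2 w x κ j a - v2 w x κ j b)) / 2 := by
      ring
    rw [this]
    linarith

/-- after a sign change the sign agrees with the phase -/
theorem after_change (h01 : ∀ t c, x t c = 0 ∨ x t c = 1) {a b : Fin n} {t q : ℕ}
    (ha : w.lo a ≤ t) (hb : w.lo b ≤ t)
    (hneg : (v2 w x κ t a - v2 w x κ t b) * (v2 w x κ (t + 1) a - v2 w x κ (t + 1) b) < 0)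
    (hq : 0 ≤ (-1) ^ q * (x (t + 1) a - x (t + 1) b)) :
    0 < (-1 : ℝ) ^ q * (v2 w x κ (t + 1) a - v2 w x κ (t + 1) b) := by
  have hsucc := v2_diff_succ (x := x) (κ := κ) ha hb
  have h2 : x (t + 1) a - x (t + 1) b ≠ 0 := by
    intro h0
    have h0' : (x (t + 1) a : ℝ) - x (t + 1) b = 0 := by exact_mod_cast h0
    rw [hsucc, h0'] at hneg
    nlinarith [mul_self_nonneg (v2 w x κ t a - v2 w x κ t b)]
  have h3 : (-1) ^ q * (x (t + 1) a - x (t + 1) b) = 1 := by
    rcases neg_one_pow_eq_or ℤ q with h | h <;> rw [h] at hq ⊢ <;>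
      rcases h01 (t + 1) a with h5 | h5 <;> rcases h01 (t + 1) b with h6 | h6 <;>
      rw [h5, h6] at hq h2 ⊢ <;> omega
  have h4 : (-1 : ℝ) ^ q * ((x (t + 1) a : ℝ) - x (t + 1) b) = 1 := by exact_mod_cast h3
  rw [hsucc, mul_add, h4]
  have h5 := v2_lt_two (κ := κ) h01 ha hb
  rw [abs_lt] at h5
  rcases neg_one_pow_eq_or ℝ q with h | h <;> rw [h] <;> linarith [h5.1, h5.2]

theorem arc2_intersecting {s T K : ℕ} (h : IsSys2 s T K w x) (hκi : Function.Injective κ)
    (hκ : ∀ a b, w.older a b → κ a < κ b ∧ κ a + (w.lo b - w.lo a) ≤ κ b) :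
    Intersecting s (arc2 w x κ T (fun c => (h.win c).1)) := by
  have h01 := h.h01
  intro a b hab
  obtain ⟨q, hq0, φ, hφ1, hφ2, hφ3⟩ := pair_cert h hκi hκ hab
  set t₀ := max (w.lo a) (w.lo b) with ht₀
  set t₁ := min (w.hi a) (w.hi b) with ht₁
  have hat : w.lo a ≤ t₀ := le_max_left _ _
  have hbt : w.lo b ≤ t₀ := le_max_right _ _
  have ht₁T : t₁ ≤ T := (min_le_left _ _).trans (h.win a).2
  have hne0 : v2 w x κ t₀ a - v2 w x κ t₀ b ≠ 0 := by
    intro h0
    rw [h0, mul_zero] at hq0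
    exact lt_irrefl _ hq0
  have hne : ∀ t, t₀ ≤ t → v2 w x κ t a - v2 w x κ t b ≠ 0 := fun t ht =>
    v2_ne h01 hat hbt hne0 ht
  -- the intersection points
  have hpt : ∀ p ∈ (arc2 w x κ T (fun c => (h.win c).1) a).graph ∩
      (arc2 w x κ T (fun c => (h.win c).1) b).graph,
      p.1 ∈ Set.Icc (t₀ : ℝ) t₁ ∧ p.2 = F2 w x κ T a p.1 ∧
      F2 w x κ T a p.1 = F2 w x κ T b p.1 := by
    rintro p ⟨⟨hpI, hpa⟩, ⟨hpI', hpb⟩⟩
    change p.1 ∈ Set.Icc ((w.lo a : ℕ) : ℝ) (w.hi a) at hpI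
    change p.1 ∈ Set.Icc ((w.lo b : ℕ) : ℝ) (w.hi b) at hpI'
    change p.2 = F2 w x κ T a p.1 at hpa
    change p.2 = F2 w x κ T b p.1 at hpb
    refine ⟨⟨?_, ?_⟩, hpa, hpa.symm.trans hpb⟩
    · rw [ht₀, Nat.cast_max]
      exact max_le hpI.1 hpI'.1
    · rw [ht₁, Nat.cast_min]
      exact le_min hpI.2 hpI'.2
  have hmaps : Set.MapsTo (fun p : ℝ × ℝ => φ (⌊p.1⌋₊ + 1))
      ((arc2 w x κ T (fun c => (h.win c).1) a).graph ∩
        (arc2 w x κ T (fun c => (h.win c).1) b).graph)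
      (↑(Finset.Ioc q (q + s)) : Set ℕ) := by
    intro p hp
    obtain ⟨hpI, hpa, hpe⟩ := hpt p hp
    obtain ⟨z0, z1, z2, z3⟩ := zero_seg2 ht₁T hne hpI hpe
    have h1 := hφ2 (⌊p.1⌋₊ + 1)
    rw [Finset.coe_Ioc, Set.mem_Ioc]
    refine ⟨lt_of_le_of_ne h1.1 (fun hqe => ?_), h1.2⟩
    change q = φ (⌊p.1⌋₊ + 1) at hqe
    -- the phase cannot be the initial one
    have hper := persist (κ := κ) (t' := ⌊p.1⌋₊ + 1) hat hbt hq0 (fun j h1 h2 => by
      have m1 := (hφ2 j).1
      have m2 := hφ1 h2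
      have : φ j = q := by omega
      rw [← this]
      exact hφ3 j (by omega) (by omega))
    have s1 := hper ⌊p.1⌋₊ z0 (by omega)
    have s2 := hper (⌊p.1⌋₊ + 1) (by omega) le_rfl
    rcases neg_one_pow_eq_or ℝ q with h | h <;> rw [h] at s1 s2 <;> nlinarith
  have hinj : Set.InjOn (fun p : ℝ × ℝ => φ (⌊p.1⌋₊ + 1))
      ((arc2 w x κ T (fun c => (h.win c).1) a).graph ∩
        (arc2 w x κ T (fun c => (h.win c).1) b).graph) := by
    have key : ∀ p p' : ℝ × ℝ, p ∈ (arc2 w x κ T (fun c => (h.win c).1) a).graph ∩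
        (arc2 w x κ T (fun c => (h.win c).1) b).graph →
        p' ∈ (arc2 w x κ T (fun c => (h.win c).1) a).graph ∩
        (arc2 w x κ T (fun c => (h.win c).1) b).graph →
        ¬ (⌊p.1⌋₊ < ⌊p'.1⌋₊ ∧ φ (⌊p.1⌋₊ + 1) = φ (⌊p'.1⌋₊ + 1)) := by
      rintro p p' hp hp' ⟨hlt, heq⟩
      obtain ⟨hpI, hpa, hpe⟩ := hpt p hp
      obtain ⟨hpI', hpa', hpe'⟩ := hpt p' hp'
      obtain ⟨z0, z1, z2, z3⟩ := zero_seg2 ht₁T hne hpI hpe
      obtain ⟨y0, y1, y2, y3⟩ := zero_seg2 ht₁T hne hpI' hpe'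
      have hphase : ∀ j, ⌊p.1⌋₊ + 1 ≤ j → j ≤ ⌊p'.1⌋₊ + 1 →
          0 ≤ (-1) ^ (φ (⌊p.1⌋₊ + 1)) * (x j a - x j b) := by
        intro j h1 h2
        have m1 := hφ1 h1
        have m2 := hφ1 h2
        have : φ j = φ (⌊p.1⌋₊ + 1) := by omega
        rw [← this]
        exact hφ3 j (by omega) (by omega)
      have hch := after_change h01 (hat.trans z0) (hbt.trans z0) z2
        (hphase _ le_rfl (by omega))
      have hper := persist (κ := κ) (t := ⌊p.1⌋₊ + 1) (t' := ⌊p'.1⌋₊ + 1)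
        (by omega) (by omega) hch (fun j h1 h2 => hphase j (by omega) h2)
      have s1 := hper ⌊p'.1⌋₊ (by omega) (by omega)
      have s2 := hper (⌊p'.1⌋₊ + 1) (by omega) le_rfl
      rcases neg_one_pow_eq_or ℝ (φ (⌊p.1⌋₊ + 1)) with h | h <;> rw [h] at s1 s2 <;> nlinarith
    intro p hp p' hp' heq
    dsimp only at heq
    have hfl : ⌊p.1⌋₊ = ⌊p'.1⌋₊ := by
      rcases lt_trichotomy ⌊p.1⌋₊ ⌊p'.1⌋₊ with h | h | h
      · exact absurd ⟨h, heq⟩ (key p p' hp hp')
      · exact h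
      · exact absurd ⟨h, heq.symm⟩ (key p' p hp' hp)
    obtain ⟨hpI, hpa, hpe⟩ := hpt p hp
    obtain ⟨hpI', hpa', hpe'⟩ := hpt p' hp'
    obtain ⟨z0, z1, z2, z3⟩ := zero_seg2 ht₁T hne hpI hpe
    obtain ⟨y0, y1, y2, y3⟩ := zero_seg2 ht₁T hne hpI' hpe'
    rw [← hfl] at y0 y1 y2 y3
    have hX : p.1 = p'.1 := by
      set D := v2 w x κ ⌊p.1⌋₊ a - v2 w x κ ⌊p.1⌋₊ b
      set D' := v2 w x κ (⌊p.1⌋₊ + 1) a - v2 w x κ (⌊p.1⌋₊ + 1) b
      have hne : D' - D ≠ 0 := by
        intro h0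
        have : D' = D := by linarith
        rw [this] at z2
        nlinarith [mul_self_nonneg D]
      have : (p.1 - p'.1) * (D' - D) = 0 := by linarith
      rcases mul_eq_zero.1 this with h | h
      · linarith
      · exact absurd h hne
    refine Prod.ext hX ?_
    rw [hpa, hpa', hX]
  have := Set.encard_le_encard_of_injOn hmaps hinj
  rw [Set.encard_coe_eq_coe_finsetCard, Nat.card_Ioc, Nat.add_sub_cancel_left] at this
  exact this

/-- each exchange yields a vertex on the level -/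
theorem level_point2 {s T K : ℕ} (h : IsSys2 s T K w x) {t : ℕ} (ht : t < T) :
    ∃ p : ℝ × ℝ, (t : ℝ) < p.1 ∧ p.1 < t + 1 ∧
      p ∈ vertices (arc2 w x κ T (fun c => (h.win c).1)) ∧
      p ∈ level (arc2 w x κ T (fun c => (h.win c).1)) (K - 1) := by
  have h01 := h.h01
  obtain ⟨a, b, ⟨la, ha'⟩, ⟨lb, hb'⟩, h1, h2, h3, h4, h5⟩ := h.exch t ht
  have hab : a ≠ b := by
    rintro rfl
    omega
  have ba := v2_bounds (κ := κ) h01 la
  have bb := v2_bounds (κ := κ) h01 lb
  rw [h1] at ba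
  rw [h3] at bb
  push_cast at ba bb
  have va : v2 w x κ (t + 1) a = 1 + v2 w x κ t a / 2 := by
    rw [v2_succ la, h2]; push_cast; ring
  have vb : v2 w x κ (t + 1) b = v2 w x κ t b / 2 := by
    rw [v2_succ lb, h4]; push_cast; ring
  set f := v2 w x κ t a with hf
  set G := v2 w x κ t b with hG
  set D := G - f with hD
  have hD0 : 0 < D := by simp only [hD]; linarith
  have hD2 : D < 2 := by simp only [hD]; linarith
  set μ := D / (1 + D / 2) with hμ
  have hden : (0 : ℝ) < 1 + D / 2 := by linarith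
  have hμ0 : 0 < μ := div_pos hD0 hden
  have hμ1 : μ < 1 := (div_lt_one hden).2 (by linarith)
  have hμD : μ * (1 + D / 2) = D := div_mul_cancel₀ _ hden.ne'
  have t1 : (t : ℝ) ≤ t + μ := by linarith
  have t2 : (t : ℝ) + μ ≤ t + 1 := by linarith
  have Fa : F2 w x κ T a (t + μ) = f + μ * (1 - f / 2) := by
    rw [F2_eq w x κ T a ht t1 t2, va, ← hf]; ring
  have Fb : F2 w x κ T b (t + μ) = G * (1 - μ / 2) := by
    rw [F2_eq w x κ T b ht t1 t2, vb, ← hG]; ring
  have hcommon : f + μ * (1 - f / 2) = G * (1 - μ / 2) := by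
    have : G = D + f := by simp only [hD]; ring
    rw [this]
    linarith [hμD]
  -- being alive
  have halive : ∀ c : Fin n, ((t : ℝ) + μ) ∈ Set.Icc ((w.lo c : ℕ) : ℝ) (w.hi c) ↔
      (w.lo c ≤ t ∧ t + 1 ≤ w.hi c) := by
    intro c
    constructor
    · rintro ⟨k1, k2⟩
      constructor
      · have : ((w.lo c : ℕ) : ℝ) < t + 1 := by linarith
        have : w.lo c < t + 1 := by exact_mod_cast this
        omega
      · have : (t : ℝ) < w.hi c := by linarith
        have : t < w.hi c := by exact_mod_cast this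
        omega
    · rintro ⟨k1, k2⟩
      have k1' : ((w.lo c : ℕ) : ℝ) ≤ t := by exact_mod_cast k1
      have k2' : (t : ℝ) + 1 ≤ w.hi c := by exact_mod_cast k2
      constructor <;> linarith
  have hXa := (halive a).2 ⟨la, ha'⟩
  have hXb := (halive b).2 ⟨lb, hb'⟩
  refine ⟨(t + μ, G * (1 - μ / 2)), by simpa using hμ0, by simpa using hμ1, ?_, ?_⟩
  · right
    refine ⟨a, b, hab, ⟨hXa, ?_⟩, ⟨hXb, ?_⟩⟩
    · change G * (1 - μ / 2) = F2 w x κ T a (t + μ)
      rw [Fa, hcommon]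
    · change G * (1 - μ / 2) = F2 w x κ T b (t + μ)
      rw [Fb]
  · apply subset_closure
    refine ⟨⟨b, hXb, ?_⟩, ?_⟩
    · change G * (1 - μ / 2) = F2 w x κ T b (t + μ)
      rw [Fb]
    · have hbelow : below (arc2 w x κ T (fun c => (h.win c).1)) (t + μ, G * (1 - μ / 2)) =
          ↑((Finset.univ.filter
            (fun c => w.lo c ≤ t ∧ t + 1 ≤ w.hi c ∧ x t c = 0)).erase a) := by
        ext c
        simp only [below, Set.mem_ofPred_eq, Finset.coe_erase, Finset.coe_filter,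
          Finset.mem_univ, true_and, Set.mem_sdiff, Set.mem_singleton_iff]
        change (((t : ℝ) + μ) ∈ Set.Icc ((w.lo c : ℕ) : ℝ) (w.hi c) ∧
          F2 w x κ T c (t + μ) < G * (1 - μ / 2)) ↔ _
        rw [halive c]
        by_cases hca : c = a
        · subst hca
          rw [Fa, hcommon]
          simp
        · by_cases hcb : c = b
          · subst hcb
            rw [Fb]
            simp [h3]
          · by_cases hal : w.lo c ≤ t ∧ t + 1 ≤ w.hi c
            · have hc := h5 c hca hcb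
              rw [F2_eq w x κ T c ht t1 t2]
              have bc := v2_bounds (κ := κ) h01 hal.1
              rcases h01 t c with h0 | h0
              · have hc' : v2 w x κ (t + 1) c = v2 w x κ t c / 2 := by
                  rw [v2_succ hal.1, hc, h0]; push_cast; ring
                rw [h0] at bc
                push_cast at bc
                rw [hc']
                simp only [h0, hca, not_false_iff, and_self, iff_true, hal]
                have : v2 w x κ t c + ((t : ℝ) + μ - t) * (v2 w x κ t c / 2 - v2 w x κ t c) =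
                  v2 w x κ t c * (1 - μ / 2) := by ring
                rw [this]
                exact ⟨trivial, mul_lt_mul_of_pos_right (by linarith) (by linarith)⟩
              · have hc' : v2 w x κ (t + 1) c = 1 + v2 w x κ t c / 2 := by
                  rw [v2_succ hal.1, hc, h0]; push_cast; ring
                rw [h0] at bc
                push_cast at bc
                rw [hc']
                simp only [h0, one_ne_zero, and_false, false_and, iff_false, not_and, not_lt]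
                intro _
                rw [← hcommon]
                have e1 : v2 w x κ t c + ((t : ℝ) + μ - t) *
                    (1 + v2 w x κ t c / 2 - v2 w x κ t c) =
                  v2 w x κ t c * (1 - μ / 2) + μ := by ring
                have e2 : f + μ * (1 - f / 2) = f * (1 - μ / 2) + μ := by ring
                rw [e1, e2]
                have : f * (1 - μ / 2) ≤ v2 w x κ t c * (1 - μ / 2) :=
                  mul_le_mul_of_nonneg_right (by linarith) (by linarith)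
                linarith
            · constructor
              · rintro ⟨h, _⟩
                exact absurd h hal
              · rintro ⟨⟨h6, h7, _⟩, _⟩
                exact absurd ⟨h6, h7⟩ hal
      have hmem : a ∈ Finset.univ.filter
          (fun c => w.lo c ≤ t ∧ t + 1 ≤ w.hi c ∧ x t c = 0) := by
        simp only [Finset.mem_filter, Finset.mem_univ, true_and]
        exact ⟨la, ha', h1⟩
      rw [hbelow, Set.ncard_coe_finset, Finset.card_erase_of_mem hmem, h.cnt t ht]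

theorem HasSys2.Psi_le {s n T : ℕ} (h : HasSys2 s n T) : T ≤ Psi s n := by
  rcases Nat.eq_zero_or_pos T with hT | hT
  · omega
  obtain ⟨K, w, x, hx⟩ := h
  obtain ⟨κ, hκi, hκ⟩ := exists_key w
  have hpt : ∀ t : Fin T, ∃ p : ℝ × ℝ, (t : ℝ) < p.1 ∧ p.1 < t + 1 ∧
      p ∈ vertices (arc2 w x κ T (fun c => (hx.win c).1)) ∧
      p ∈ level (arc2 w x κ T (fun c => (hx.win c).1)) (K - 1) :=
    fun t => level_point2 hx t.2
  choose p h1 h2 h3 h4 using hpt
  have hinter := arc2_intersecting hx hκi hκ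
  have hk : K - 1 < n := by
    obtain ⟨a, b, ⟨la, ha'⟩, _, e1, _⟩ := hx.exch 0 hT
    have c0 := hx.cnt 0 hT
    have hmem : a ∈ Finset.univ.filter
        (fun c => w.lo c ≤ 0 ∧ 0 + 1 ≤ w.hi c ∧ x 0 c = 0) := by
      simp only [Finset.mem_filter, Finset.mem_univ, true_and]
      exact ⟨la, ha', e1⟩
    have c1 : 0 < (Finset.univ.filter
        (fun c => w.lo c ≤ 0 ∧ 0 + 1 ≤ w.hi c ∧ x 0 c = 0)).card :=
      Finset.card_pos.2 ⟨a, hmem⟩
    have c2 : (Finset.univ.filter
        (fun c => w.lo c ≤ 0 ∧ 0 + 1 ≤ w.hi c ∧ x 0 c = 0)).card ≤ n := by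
      have := Finset.card_le_univ (Finset.univ.filter
        (fun c => w.lo c ≤ 0 ∧ 0 + 1 ≤ w.hi c ∧ x 0 c = 0))
      simpa using this
    omega
  refine le_trans ?_ (le_Psi2 hinter hk)
  have hinj : Function.Injective p := by
    intro t t' htt
    have a1 := h1 t
    have a2 := h2 t
    have a3 := h1 t'
    have a4 := h2 t'
    rw [htt] at a1 a2
    have b1 : ((t : ℕ) : ℝ) < (t' : ℕ) + 1 := by linarith
    have b2 : ((t' : ℕ) : ℝ) < (t : ℕ) + 1 := by linarith
    have c1 : (t : ℕ) < t' + 1 := by exact_mod_cast b1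
    have c2 : (t' : ℕ) < t + 1 := by exact_mod_cast b2
    exact Fin.ext (by omega)
  have hfin := (vertices_bound2 hinter).1
  have hsub : Set.range p ⊆ vertices (arc2 w x κ T (fun c => (hx.win c).1)) ∩
      level (arc2 w x κ T (fun c => (hx.win c).1)) (K - 1) := by
    rintro _ ⟨t, rfl⟩
    exact ⟨h3 t, h4 t⟩
  have hc : (Set.range p).ncard = T := by
    rw [← Set.image_univ, Set.ncard_image_of_injective _ hinj, Set.ncard_univ]
    simp
  calc T = (Set.range p).ncard := hc.symm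
    _ ≤ _ := Set.ncard_le_ncard hsub (hfin.subset Set.inter_subset_left)

end realise

end LevelLower
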