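import Pool.Agent.LevelLower.Realise2

/-!
# Iterating the composition (windows version)
-/

namespace LevelLower

theorem HasSys2.mono {s s' n T : ℕ} (h : HasSys2 s n T) (hs : s ≤ s') : HasSys2 s' n T := by
  obtain ⟨K, w, x, h⟩ := h
  exact ⟨K, w, x, ⟨h.h01, h.win, h.exch, h.cnt,
    fun a b hab q hq => (h.old a b hab q hq).mono le_rfl (by omega),
    fun a b hab h1 h2 q hq => (h.same a b hab h1 h2 q hq).mono le_rfl (by omega)⟩⟩

theorem HasSys2.dummy {s n T : ℕ} (h : HasSys2 s n T) (hs : 1 ≤ s) (hT : 0 < T) (d : ℕ) :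
    HasSys2 s (n + d) T := by
  obtain ⟨K, w, x, h⟩ := h
  refine HasSys2.of_fintype (C := Fin n ⊕ Fin d) (K := K) (by simp)
    (w := ⟨Sum.elim w.lo (fun _ => 0), Sum.elim w.hi (fun _ => T), Sum.elim w.rk (fun _ => 0)⟩)
    (x := fun t => Sum.elim (x t) (fun _ => 1)) ⟨?_, ?_, ?_, ?_, ?_, ?_⟩
  · rintro t (c | c)
    · exact h.h01 t c
    · right; rfl
  · rintro (c | c)
    · exact h.win c
    · exact ⟨hT, le_rfl⟩
  · intro t ht
    obtain ⟨a, b, g1, g2, e1, e2, e3, e4, e5⟩ := h.exch t ht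
    refine ⟨.inl a, .inl b, g1, g2, e1, e2, e3, e4, ?_⟩
    rintro (c | c) hca hcb
    · exact e5 c (fun h => hca (by rw [h])) (fun h => hcb (by rw [h]))
    · rfl
  · intro t ht
    rw [← h.cnt t ht, ← Finset.card_map (Function.Embedding.inl : Fin n ↪ Fin n ⊕ Fin d)]
    congr 1
    ext c
    simp only [Finset.mem_map, Finset.mem_filter, Finset.mem_univ, true_and,
      Function.Embedding.inl_apply]
    constructor
    · intro hc
      rcases c with c | c
      · exact ⟨c, hc, rfl⟩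
      · exfalso
        have := hc.2.2
        simp at this
    · rintro ⟨c', hc', rfl⟩
      exact hc'
  · rintro (a | a) (b | b) hab q hq
    · exact h.old a b hab q hq
    · exfalso
      rcases hab with hh | ⟨_, hh⟩
      · exact absurd hh (Nat.not_lt_zero _)
      · exact absurd hh (Nat.not_lt_zero _)
    · refine ph_const_older (X := fun _ => 1) (Y := fun t => x t b) (fun _ => Or.inr rfl)
        (fun t => h.h01 t b) (fun _ _ _ => rfl) hq
    · exfalso
      rcases hab with hh | ⟨_, hh⟩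
      · exact absurd hh (Nat.not_lt_zero _)
      · exact absurd hh (Nat.not_lt_zero _)
  · rintro (a | a) (b | b) hab h1 h2 q hq
    · exact h.same a b (fun h => hab (by rw [h])) h1 h2 q hq
    · refine ph_single hs (Or.inr (fun t => ?_))
      have := h.h01 t a
      change x t a - 1 ≤ 0
      omega
    · refine ph_single hs (Or.inl (fun t => ?_))
      have := h.h01 t b
      change 0 ≤ 1 - x t b
      omega
    · refine ph_single hs (Or.inl (fun t => ?_))
      change (0 : ℤ) ≤ 1 - 1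
      norm_num

theorem HasSys2.le {s n n' T : ℕ} (h : HasSys2 s n T) (hs : 1 ≤ s) (hT : 0 < T) (hn : n ≤ n') :
    HasSys2 s n' T := by
  have := h.dummy hs hT (n' - n)
  rwa [Nat.add_sub_cancel' hn] at this

/-- two curves crossing once -/
theorem hasSys2_two : HasSys2 1 2 1 := by
  refine ⟨1, ⟨fun _ => 0, fun _ => 1, fun _ => 0⟩,
    fun t c => if (t = 0) = (c = 0) then 0 else 1, ⟨?_, ?_, ?_, ?_, ?_, ?_⟩⟩
  · intro t c
    split_ifs <;> simp
  · intro c
    exact ⟨Nat.one_pos, le_rfl⟩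
  · intro t ht
    obtain rfl : t = 0 := by omega
    refine ⟨0, 1, ⟨le_rfl, le_rfl⟩, ⟨le_rfl, le_rfl⟩, by simp, by simp, by simp, by simp, ?_⟩
    intro c h0 h1
    fin_cases c <;> simp at h0 h1
  · intro t ht
    obtain rfl : t = 0 := by omega
    have : (Finset.univ.filter (fun c : Fin 2 => (0 : ℕ) ≤ 0 ∧ 0 + 1 ≤ 1 ∧
        (if ((0 : ℕ) = 0) = (c = 0) then (0 : ℤ) else 1) = 0)) = {0} := by
      ext c
      fin_cases c <;> simp
    rw [this]
    rfl
  · intro a b hab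
    exfalso
    rcases hab with hh | ⟨_, hh⟩
    · exact absurd hh (lt_irrefl _)
    · exact absurd hh (lt_irrefl _)
  · intro a b hab _ _ q hq
    refine ⟨fun t => if t = 0 then q else q + 1, ?_, ?_, ?_⟩
    · intro t t' htt
      dsimp only
      split_ifs <;> omega
    · intro t
      dsimp only
      split_ifs <;> omega
    · intro t _ ht
      change t < min 1 1 + 1 at ht
      rw [min_self] at ht
      dsimp only at hq ⊢
      rcases Nat.eq_zero_or_pos t with h0 | h0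
      · subst h0
        simpa using hq
      · obtain rfl : t = 1 := by omega
        rw [if_neg (by norm_num), pow_succ]
        have e : ((if ((1 : ℕ) = 0) = (a = 0) then (0 : ℤ) else 1) -
            (if ((1 : ℕ) = 0) = (b = 0) then (0 : ℤ) else 1)) =
            - ((if ((0 : ℕ) = 0) = (a = 0) then (0 : ℤ) else 1) -
            (if ((0 : ℕ) = 0) = (b = 0) then (0 : ℤ) else 1)) := by
          fin_cases a <;> fin_cases b <;> simp
        rw [e]
        linarith

/-- the growth factor -/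
def lam (a l : ℕ) : ℕ := 2 ^ (l + 2) * (a + 1) - 2

theorem four_le_pow_mul (a l : ℕ) : 4 ≤ 2 ^ (l + 2) * (a + 1) := by
  have h1 : 2 ^ 2 ≤ 2 ^ (l + 2) := Nat.pow_le_pow_right (by norm_num) (by omega)
  calc 4 = 2 ^ 2 * 1 := by norm_num
    _ ≤ 2 ^ (l + 2) * (a + 1) := Nat.mul_le_mul h1 (by omega)

theorem length_Q2_eq (a l : ℕ) : (Q2 a l).length = 2 ^ l * lam a l := by
  have h := length_Q2 a l
  have h4 : 4 ^ l = 2 ^ l * 2 ^ l := by rw [← Nat.mul_pow]
  unfold lam
  rw [Nat.mul_sub, pow_add]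
  rw [h4] at h
  have e : 2 ^ l * 2 ^ l * (4 * a + 4) = 2 ^ l * (2 ^ l * 2 ^ 2 * (a + 1)) := by ring
  rw [e] at h
  omega

/-- one step of the recursion -/
theorem HasSys2.step {s n T a l R : ℕ} (h : HasSys2 s n T) (hl : 1 ≤ l)
    (hs : 4 * l + 2 * a - 1 ≤ s) (hR : 1 ≤ R) :
    HasSys2 s (R * 2 ^ l * n + T * (2 * 2 ^ l)) (T * (R * (2 ^ l * lam a l))) := by
  obtain ⟨g⟩ := exists_gadget2 a l R hl
  rw [length_Q2_eq] at g
  have h4 := four_le_pow_mul a l
  have hlam : 0 < lam a l := by unfold lam; omega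
  have hpos : 0 < R * (2 ^ l * lam a l) := by positivity
  have h1 := h.comp g hpos (by omega)
  rwa [max_eq_left hs] at h1

/-- quadratically many exchanges with logarithmically many alternations -/
theorem hasSys2_quadratic (l : ℕ) (hl : 1 ≤ l) :
    HasSys2 (4 * l - 1) (4 * 2 ^ l) (2 ^ l * (4 * 2 ^ l - 2)) := by
  have h1 := (hasSys2_two.mono (show 1 ≤ 4 * l - 1 by omega)).step (a := 0) (l := l) (R := 1)
    hl (by omega) le_rfl
  have e1 : 1 * 2 ^ l * 2 + 1 * (2 * 2 ^ l) = 4 * 2 ^ l := by ring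
  have e2 : 1 * (1 * (2 ^ l * lam 0 l)) = 2 ^ l * (4 * 2 ^ l - 2) := by
    unfold lam
    rw [one_mul, one_mul, zero_add, mul_one, pow_add]
    congr 2
    ring
  rwa [e1, e2] at h1

/-- **Quadratic bound for `s` logarithmic in `n`.** -/
theorem main_log2 {s n : ℕ} (hn : 8 ≤ n) (hs : 4 * Nat.log 2 n ≤ s + 9) :
    3 * n ^ 2 ≤ 64 * Psi s n := by
  obtain ⟨l, hl⟩ : ∃ l, Nat.log 2 n = l + 3 := by
    refine ⟨Nat.log 2 n - 3, ?_⟩
    have : 3 ≤ Nat.log 2 n := Nat.le_log_of_pow_le (by norm_num) (by omega)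
    omega
  have h1 : 2 ^ (l + 3) ≤ n := by
    rw [← hl]
    exact Nat.pow_log_le_self 2 (by omega)
  have h2 : n < 2 ^ (l + 4) := by
    have := Nat.lt_pow_succ_log_self (b := 2) (by norm_num) n
    rwa [hl] at this
  have e1 : 2 ^ (l + 3) = 4 * 2 ^ (l + 1) := by ring
  have e2 : 2 ^ (l + 4) = 8 * 2 ^ (l + 1) := by ring
  obtain ⟨B, hB⟩ : ∃ B, B = 2 ^ (l + 1) := ⟨_, rfl⟩
  have hB2 : 2 ≤ B := by
    rw [hB]
    calc 2 = 2 ^ 1 := by norm_num
      _ ≤ 2 ^ (l + 1) := Nat.pow_le_pow_right (by norm_num) (by omega)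
  have hpos : 0 < 2 ^ (l + 1) * (4 * 2 ^ (l + 1) - 2) := by
    rw [← hB]
    have : 0 < 4 * B - 2 := by omega
    positivity
  have hsys := ((hasSys2_quadratic (l + 1) (by omega)).mono
    (show 4 * (l + 1) - 1 ≤ s by omega)).le (by omega) hpos (show 4 * 2 ^ (l + 1) ≤ n by omega)
  have hPsi := hsys.Psi_le
  rw [← hB] at hPsi
  have h3 : n ^ 2 ≤ (8 * B) ^ 2 := Nat.pow_le_pow_left (by omega) 2
  have h4 : 3 * (8 * B) ^ 2 ≤ 64 * (B * (4 * B - 2)) := by
    have : 3 * B ≤ 4 * B - 2 := by omega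
    calc 3 * (8 * B) ^ 2 = 64 * (B * (3 * B)) := by ring
      _ ≤ 64 * (B * (4 * B - 2)) := Nat.mul_le_mul_left _ (Nat.mul_le_mul_left _ this)
  calc 3 * n ^ 2 ≤ 3 * (8 * B) ^ 2 := Nat.mul_le_mul_left _ h3
    _ ≤ 64 * (B * (4 * B - 2)) := h4
    _ ≤ 64 * Psi s n := Nat.mul_le_mul_left _ hPsi

/-! ### The recursion -/

/-- exact control of the recursion -/
theorem recursion {s a l K : ℕ} (hl : 1 ≤ l) (hs : 4 * l + 2 * a - 1 ≤ s) (hK : 1 ≤ K)
    {μ : ℝ} (hμ1 : 1 ≤ μ) (hμ : μ * (K + 3) = lam a l * K) (t : ℕ) :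
    ∃ n T : ℕ, HasSys2 s n T ∧ 1 ≤ n ∧ 1 ≤ T ∧
      (n : ℝ) ≤ 2 * (2 ^ l * (3 * K + 4)) ^ t * (lam a l : ℝ) ^ (t * (t - 1) / 2) ∧
      μ ^ t * n ≤ 2 * T ∧ (T : ℝ) ≤ (lam a l : ℝ) ^ t * n := by
  have h4 := four_le_pow_mul a l
  have hlam : 2 ≤ lam a l := by unfold lam; omega
  have hlamR : (2 : ℝ) ≤ lam a l := by exact_mod_cast hlam
  induction t with
  | zero =>
    refine ⟨2, 1, hasSys2_two.mono (by omega), by norm_num, by norm_num, ?_, ?_, ?_⟩
    · norm_num
    · norm_num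
    · norm_num
  | succ t ih =>
    obtain ⟨n, T, hsys, hn, hT, hn2, hlow, hup⟩ := ih
    obtain ⟨R, hR⟩ : ∃ R, R = K * T / n + 1 := ⟨_, rfl⟩
    have hR1 : 1 ≤ R := by rw [hR]; exact Nat.le_add_left 1 _
    have hstep := hsys.step (a := a) (R := R) hl hs hR1
    have hKT1 : K * T < R * n := by
      rw [hR]
      have := Nat.lt_div_mul_add (a := K * T) (b := n) (by omega)
      rw [add_mul, one_mul]
      exact this
    have hKT2 : R * n ≤ K * T + n := by
      rw [hR, add_mul, one_mul]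
      have := Nat.div_mul_le_self (K * T) n
      omega
    have hnT : (n : ℝ) ≤ 2 * T := by
      have h1 : (1 : ℝ) ≤ μ ^ t := one_le_pow₀ hμ1
      have h2 : (0 : ℝ) ≤ n := Nat.cast_nonneg _
      nlinarith
    have hK1 : (K : ℝ) * T ≤ R * n := by exact_mod_cast hKT1.le
    have hK2 : (R : ℝ) * n ≤ K * T + n := by exact_mod_cast hKT2
    have hKR : (1 : ℝ) ≤ K := by exact_mod_cast hK
    have hTR : (1 : ℝ) ≤ T := by exact_mod_cast hT
    have hnR : (1 : ℝ) ≤ n := by exact_mod_cast hn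
    have hRR : (1 : ℝ) ≤ R := by exact_mod_cast hR1
    have hBR : (0 : ℝ) < 2 ^ l := by positivity
    refine ⟨_, _, hstep, ?_, ?_, ?_, ?_, ?_⟩
    · have : 1 ≤ R * 2 ^ l * n := Nat.mul_pos (Nat.mul_pos hR1 (by positivity)) hn
      omega
    · have : 0 < lam a l := by omega
      have : 0 < T * (R * (2 ^ l * lam a l)) := by positivity
      exact this
    · push_cast
      have h5 : (R : ℝ) * 2 ^ l * n + T * (2 * 2 ^ l) ≤ 2 ^ l * (3 * K + 4) * T := by
        have h6 : (R : ℝ) * n + 2 * T ≤ (3 * K + 4) * T := by nlinarith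
        calc (R : ℝ) * 2 ^ l * n + T * (2 * 2 ^ l) = 2 ^ l * (R * n + 2 * T) := by ring
          _ ≤ 2 ^ l * ((3 * K + 4) * T) := mul_le_mul_of_nonneg_left h6 hBR.le
          _ = 2 ^ l * (3 * K + 4) * T := by ring
      have e : (t + 1) * t / 2 = t * (t - 1) / 2 + t := by
        rcases t with _ | t
        · simp
        · rw [Nat.add_sub_cancel]
          have h7 : (t + 1 + 1) * (t + 1) = (t + 1) * t + (t + 1) * 2 := by ring
          rw [h7, Nat.add_mul_div_right _ _ (by norm_num)]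
      rw [e, pow_add (lam a l : ℝ)]
      set Γ : ℝ := 2 ^ l * (3 * K + 4) with hΓ
      have hΓ0 : 0 ≤ Γ := by positivity
      calc (R : ℝ) * 2 ^ l * n + T * (2 * 2 ^ l) ≤ Γ * T := h5
        _ ≤ Γ * ((lam a l : ℝ) ^ t * n) := mul_le_mul_of_nonneg_left hup hΓ0
        _ ≤ Γ * ((lam a l : ℝ) ^ t * (2 * Γ ^ t * (lam a l : ℝ) ^ (t * (t - 1) / 2))) := by
            refine mul_le_mul_of_nonneg_left ?_ hΓ0
            exact mul_le_mul_of_nonneg_left hn2 (by positivity)
        _ = 2 * Γ ^ (t + 1) * ((lam a l : ℝ) ^ (t * (t - 1) / 2) * (lam a l : ℝ) ^ t) := by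
            ring
    · push_cast
      -- μ^{t+1} (R n + 2 T) ≤ 2 λ R T
      have hKpos : (0 : ℝ) < K := by linarith
      have h6 : μ ^ t * (R * n + 2 * T) * K ≤ (μ ^ t * n) * R * (K + 2) := by
        have h7 : (2 * T : ℝ) * K ≤ 2 * (R * n) := by linarith
        have h8 : (0 : ℝ) ≤ μ ^ t := by positivity
        have h9 : (R * n + 2 * T : ℝ) * K ≤ (R * n) * (K + 2) := by nlinarith
        calc μ ^ t * (R * n + 2 * T) * K = μ ^ t * ((R * n + 2 * T) * K) := by ring
          _ ≤ μ ^ t * ((R * n) * (K + 2)) := mul_le_mul_of_nonneg_left h9 h8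
          _ = (μ ^ t * n) * R * (K + 2) := by ring
      have h7 : μ ^ t * (R * n + 2 * T) * K ≤ (2 * T) * R * (K + 3) := by
        have h8 : (μ ^ t * n) * R * (K + 2) ≤ (2 * T) * R * (K + 2) := by
          have : (0 : ℝ) ≤ R * (K + 2) := by positivity
          nlinarith
        have h9 : (2 * T : ℝ) * R * (K + 2) ≤ (2 * T) * R * (K + 3) := by
          have : (0 : ℝ) ≤ 2 * T * R := by positivity
          nlinarith
        linarith
      have h10 : μ ^ (t + 1) * (R * n + 2 * T) * K ≤ 2 * T * R * lam a l * K := by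
        have hμ0 : (0 : ℝ) ≤ μ := by linarith
        calc μ ^ (t + 1) * (R * n + 2 * T) * K = μ * (μ ^ t * (R * n + 2 * T) * K) := by ring
          _ ≤ μ * ((2 * T) * R * (K + 3)) := mul_le_mul_of_nonneg_left h7 hμ0
          _ = 2 * T * R * (μ * (K + 3)) := by ring
          _ = 2 * T * R * lam a l * K := by rw [hμ]; ring
      have h11 : μ ^ (t + 1) * (R * n + 2 * T) ≤ 2 * T * R * lam a l :=
        le_of_mul_le_mul_right h10 hKpos
      calc μ ^ (t + 1) * ((R : ℝ) * 2 ^ l * n + T * (2 * 2 ^ l)) =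
          2 ^ l * (μ ^ (t + 1) * (R * n + 2 * T)) := by ring
        _ ≤ 2 ^ l * (2 * T * R * lam a l) := mul_le_mul_of_nonneg_left h11 hBR.le
        _ = 2 * (T * (R * (2 ^ l * lam a l))) := by ring
    · push_cast
      have hl0 : (0 : ℝ) ≤ lam a l := by linarith
      have h6 : (T : ℝ) * (R * (2 ^ l * lam a l)) ≤
          (lam a l : ℝ) ^ t * n * (R * (2 ^ l * lam a l)) :=
        mul_le_mul_of_nonneg_right hup (by positivity)
      have h7 : (lam a l : ℝ) ^ t * n * (R * (2 ^ l * lam a l)) =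
          (lam a l : ℝ) ^ (t + 1) * (R * 2 ^ l * n) := by ring
      have h8 : (lam a l : ℝ) ^ (t + 1) * (R * 2 ^ l * n) ≤
          (lam a l : ℝ) ^ (t + 1) * (R * 2 ^ l * n + T * (2 * 2 ^ l)) := by
        refine mul_le_mul_of_nonneg_left ?_ (by positivity)
        have : (0 : ℝ) ≤ T * (2 * 2 ^ l) := by positivity
        linarith
      linarith

/-- **The bound for all large `M`.** -/
theorem main_core {s a l K : ℕ} (hl : 1 ≤ l) (hs : 4 * l + 2 * a - 1 ≤ s) (hK : 1 ≤ K)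
    {μ : ℝ} (hμ1 : 1 ≤ μ) (hμ : μ * (K + 3) = lam a l * K) (t M : ℕ)
    (hM : 2 * (2 ^ l * (3 * K + 4)) ^ (t + 1) * (lam a l : ℝ) ^ ((t + 1) * t / 2) ≤ M) :
    (M : ℝ) * μ ^ (t + 1) ≤ 2 * Psi s M := by
  obtain ⟨n, T, hsys, hn, hT, hn2, hlow, hup⟩ := recursion hl hs hK hμ1 hμ t
  have h4 := four_le_pow_mul a l
  have hlam : 2 ≤ lam a l := by unfold lam; omega
  have hlamR : (2 : ℝ) ≤ lam a l := by exact_mod_cast hlam
  have hKR : (1 : ℝ) ≤ K := by exact_mod_cast hK
  have hTR : (1 : ℝ) ≤ T := by exact_mod_cast hT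
  have hnR : (1 : ℝ) ≤ n := by exact_mod_cast hn
  have hnT : (n : ℝ) ≤ 2 * T := by
    have h1 : (1 : ℝ) ≤ μ ^ t := one_le_pow₀ hμ1
    have h2 : (0 : ℝ) ≤ n := Nat.cast_nonneg _
    nlinarith
  obtain ⟨B, hB⟩ : ∃ B, B = 2 ^ l := ⟨_, rfl⟩
  have hBpos : 0 < B := by rw [hB]; positivity
  have hBR : (1 : ℝ) ≤ B := by exact_mod_cast hBpos
  have hBc : (2 : ℝ) ^ l = B := by rw [hB]; push_cast; rfl
  -- M ≥ B (3K+4) T
  have hMT : ((B * (3 * K + 4) * T : ℕ) : ℝ) ≤ M := by
    push_cast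
    refine le_trans ?_ hM
    have e : (t + 1) * t / 2 = t * (t - 1) / 2 + t := by
      rcases t with _ | t
      · simp
      · rw [Nat.add_sub_cancel]
        have h7 : (t + 1 + 1) * (t + 1) = (t + 1) * t + (t + 1) * 2 := by ring
        rw [h7, Nat.add_mul_div_right _ _ (by norm_num)]
    rw [e, pow_add (lam a l : ℝ)]
    rw [hBc] at hn2 ⊢
    set Γ : ℝ := B * (3 * K + 4) with hΓ
    have hΓ0 : 0 ≤ Γ := by positivity
    calc Γ * T ≤ Γ * ((lam a l : ℝ) ^ t * n) := mul_le_mul_of_nonneg_left hup hΓ0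
      _ ≤ Γ * ((lam a l : ℝ) ^ t * (2 * Γ ^ t * (lam a l : ℝ) ^ (t * (t - 1) / 2))) := by
          refine mul_le_mul_of_nonneg_left ?_ hΓ0
          exact mul_le_mul_of_nonneg_left hn2 (by positivity)
      _ = 2 * Γ ^ (t + 1) * ((lam a l : ℝ) ^ (t * (t - 1) / 2) * (lam a l : ℝ) ^ t) := by
          ring
  have hMT' : B * (3 * K + 4) * T ≤ M := by exact_mod_cast hMT
  obtain ⟨R, hR⟩ : ∃ R, R = (M - 2 * B * T) / (B * n) := ⟨_, rfl⟩
  have hBn : 0 < B * n := Nat.mul_pos hBpos hn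
  have hle2 : 2 * B * T ≤ M := by
    have : 2 * B * T ≤ B * (3 * K + 4) * T := by
      refine Nat.mul_le_mul_right _ ?_
      nlinarith
    omega
  have hR1 : R * (B * n) + 2 * B * T ≤ M := by
    have := Nat.div_mul_le_self (M - 2 * B * T) (B * n)
    rw [← hR] at this
    omega
  have hR2 : M < (R + 1) * (B * n) + 2 * B * T := by
    have := Nat.lt_div_mul_add (a := M - 2 * B * T) (b := B * n) hBn
    rw [← hR] at this
    rw [add_mul, one_mul]
    omega
  have hR1' : (R : ℝ) * (B * n) + 2 * B * T ≤ M := by exact_mod_cast hR1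
  have hR2' : (M : ℝ) < (R + 1) * (B * n) + 2 * B * T := by exact_mod_cast hR2
  -- (R+1) n > (3K+2) T
  have hB0 : (0 : ℝ) < B := by linarith
  have h5 : (3 * (K : ℝ) + 2) * T < (R + 1) * n := by
    have h6 : (B : ℝ) * ((3 * K + 2) * T) < B * ((R + 1) * n) := by
      push_cast at hMT
      nlinarith
    exact lt_of_mul_lt_mul_left h6 hB0.le
  have hRn : (K : ℝ) * T ≤ R * n := by nlinarith
  have hRK : (K : ℝ) ≤ R := by
    by_contra hcon
    push Not at hcon
    have hcon' : R + 1 ≤ K := by exact_mod_cast hcon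
    have h7 : (R : ℝ) + 1 ≤ K := by exact_mod_cast hcon'
    nlinarith
  have hRpos : 1 ≤ R := by
    have : (1 : ℝ) ≤ R := by linarith
    exact_mod_cast this
  have hstep := hsys.step (a := a) (R := R) hl hs hRpos
  rw [← hB] at hstep
  have hT'pos : 0 < T * (R * (B * lam a l)) := by
    have : 0 < lam a l := by omega
    positivity
  have hle : R * B * n + T * (2 * B) ≤ M := by
    have : R * B * n + T * (2 * B) = R * (B * n) + 2 * B * T := by ring
    omega
  have hPsi := (hstep.le (by omega) hT'pos hle).Psi_le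
  have hPsi' : (T : ℝ) * (R * (B * lam a l)) ≤ Psi s M := by exact_mod_cast hPsi
  have hKpos : (0 : ℝ) < K := by linarith
  have hRR : (1 : ℝ) ≤ R := by exact_mod_cast hRpos
  have hμ0 : (0 : ℝ) ≤ μ := by linarith
  -- main computation
  have h8 : ((R + 1) * n + 2 * T : ℝ) * K ≤ (R * n) * (K + 3) := by nlinarith
  have h9 : μ ^ t * ((R + 1) * n + 2 * T) * K ≤ (2 * T) * R * (K + 3) := by
    have h10 : (0 : ℝ) ≤ μ ^ t := by positivity
    calc μ ^ t * ((R + 1) * n + 2 * T) * K = μ ^ t * (((R + 1) * n + 2 * T) * K) := by ring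
      _ ≤ μ ^ t * ((R * n) * (K + 3)) := mul_le_mul_of_nonneg_left h8 h10
      _ = (μ ^ t * n) * (R * (K + 3)) := by ring
      _ ≤ (2 * T) * (R * (K + 3)) := mul_le_mul_of_nonneg_right hlow (by positivity)
      _ = (2 * T) * R * (K + 3) := by ring
  have h10 : μ ^ (t + 1) * ((R + 1) * n + 2 * T) ≤ 2 * T * R * lam a l := by
    refine le_of_mul_le_mul_right ?_ hKpos
    calc μ ^ (t + 1) * ((R + 1) * n + 2 * T) * K =
        μ * (μ ^ t * ((R + 1) * n + 2 * T) * K) := by ring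
      _ ≤ μ * ((2 * T) * R * (K + 3)) := mul_le_mul_of_nonneg_left h9 hμ0
      _ = 2 * T * R * (μ * (K + 3)) := by ring
      _ = 2 * T * R * lam a l * K := by rw [hμ]; ring
  calc (M : ℝ) * μ ^ (t + 1) ≤ ((R + 1) * (B * n) + 2 * B * T) * μ ^ (t + 1) :=
        mul_le_mul_of_nonneg_right hR2'.le (by positivity)
    _ = B * (μ ^ (t + 1) * ((R + 1) * n + 2 * T)) := by ring
    _ ≤ B * (2 * T * R * lam a l) := mul_le_mul_of_nonneg_left h10 hB0.le
    _ = 2 * (T * (R * (B * lam a l))) := by ring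
    _ ≤ 2 * Psi s M := by linarith

end LevelLower
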