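import Mathlib

/-!
# Alternation certificates

Bookkeeping for the number of sign alternations of an integer sequence.
-/

namespace LevelLower

/-- A certificate that the signs of `f` along the list can be assigned to phases
`a ≤ ... ≤ b`, where in phase `q` the values have sign `(-1)^q` or vanish. -/
inductive AC {α : Type*} (f : α → ℤ) : ℕ → ℕ → List α → Prop
  | nil {a b : ℕ} (h : a ≤ b) : AC f a b []
  | cons {a a' b : ℕ} {x : α} {L : List α} (h : a ≤ a') (hx : 0 ≤ (-1) ^ a' * f x)
      (hL : AC f a' b L) : AC f a b (x :: L)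

/-- Certificates exist from every starting phase, with at most `s` phase changes
(counting a possible initial one). -/
def AL {α : Type*} (f : α → ℤ) (s : ℕ) (L : List α) : Prop := ∀ a, AC f a (a + s) L

variable {α β : Type*} {f : α → ℤ}

theorem AC.le {a b : ℕ} {L : List α} (h : AC f a b L) : a ≤ b := by
  induction h with
  | nil h => exact h
  | cons h _ _ ih => exact h.trans ih

theorem AC.mono_left {a a₀ b : ℕ} {L : List α} (h : AC f a b L) (h0 : a₀ ≤ a) : AC f a₀ b L := by
  cases h with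
  | nil h => exact .nil (h0.trans h)
  | cons h hx hL => exact .cons (h0.trans h) hx hL

theorem AC.mono_right {a b b' : ℕ} {L : List α} (h : AC f a b L) (h0 : b ≤ b') :
    AC f a b' L := by
  induction h with
  | nil h => exact .nil (h.trans h0)
  | cons h hx _ ih => exact .cons h hx (ih h0)

theorem AC.append {a b c : ℕ} {L M : List α} (h : AC f a b L) (h' : AC f b c M) :
    AC f a c (L ++ M) := by
  induction h with
  | nil h => exact h'.mono_left h
  | cons h hx _ ih => exact .cons h hx (ih h')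

theorem AC.const {a q b : ℕ} {L : List α} (h1 : a ≤ q) (h2 : q ≤ b)
    (h : ∀ x ∈ L, 0 ≤ (-1) ^ q * f x) : AC f a b L := by
  induction L generalizing a with
  | nil => exact .nil (h1.trans h2)
  | cons x L ih =>
    refine .cons h1 (h x (by simp)) (ih le_rfl (fun y hy => h y (by simp [hy])))

theorem AL.append {s t : ℕ} {L M : List α} (h : AL f s L) (h' : AL f t M) :
    AL f (s + t) (L ++ M) := by
  intro a
  have := (h a).append (h' (a + s))
  rwa [add_assoc] at this

theorem AL.mono {s t : ℕ} {L : List α} (h : AL f s L) (hst : s ≤ t) : AL f t L :=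
  fun a => (h a).mono_right (by omega)

theorem AL.of_nonneg {L : List α} (h : ∀ x ∈ L, 0 ≤ f x) : AL f 1 L := by
  intro a
  rcases Nat.even_or_odd a with ha | ha
  · exact AC.const le_rfl (by omega) (fun x hx => by simpa [ha.neg_one_pow] using h x hx)
  · have ha' : Even (a + 1) := ha.add_one
    exact AC.const (q := a + 1) (by omega) le_rfl
      (fun x hx => by rw [ha'.neg_one_pow, one_mul]; exact h x hx)

theorem AL.of_nonpos {L : List α} (h : ∀ x ∈ L, f x ≤ 0) : AL f 1 L := by
  intro a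
  rcases Nat.even_or_odd a with ha | ha
  · have ha' : Odd (a + 1) := ha.add_one
    exact AC.const (q := a + 1) (by omega) le_rfl
      (fun x hx => by rw [ha'.neg_one_pow]; have := h x hx; omega)
  · exact AC.const le_rfl (by omega)
      (fun x hx => by rw [ha.neg_one_pow]; have := h x hx; omega)

/-- every list of length `n` has a certificate with `n` phase changes -/
theorem AL.length (L : List α) : AL f L.length L := by
  induction L with
  | nil => intro a; exact .nil le_rfl
  | cons x L ih =>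
    have h1 : AL f 1 [x] := by
      rcases le_total 0 (f x) with h | h
      · exact AL.of_nonneg (by simpa using h)
      · exact AL.of_nonpos (by simpa using h)
    have := h1.append ih
    simp only [List.singleton_append] at this
    exact this.mono (by simp; omega)

theorem AC.of_antitone {a : ℕ} (ha : Even a) {L : List α}
    (h : L.Pairwise (fun x y => f y ≤ f x)) : AC f a (a + 1) L := by
  induction L with
  | nil => exact .nil (by omega)
  | cons x L ih =>
    rw [List.pairwise_cons] at h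
    rcases le_total 0 (f x) with hx | hx
    · exact .cons le_rfl (by rw [ha.neg_one_pow, one_mul]; exact hx) (ih h.2)
    · refine AC.const (q := a + 1) (by omega) le_rfl ?_
      intro y hy
      rw [ha.add_one.neg_one_pow]
      rcases List.mem_cons.1 hy with rfl | hy
      · omega
      · have := h.1 y hy
        omega

/-- a sequence going down once has a certificate with two phase changes -/
theorem AL.of_antitone {L : List α} (h : L.Pairwise (fun x y => f y ≤ f x)) : AL f 2 L := by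
  intro a
  rcases Nat.even_or_odd a with ha | ha
  · exact (AC.of_antitone ha h).mono_right (by omega)
  · exact (AC.of_antitone ha.add_one h).mono_left (by omega)

theorem AC.congr {g : α → ℤ} {a b : ℕ} {L : List α} (h : AC f a b L)
    (hfg : ∀ x ∈ L, g x = f x) : AC g a b L := by
  induction h with
  | nil h => exact .nil h
  | cons h hx _ ih =>
    refine .cons h (by rwa [hfg _ (by simp)]) (ih (fun y hy => hfg y (by simp [hy])))

theorem AC.map {h : β → α} {a b : ℕ} {L : List β} (hc : AC (fun x => f (h x)) a b L) :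
    AC f a b (L.map h) := by
  induction hc with
  | nil h => exact .nil h
  | cons h hx _ ih => exact .cons h hx ih

theorem AC.of_map {h : β → α} {a b : ℕ} {L : List β} (hc : AC f a b (L.map h)) :
    AC (fun x => f (h x)) a b L := by
  induction L generalizing a with
  | nil => cases hc with
    | nil h => exact .nil h
  | cons x L ih =>
    simp only [List.map_cons] at hc
    cases hc with
    | cons h hx hL => exact .cons h hx (ih hL)

theorem AC.neg {a b : ℕ} {L : List α} (h : AC f (a + 1) (b + 1) L) :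
    AC (fun x => - f x) a b L := by
  induction L generalizing a with
  | nil => exact .nil (by have := h.le; omega)
  | cons x L ih =>
    cases h with
    | @cons _ a' _ _ _ h hx hL =>
      obtain ⟨a'', rfl⟩ : ∃ a'', a' = a'' + 1 := ⟨a' - 1, by omega⟩
      refine .cons (by omega) ?_ (ih hL)
      rw [pow_succ] at hx
      have e : (-1 : ℤ) ^ a'' * (- f x) = (-1) ^ a'' * (-1) * f x := by ring
      rw [e]
      exact hx

theorem AL.neg {s : ℕ} {L : List α} (h : AL f s L) : AL (fun x => - f x) s L := by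
  intro a
  apply AC.neg
  have := h (a + 1)
  rwa [show a + 1 + s = a + s + 1 by ring] at this

/-- Phase functions on an interval of times. -/
def Ph (f : ℕ → ℤ) (t₀ t₁ a b : ℕ) : Prop :=
  ∃ φ : ℕ → ℕ, Monotone φ ∧ (∀ t, a ≤ φ t ∧ φ t ≤ b) ∧
    ∀ t, t₀ ≤ t → t < t₁ → 0 ≤ (-1) ^ (φ t) * f t

theorem Ph.le {f : ℕ → ℤ} {t₀ t₁ a b : ℕ} (h : Ph f t₀ t₁ a b) : a ≤ b := by
  obtain ⟨φ, _, h2, _⟩ := h
  exact (h2 0).1.trans (h2 0).2

theorem Ph.mono {f : ℕ → ℤ} {t₀ t₁ a b a' b' : ℕ} (h : Ph f t₀ t₁ a b) (ha : a' ≤ a)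
    (hb : b ≤ b') : Ph f t₀ t₁ a' b' := by
  obtain ⟨φ, h1, h2, h3⟩ := h
  exact ⟨φ, h1, fun t => ⟨ha.trans (h2 t).1, (h2 t).2.trans hb⟩, h3⟩

theorem Ph.sub {f : ℕ → ℤ} {t₀ t₁ t₀' t₁' a b : ℕ} (h : Ph f t₀ t₁ a b) (h0 : t₀ ≤ t₀')
    (h1 : t₁' ≤ t₁) : Ph f t₀' t₁' a b := by
  obtain ⟨φ, h1', h2, h3⟩ := h
  exact ⟨φ, h1', h2, fun t ht ht' => h3 t (h0.trans ht) (ht'.trans_le h1)⟩

theorem Ph.congr {f g : ℕ → ℤ} {t₀ t₁ a b : ℕ} (h : Ph f t₀ t₁ a b)
    (hfg : ∀ t, t₀ ≤ t → t < t₁ → g t = f t) : Ph g t₀ t₁ a b := by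
  obtain ⟨φ, h1, h2, h3⟩ := h
  exact ⟨φ, h1, h2, fun t ht ht' => by rw [hfg t ht ht']; exact h3 t ht ht'⟩

theorem Ph.trans {f : ℕ → ℤ} {t₀ t₁ t₂ a b c : ℕ} (h : Ph f t₀ t₁ a b) (h' : Ph f t₁ t₂ b c) :
    Ph f t₀ t₂ a c := by
  obtain ⟨φ, h1, h2, h3⟩ := h
  obtain ⟨ψ, k1, k2, k3⟩ := h'
  refine ⟨fun t => if t < t₁ then φ t else ψ t, ?_, ?_, ?_⟩
  · intro t t' htt
    by_cases ht' : t' < t₁
    · have ht : t < t₁ := lt_of_le_of_lt htt ht'
      simpa [ht, ht'] using h1 htt
    · by_cases ht : t < t₁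
      · simpa [ht, ht'] using (h2 t).2.trans (k2 t').1
      · simpa [ht, ht'] using k1 htt
  · intro t
    by_cases ht : t < t₁
    · have := h2 t
      have := k2 t
      simp only [ht, if_true]
      omega
    · have := h2 t
      have := k2 t
      simp only [ht, if_false]
      omega
  · intro t ht ht'
    by_cases h : t < t₁
    · simp only [h, if_true]; exact h3 t ht h
    · simp only [h, if_false]; exact k3 t (by omega) ht'

theorem Ph.const {f : ℕ → ℤ} {t₀ t₁ a q b : ℕ} (h1 : a ≤ q) (h2 : q ≤ b)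
    (h : ∀ t, t₀ ≤ t → t < t₁ → 0 ≤ (-1) ^ q * f t) : Ph f t₀ t₁ a b :=
  ⟨fun _ => q, monotone_const, fun _ => ⟨h1, h2⟩, h⟩

theorem Ph.shift {f g : ℕ → ℤ} {t₀ N a b : ℕ} (h : Ph g 0 N a b)
    (hfg : ∀ p < N, f (t₀ + p) = g p) : Ph f t₀ (t₀ + N) a b := by
  obtain ⟨φ, h1, h2, h3⟩ := h
  refine ⟨fun t => φ (t - t₀), ?_, fun t => h2 _, ?_⟩
  · intro t t' htt
    exact h1 (by omega)
  · intro t ht ht'
    have := h3 (t - t₀) (by omega) (by omega)
    rw [← hfg (t - t₀) (by omega)] at this
    rwa [show t₀ + (t - t₀) = t by omega] at this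

theorem Ph.neg {f : ℕ → ℤ} {t₀ t₁ a b : ℕ} (h : Ph f t₀ t₁ (a + 1) (b + 1)) :
    Ph (fun t => - f t) t₀ t₁ a b := by
  obtain ⟨φ, h1, h2, h3⟩ := h
  refine ⟨fun t => φ t - 1, ?_, ?_, ?_⟩
  · intro t t' htt
    have := h1 htt
    dsimp only
    omega
  · intro t
    have := h2 t
    dsimp only
    omega
  · intro t ht ht'
    have h := h3 t ht ht'
    have h4 := h2 t
    obtain ⟨q, hq⟩ : ∃ q, φ t = q + 1 := ⟨φ t - 1, by omega⟩
    dsimp only
    rw [hq] at h ⊢
    rw [pow_succ] at h
    have e : (-1 : ℤ) ^ (q + 1 - 1) * (- f t) = (-1) ^ q * (-1) * f t := by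
      simp
    rw [e]
    exact h

/-- certificates from every starting phase on an interval of times -/
def PL (f : ℕ → ℤ) (t₀ t₁ s : ℕ) : Prop := ∀ a, Ph f t₀ t₁ a (a + s)

theorem PL.neg {f : ℕ → ℤ} {t₀ t₁ s : ℕ} (h : PL f t₀ t₁ s) : PL (fun t => - f t) t₀ t₁ s := by
  intro a
  apply Ph.neg
  have := h (a + 1)
  rwa [show a + 1 + s = a + s + 1 by ring] at this

theorem PL.mono {f : ℕ → ℤ} {t₀ t₁ s s' : ℕ} (h : PL f t₀ t₁ s) (hs : s ≤ s') :
    PL f t₀ t₁ s' := fun a => (h a).mono le_rfl (by omega)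

theorem PL.congr {f g : ℕ → ℤ} {t₀ t₁ s : ℕ} (h : PL f t₀ t₁ s)
    (hfg : ∀ t, t₀ ≤ t → t < t₁ → g t = f t) : PL g t₀ t₁ s := fun a => (h a).congr hfg

theorem PL.trans {f : ℕ → ℤ} {t₀ t₁ t₂ s s' : ℕ} (h : PL f t₀ t₁ s) (h' : PL f t₁ t₂ s') :
    PL f t₀ t₂ (s + s') := by
  intro a
  have := (h a).trans (h' (a + s))
  rwa [add_assoc] at this

theorem PL.of_nonneg {f : ℕ → ℤ} {t₀ t₁ : ℕ} (h : ∀ t, t₀ ≤ t → t < t₁ → 0 ≤ f t) :
    PL f t₀ t₁ 1 := by
  intro a
  rcases Nat.even_or_odd a with ha | ha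
  · exact Ph.const le_rfl (by omega)
      (fun t ht ht' => by rw [ha.neg_one_pow, one_mul]; exact h t ht ht')
  · exact Ph.const (q := a + 1) (by omega) le_rfl
      (fun t ht ht' => by rw [ha.add_one.neg_one_pow, one_mul]; exact h t ht ht')

theorem PL.of_nonpos {f : ℕ → ℤ} {t₀ t₁ : ℕ} (h : ∀ t, t₀ ≤ t → t < t₁ → f t ≤ 0) :
    PL f t₀ t₁ 1 := by
  have h' : PL (fun t => - f t) t₀ t₁ 1 :=
    PL.of_nonneg (fun t ht ht' => by have := h t ht ht'; omega)
  have := h'.neg
  simpa using this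

/-- from lists to phase functions -/
theorem AC.phase {g : α → ℤ} {a b : ℕ} {L : List α} (h : AC g a b L) :
    ∃ φ : ℕ → ℕ, Monotone φ ∧ (∀ t, a ≤ φ t ∧ φ t ≤ b) ∧
      ∀ (t : ℕ) (ht : t < L.length), 0 ≤ (-1) ^ (φ t) * g (L[t]) := by
  induction h with
  | @nil a b h =>
    exact ⟨fun _ => a, monotone_const, fun _ => ⟨le_rfl, h⟩, fun t ht => by simp at ht⟩
  | @cons a a' b x L h hx hL ih =>
    obtain ⟨φ, h1, h2, h3⟩ := ih
    refine ⟨fun t => if t = 0 then a' else φ (t - 1), ?_, ?_, ?_⟩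
    · intro t t' htt
      dsimp only
      by_cases ht : t = 0
      · by_cases ht' : t' = 0
        · simp [ht, ht']
        · simp only [ht, if_true, ht', if_false]
          exact (h2 _).1
      · have ht' : t' ≠ 0 := by omega
        simp only [ht, ht', if_false]
        exact h1 (by omega)
    · intro t
      dsimp only
      by_cases ht : t = 0
      · simp only [ht, if_true]
        exact ⟨h, hL.le⟩
      · simp only [ht, if_false]
        exact ⟨h.trans (h2 _).1, (h2 _).2⟩
    · intro t ht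
      cases t with
      | zero => simpa using hx
      | succ t =>
        have := h3 t (by simpa using ht)
        simpa using this

theorem AL.toPL {g : α → ℤ} {s : ℕ} {L : List α} (h : AL g s L) {f : ℕ → ℤ}
    (hf : ∀ (t : ℕ) (ht : t < L.length), f t = g (L[t])) : PL f 0 L.length s := by
  intro a
  obtain ⟨φ, h1, h2, h3⟩ := (h a).phase
  exact ⟨φ, h1, h2, fun t _ ht' => by rw [hf t ht']; exact h3 t ht'⟩

end LevelLower
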