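import Pool.Agent.LevelLower.Sys2

/-!
# Composition of an exchange system with the block exchange gadget (windows version)
-/

namespace LevelLower

section comp

variable {C : Type} [DecidableEq C] {s T B r N c : ℕ}

/-- the thresholds of all chains in block `e` at inner time `p` -/
def Th2 (x : ℕ → C → ℤ) (up dn : ℕ → C) (g : Gadget2 B r N c) (e p : ℕ) : C ⊕ Fin T → ℕ
  | .inl c => if e < T ∧ c = up e then g.u p else if e < T ∧ c = dn e then r - g.m p
      else if x e c = 1 then r else 0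
  | .inr e' => if (e' : ℕ) = e then B + g.m p - g.u p else B

/-- the chain sizes -/
def sz2 (C : Type) (T B r : ℕ) : C ⊕ Fin T → ℕ := Sum.elim (fun _ => r) (fun _ => 2 * B)

/-- the curves of the composed system -/
abbrev CC (C : Type) (T B r : ℕ) : Type := Σ d : C ⊕ Fin T, Fin (sz2 C T B r d)

/-- the statuses of the composed system -/
def xx2 (T : ℕ) (x : ℕ → C → ℤ) (up dn : ℕ → C) (g : Gadget2 B r N c) (t : ℕ) :
    CC C T B r → ℤ :=
  st2 (Th2 x up dn g (t / N) (t % N))

/-- the windows of the composed system -/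
def ww (T B r N : ℕ) (w : Win C) (L : ℕ) : Win (CC C T B r) where
  lo := fun d => match d.1 with
    | .inl c => w.lo c * N
    | .inr e => e * N
  hi := fun d => match d.1 with
    | .inl c => w.hi c * N
    | .inr e => e * N + N
  rk := fun d => match d.1 with
    | .inl c => w.rk c
    | .inr _ => L

/-- the exchange data of the base system -/
def ExData (T : ℕ) (w : Win C) (x : ℕ → C → ℤ) (up dn : ℕ → C) : Prop :=
  ∀ t < T, (w.lo (up t) ≤ t ∧ t + 1 ≤ w.hi (up t)) ∧ (w.lo (dn t) ≤ t ∧ t + 1 ≤ w.hi (dn t)) ∧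
    x t (up t) = 0 ∧ x (t + 1) (up t) = 1 ∧ x t (dn t) = 1 ∧
      x (t + 1) (dn t) = 0 ∧ ∀ c, c ≠ up t → c ≠ dn t → x (t + 1) c = x t c

variable {x : ℕ → C → ℤ} {up dn : ℕ → C} {g : Gadget2 B r N c} {w : Win C} {L : ℕ}

theorem Th2_zero (hex : ExData T w x up dn) (e : ℕ) (c : C) :
    Th2 (T := T) x up dn g e 0 (.inl c) = if x e c = 1 then r else 0 := by
  unfold Th2
  dsimp only
  by_cases hc : e < T ∧ c = up e
  · rw [if_pos hc, g.u0]
    have := (hex e hc.1).2.2.1
    rw [hc.2, this]
    simp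
  · rw [if_neg hc]
    by_cases hc' : e < T ∧ c = dn e
    · rw [if_pos hc', g.m0]
      have := (hex e hc'.1).2.2.2.2.1
      rw [hc'.2, this]
      simp
    · rw [if_neg hc']

theorem Th2_next (hex : ExData T w x up dn) {e : ℕ} (he : e < T) :
    Th2 (T := T) x up dn g (e + 1) 0 = Th2 x up dn g e N := by
  obtain ⟨-, -, h1, h2, h3, h4, h5⟩ := hex e he
  funext d
  rcases d with c | e'
  · rw [Th2_zero hex]
    have hud : dn e ≠ up e := by
      intro h
      rw [h] at h3
      omega
    by_cases hc : c = up e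
    · subst hc
      have : Th2 (T := T) x up dn g e N (.inl (up e)) = r := by
        simp [Th2, he, g.uN]
      rw [this, h2, if_pos rfl]
    · by_cases hc' : c = dn e
      · subst hc'
        have : Th2 (T := T) x up dn g e N (.inl (dn e)) = 0 := by
          simp [Th2, he, hud, g.mN]
        rw [this, h4]
        simp
      · have : Th2 (T := T) x up dn g e N (.inl c) = if x e c = 1 then r else 0 := by
          simp [Th2, hc, hc']
        rw [this, h5 c hc hc']
  · unfold Th2
    dsimp only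
    rw [g.u0, g.m0, g.uN, g.mN]
    split_ifs <;> omega

theorem xx2_at (hN : 0 < N) (hex : ExData T w x up dn) {e p : ℕ} (he : e < T) (hp : p ≤ N) :
    xx2 T x up dn g (e * N + p) = st2 (Th2 x up dn g e p) := by
  unfold xx2
  rcases hp.lt_or_eq with h | h
  · have e1 : (e * N + p) / N = e := by
      rw [mul_comm, Nat.mul_add_div hN, Nat.div_eq_of_lt h, add_zero]
    have e2 : (e * N + p) % N = p := by
      rw [mul_comm, Nat.mul_add_mod, Nat.mod_eq_of_lt h]
    rw [e1, e2]
  · rw [h]
    have e1 : (e * N + N) / N = e + 1 := by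
      rw [show e * N + N = (e + 1) * N by ring, Nat.mul_div_cancel _ hN]
    have e2 : (e * N + N) % N = 0 := by
      rw [show e * N + N = (e + 1) * N by ring, Nat.mul_mod_left]
    rw [e1, e2, Th2_next hex he]

theorem vl_base (v : ℤ) (hv : v = 0 ∨ v = 1) (i : Fin r) :
    vl i (if v = 1 then r else 0) = v := by
  rcases hv with rfl | rfl
  · simp [vl]
  · simp [vl]

/-- base curves at block boundaries -/
theorem xx2_base (hN : 0 < N) (h01 : ∀ t c, x t c = 0 ∨ x t c = 1) (hex : ExData T w x up dn)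
    (e : ℕ) (c : C) (i : Fin (sz2 C T B r (.inl c))) :
    xx2 T x up dn g (e * N) ⟨.inl c, i⟩ = x e c := by
  unfold xx2 st2
  dsimp only
  rw [Nat.mul_div_cancel _ hN, Nat.mul_mod_left, Th2_zero hex]
  exact vl_base _ (h01 e c) i

theorem xx2_or (t : ℕ) (c : CC C T B r) :
    xx2 T x up dn g t c = 0 ∨ xx2 T x up dn g t c = 1 := vl_or _ _

theorem xx2_helper_on (hN : 0 < N) (hex : ExData T w x up dn)
    (e' : Fin T) {p : ℕ} (hp : p ≤ N) (k : Fin (sz2 C T B r (.inr e'))) :
    xx2 T x up dn g (e' * N + p) ⟨.inr e', k⟩ = vl k (B + g.m p - g.u p) := by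
  rw [xx2_at hN hex e'.2 hp]
  unfold st2 Th2
  dsimp only
  rw [if_pos rfl]

theorem xx2_up (hN : 0 < N) (hex : ExData T w x up dn)
    {e p : ℕ} (he : e < T) (hp : p ≤ N) {c : C} (hc : c = up e)
    (i : Fin (sz2 C T B r (.inl c))) :
    xx2 T x up dn g (e * N + p) ⟨.inl c, i⟩ = vl i (g.u p) := by
  rw [xx2_at hN hex he hp]
  unfold st2 Th2
  dsimp only
  rw [if_pos ⟨he, hc⟩]

theorem xx2_dn (hN : 0 < N) (hex : ExData T w x up dn)
    {e p : ℕ} (he : e < T) (hp : p ≤ N) {c : C} (hc : c = dn e)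
    (i : Fin (sz2 C T B r (.inl c))) :
    xx2 T x up dn g (e * N + p) ⟨.inl c, i⟩ = vl i (r - g.m p) := by
  have hne : c ≠ up e := by
    rintro rfl
    obtain ⟨-, -, h1, _, h3, _⟩ := hex e he
    rw [← hc] at h3
    omega
  rw [xx2_at hN hex he hp]
  unfold st2 Th2
  dsimp only
  rw [if_neg (fun h => hne h.2), if_pos ⟨he, hc⟩]

theorem xx2_other (hN : 0 < N) (h01 : ∀ t c, x t c = 0 ∨ x t c = 1)
    (hex : ExData T w x up dn)
    {e p : ℕ} (he : e < T) (hp : p ≤ N) {c : C} (h1 : c ≠ up e) (h2 : c ≠ dn e)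
    (i : Fin (sz2 C T B r (.inl c))) :
    xx2 T x up dn g (e * N + p) ⟨.inl c, i⟩ = x e c := by
  rw [xx2_at hN hex he hp]
  unfold st2 Th2
  dsimp only
  rw [if_neg (fun h => h1 h.2), if_neg (fun h => h2 h.2)]
  exact vl_base _ (h01 e c) i

/-- the exchange property of the composed system -/
theorem xx2_exch (hN : 0 < N) (hex : ExData T w x up dn) (t : ℕ) (ht : t < T * N) :
    ∃ a b, ((ww T B r N w L).lo a ≤ t ∧ t + 1 ≤ (ww T B r N w L).hi a) ∧
      ((ww T B r N w L).lo b ≤ t ∧ t + 1 ≤ (ww T B r N w L).hi b) ∧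
      xx2 T x up dn g t a = 0 ∧ xx2 T x up dn g (t + 1) a = 1 ∧
      xx2 T x up dn g t b = 1 ∧ xx2 T x up dn g (t + 1) b = 0 ∧
      ∀ d, d ≠ a → d ≠ b → xx2 T x up dn g (t + 1) d = xx2 T x up dn g t d := by
  obtain ⟨e, p, he, hp, rfl⟩ : ∃ e p, e < T ∧ p < N ∧ t = e * N + p :=
    ⟨t / N, t % N, (Nat.div_lt_iff_lt_mul hN).2 ht, Nat.mod_lt _ hN,
      (Nat.div_add_mod' t N).symm⟩
  rw [add_assoc, xx2_at hN hex he hp.le, xx2_at hN hex he (by omega : p + 1 ≤ N)]
  obtain ⟨⟨l1, l2⟩, ⟨l3, l4⟩, h1, h2, h3, h4, h5⟩ := hex e he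
  have hud : up e ≠ dn e := by
    intro h
    rw [h] at h1
    omega
  have hdu : dn e ≠ up e := hud.symm
  -- windows
  have wu : ∀ d : CC C T B r, d.1 = .inl (up e) →
      ((ww T B r N w L).lo d ≤ e * N + p ∧ e * N + (p + 1) ≤ (ww T B r N w L).hi d) := by
    rintro ⟨d, i⟩ hd
    dsimp only at hd
    subst hd
    change w.lo (up e) * N ≤ e * N + p ∧ e * N + (p + 1) ≤ w.hi (up e) * N
    have a1 := Nat.mul_le_mul_right N l1
    have a2 := Nat.mul_le_mul_right N l2
    rw [add_mul, one_mul] at a2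
    omega
  have wd : ∀ d : CC C T B r, d.1 = .inl (dn e) →
      ((ww T B r N w L).lo d ≤ e * N + p ∧ e * N + (p + 1) ≤ (ww T B r N w L).hi d) := by
    rintro ⟨d, i⟩ hd
    dsimp only at hd
    subst hd
    change w.lo (dn e) * N ≤ e * N + p ∧ e * N + (p + 1) ≤ w.hi (dn e) * N
    have a1 := Nat.mul_le_mul_right N l3
    have a2 := Nat.mul_le_mul_right N l4
    rw [add_mul, one_mul] at a2
    omega
  have wh : ∀ d : CC C T B r, d.1 = .inr ⟨e, he⟩ →
      ((ww T B r N w L).lo d ≤ e * N + p ∧ e * N + (p + 1) ≤ (ww T B r N w L).hi d) := by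
    rintro ⟨d, i⟩ hd
    dsimp only at hd
    subst hd
    change e * N ≤ e * N + p ∧ e * N + (p + 1) ≤ e * N + N
    omega
  have tu : ∀ p, Th2 (T := T) x up dn g e p (.inl (up e)) = g.u p := fun p => by
    simp [Th2, he]
  have td : ∀ p, Th2 (T := T) x up dn g e p (.inl (dn e)) = r - g.m p := fun p => by
    simp [Th2, he, hdu]
  have tot : ∀ p p' c, c ≠ up e → c ≠ dn e →
      Th2 (T := T) x up dn g e p (.inl c) = Th2 (T := T) x up dn g e p' (.inl c) :=
    fun p p' c hc hc' => by simp [Th2, hc, hc']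
  have th : ∀ p, Th2 (T := T) x up dn g e p (.inr ⟨e, he⟩) = B + g.m p - g.u p := fun p => by
    simp [Th2]
  have th' : ∀ p p' (e' : Fin T), e' ≠ ⟨e, he⟩ →
      Th2 (T := T) x up dn g e p (.inr e') = Th2 (T := T) x up dn g e p' (.inr e') :=
    fun p p' e' h => by
      have : (e' : ℕ) ≠ e := fun h' => h (Fin.ext h')
      simp [Th2, this]
  have a1 := g.ule p hp.le
  have a2 := g.ule (p + 1) hp
  have a3 := g.mle p hp.le
  have a4 := g.mle (p + 1) hp
  have a5 := g.d1 p hp.le
  have a6 := g.d1 (p + 1) hp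
  have a7 := g.d2 p hp.le
  have a8 := g.d2 (p + 1) hp
  have tothers : ∀ o : C ⊕ Fin T, o ≠ .inl (up e) → o ≠ .inl (dn e) → o ≠ .inr ⟨e, he⟩ →
      Th2 (T := T) x up dn g e (p + 1) o = Th2 (T := T) x up dn g e p o := by
    rintro (c | e') ho1 ho2 ho3
    · exact tot _ _ c (fun h => ho1 (by rw [h])) (fun h => ho2 (by rw [h]))
    · exact th' _ _ e' (fun h => ho3 (by rw [h]))
  rcases g.step p hp with ⟨s1, s2⟩ | ⟨s1, s2⟩ | ⟨s1, s2⟩ | ⟨s1, s2⟩
  · -- the up chain goes up, the helper goes down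
    obtain ⟨a, b, ha, hb, q⟩ := exch_of_thresholds2 (size := sz2 C T B r)
      (θ := Th2 x up dn g e p) (θ' := Th2 x up dn g e (p + 1)) (c := .inl (up e))
      (d := .inr ⟨e, he⟩) (by simp) (by rw [tu, tu]; omega) (by rw [th, th]; omega)
      (by
        intro o ho1 ho2
        by_cases ho3 : o = .inl (dn e)
        · rw [ho3, td, td, s2]
        · exact tothers o ho1 ho3 ho2)
      (by rw [tu]; exact a2) (by rw [th]; change _ ≤ 2 * B; omega)
    exact ⟨a, b, wu a ha, wh b hb, q⟩
  · obtain ⟨a, b, ha, hb, q⟩ := exch_of_thresholds2 (size := sz2 C T B r)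
      (θ := Th2 x up dn g e p) (θ' := Th2 x up dn g e (p + 1)) (c := .inr ⟨e, he⟩)
      (d := .inl (up e)) (by simp) (by rw [th, th]; omega) (by rw [tu, tu]; omega)
      (by
        intro o ho1 ho2
        by_cases ho3 : o = .inl (dn e)
        · rw [ho3, td, td, s2]
        · exact tothers o ho2 ho3 ho1)
      (by rw [th]; change _ ≤ 2 * B; omega) (by rw [tu]; exact a1)
    exact ⟨a, b, wh a ha, wu b hb, q⟩
  · obtain ⟨a, b, ha, hb, q⟩ := exch_of_thresholds2 (size := sz2 C T B r)
      (θ := Th2 x up dn g e p) (θ' := Th2 x up dn g e (p + 1)) (c := .inr ⟨e, he⟩)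
      (d := .inl (dn e)) (by simp) (by rw [th, th]; omega) (by rw [td, td]; omega)
      (by
        intro o ho1 ho2
        by_cases ho3 : o = .inl (up e)
        · rw [ho3, tu, tu, s1]
        · exact tothers o ho3 ho2 ho1)
      (by rw [th]; change _ ≤ 2 * B; omega) (by rw [td]; change _ ≤ r; omega)
    exact ⟨a, b, wh a ha, wd b hb, q⟩
  · obtain ⟨a, b, ha, hb, q⟩ := exch_of_thresholds2 (size := sz2 C T B r)
      (θ := Th2 x up dn g e p) (θ' := Th2 x up dn g e (p + 1)) (c := .inl (dn e))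
      (d := .inr ⟨e, he⟩) (by simp) (by rw [td, td]; omega) (by rw [th, th]; omega)
      (by
        intro o ho1 ho2
        by_cases ho3 : o = .inl (up e)
        · rw [ho3, tu, tu, s1]
        · exact tothers o ho3 ho1 ho2)
      (by rw [td]; change _ ≤ r; omega) (by rw [th]; change _ ≤ 2 * B; omega)
    exact ⟨a, b, wd a ha, wh b hb, q⟩

/-- one exchange does not change the number of living curves of status `0` -/
theorem card_step {D : Type} [Fintype D] [DecidableEq D] (P : D → Prop) [DecidablePred P]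
    {y z : D → ℤ} {a b : D} (ha : P a) (hb : P b) (h1 : y a = 0) (h2 : z a = 1) (h3 : y b = 1)
    (h4 : z b = 0) (h5 : ∀ c, c ≠ a → c ≠ b → z c = y c) :
    (Finset.univ.filter (fun c => P c ∧ z c = 0)).card =
      (Finset.univ.filter (fun c => P c ∧ y c = 0)).card := by
  have hab : a ≠ b := by
    rintro rfl
    omega
  have e : (Finset.univ.filter (fun c => P c ∧ z c = 0)) =
      insert b ((Finset.univ.filter (fun c => P c ∧ y c = 0)).erase a) := by
    ext c
    simp only [Finset.mem_filter, Finset.mem_univ, true_and, Finset.mem_insert,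
      Finset.mem_erase]
    by_cases hca : c = a
    · subst hca
      simp [h2, hab]
    · by_cases hcb : c = b
      · subst hcb
        simp [h4, hb]
      · simp [hca, hcb, h5 c hca hcb]
  rw [e, Finset.card_insert_of_notMem, Finset.card_erase_of_mem]
  · have : 0 < (Finset.univ.filter (fun c => P c ∧ y c = 0)).card :=
      Finset.card_pos.2 ⟨a, by simp [h1, ha]⟩
    omega
  · simp [h1, ha]
  · simp [hab.symm, h3]

/-- the number of living curves of status `0` at the start of a block -/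
theorem cnt_start [Fintype C] (hN : 0 < N) (h01 : ∀ t c, x t c = 0 ∨ x t c = 1)
    (hex : ExData T w x up dn) {K : ℕ} {e : ℕ} (he : e < T)
    (hcnt : (Finset.univ.filter
      (fun c => w.lo c ≤ e ∧ e + 1 ≤ w.hi c ∧ x e c = 0)).card = K) :
    (Finset.univ.filter (fun d : CC C T B r => (ww T B r N w L).lo d ≤ e * N ∧
      e * N + 1 ≤ (ww T B r N w L).hi d ∧ xx2 T x up dn g (e * N) d = 0)).card =
      K * r + B := by
  rw [Finset.card_filter, Fintype.sum_sigma, Fintype.sum_sum_type]
  have e1 : ∀ c : C, (∑ i : Fin (sz2 C T B r (.inl c)),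
      (if (ww T B r N w L).lo ⟨.inl c, i⟩ ≤ e * N ∧
        e * N + 1 ≤ (ww T B r N w L).hi ⟨.inl c, i⟩ ∧
        xx2 T x up dn g (e * N) ⟨.inl c, i⟩ = 0 then 1 else 0)) =
      if (w.lo c ≤ e ∧ e + 1 ≤ w.hi c ∧ x e c = 0) then r else 0 := by
    intro c
    have hcond : ∀ i : Fin (sz2 C T B r (.inl c)), ((ww T B r N w L).lo ⟨.inl c, i⟩ ≤ e * N ∧
        e * N + 1 ≤ (ww T B r N w L).hi ⟨.inl c, i⟩ ∧
        xx2 T x up dn g (e * N) ⟨.inl c, i⟩ = 0) ↔
        (w.lo c ≤ e ∧ e + 1 ≤ w.hi c ∧ x e c = 0) := by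
      intro i
      rw [xx2_base hN h01 hex]
      change (w.lo c * N ≤ e * N ∧ e * N + 1 ≤ w.hi c * N ∧ x e c = 0) ↔ _
      have c1 : w.lo c * N ≤ e * N ↔ w.lo c ≤ e := Nat.mul_le_mul_right_iff hN
      have c2 : e * N + 1 ≤ w.hi c * N ↔ e + 1 ≤ w.hi c := by
        constructor
        · intro h
          have : e * N < w.hi c * N := h
          exact Nat.lt_of_mul_lt_mul_right this
        · intro h
          have := Nat.mul_le_mul_right N h
          rw [add_mul, one_mul] at this
          omega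
      rw [c1, c2]
    simp only [hcond]
    split_ifs
    · simp only [Finset.sum_const, smul_eq_mul, mul_one]
      exact Finset.card_fin r
    · simp
  have e2 : ∀ e' : Fin T, (∑ k : Fin (sz2 C T B r (.inr e')),
      (if (ww T B r N w L).lo ⟨.inr e', k⟩ ≤ e * N ∧
        e * N + 1 ≤ (ww T B r N w L).hi ⟨.inr e', k⟩ ∧
        xx2 T x up dn g (e * N) ⟨.inr e', k⟩ = 0 then 1 else 0)) =
      if e' = ⟨e, he⟩ then B else 0 := by
    intro e'
    by_cases hee : e' = ⟨e, he⟩
    · rw [if_pos hee]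
      subst hee
      have hcond : ∀ k : Fin (sz2 C T B r (.inr ⟨e, he⟩)),
          ((ww T B r N w L).lo ⟨.inr ⟨e, he⟩, k⟩ ≤ e * N ∧
          e * N + 1 ≤ (ww T B r N w L).hi ⟨.inr ⟨e, he⟩, k⟩ ∧
          xx2 T x up dn g (e * N) ⟨.inr ⟨e, he⟩, k⟩ = 0) ↔ ¬ ((k : ℕ) < B) := by
        intro k
        have h := xx2_helper_on (g := g) hN hex ⟨e, he⟩ (p := 0) (Nat.zero_le _) k
        simp only [add_zero, g.m0, g.u0, Nat.sub_zero] at h
        rw [h]
        change (e * N ≤ e * N ∧ e * N + 1 ≤ e * N + N ∧ vl k B = 0) ↔ _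
        unfold vl
        constructor
        · rintro ⟨-, -, h3⟩ hk
          rw [if_pos hk] at h3
          omega
        · intro hk
          exact ⟨le_rfl, by omega, if_neg hk⟩
      simp only [hcond]
      change (∑ k : Fin (2 * B), if ¬ ((k : ℕ) < B) then 1 else 0) = B
      rw [Fin.sum_univ_eq_sum_range (fun k => if ¬ (k < B) then 1 else 0) (2 * B),
        two_mul, Finset.sum_range_add]
      have z1 : ∑ k ∈ Finset.range B, (if ¬ (k < B) then 1 else 0) = 0 :=
        Finset.sum_eq_zero (fun k hk => by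
          rw [Finset.mem_range] at hk
          simp [hk])
      have z2 : ∑ k ∈ Finset.range B, (if ¬ (B + k < B) then 1 else 0) = B := by
        simp
      rw [z1, z2, zero_add]
    · rw [if_neg hee]
      refine Finset.sum_eq_zero (fun k _ => if_neg ?_)
      rintro ⟨h1, h2, -⟩
      change (e' : ℕ) * N ≤ e * N at h1
      change e * N + 1 ≤ e' * N + N at h2
      have c1 : (e' : ℕ) ≤ e := Nat.le_of_mul_le_mul_right h1 hN
      have c2 : e < (e' : ℕ) + 1 := by
        have : e * N < ((e' : ℕ) + 1) * N := by rw [add_mul, one_mul]; exact h2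
        exact Nat.lt_of_mul_lt_mul_right this
      exact hee (Fin.ext (by change (e' : ℕ) = e; omega))
  rw [Finset.sum_congr rfl (fun c _ => e1 c), Finset.sum_congr rfl (fun e' _ => e2 e'),
    ← Finset.sum_filter, Finset.sum_const, hcnt, smul_eq_mul, Finset.sum_ite_eq',
    if_pos (Finset.mem_univ _)]

/-- the number of living curves of status `0` -/
theorem cnt_all [Fintype C] (hN : 0 < N) (h01 : ∀ t c, x t c = 0 ∨ x t c = 1)
    (hex : ExData T w x up dn) {K : ℕ}
    (hcnt : ∀ t < T, (Finset.univ.filter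
      (fun c => w.lo c ≤ t ∧ t + 1 ≤ w.hi c ∧ x t c = 0)).card = K) (t : ℕ) (ht : t < T * N) :
    (Finset.univ.filter (fun d : CC C T B r => (ww T B r N w L).lo d ≤ t ∧
      t + 1 ≤ (ww T B r N w L).hi d ∧ xx2 T x up dn g t d = 0)).card = K * r + B := by
  obtain ⟨e, p, he, hp, rfl⟩ : ∃ e p, e < T ∧ p < N ∧ t = e * N + p :=
    ⟨t / N, t % N, (Nat.div_lt_iff_lt_mul hN).2 ht, Nat.mod_lt _ hN,
      (Nat.div_add_mod' t N).symm⟩
  induction p with
  | zero => exact cnt_start hN h01 hex he (hcnt e he)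
  | succ p ih =>
    have hlt : e * N + p < T * N := by omega
    have h0 := ih (by omega) hlt
    obtain ⟨a, b, hwa, hwb, k1, k2, k3, k4, k5⟩ := xx2_exch (L := L) (g := g) hN hex _ hlt
    -- living curves are the same in the whole block
    have hlive : ∀ d : CC C T B r, ((ww T B r N w L).lo d ≤ e * N + (p + 1) ∧
        e * N + (p + 1) + 1 ≤ (ww T B r N w L).hi d) ↔
        ((ww T B r N w L).lo d ≤ e * N + p ∧ e * N + p + 1 ≤ (ww T B r N w L).hi d) := by
      rintro ⟨d | e', i⟩
      · change (w.lo d * N ≤ e * N + (p + 1) ∧ e * N + (p + 1) + 1 ≤ w.hi d * N) ↔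
          (w.lo d * N ≤ e * N + p ∧ e * N + p + 1 ≤ w.hi d * N)
        have key : ∀ m p', p' < N → (m * N ≤ e * N + p' ↔ m ≤ e) := by
          intro m p' hp'
          constructor
          · intro h
            by_contra hcon
            have := Nat.mul_le_mul_right N (show e + 1 ≤ m by omega)
            rw [add_mul, one_mul] at this
            omega
          · intro h
            have := Nat.mul_le_mul_right N h
            omega
        have key2 : ∀ m p', p' < N → (e * N + p' + 1 ≤ m * N ↔ e + 1 ≤ m) := by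
          intro m p' hp'
          have := key m p' hp'
          omega
        rw [key _ _ hp, key _ _ (by omega : p < N), key2 _ _ hp, key2 _ _ (by omega : p < N)]
      · change ((e' : ℕ) * N ≤ e * N + (p + 1) ∧ e * N + (p + 1) + 1 ≤ e' * N + N) ↔
          ((e' : ℕ) * N ≤ e * N + p ∧ e * N + p + 1 ≤ e' * N + N)
        rcases lt_trichotomy (e' : ℕ) e with h | h | h
        · have := Nat.mul_le_mul_right N (show (e' : ℕ) + 1 ≤ e by omega)
          rw [add_mul, one_mul] at this
          omega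
        · rw [h]
          omega
        · have := Nat.mul_le_mul_right N (show e + 1 ≤ (e' : ℕ) by omega)
          rw [add_mul, one_mul] at this
          omega
    have hstep := card_step (fun d : CC C T B r => (ww T B r N w L).lo d ≤ e * N + p ∧
      e * N + p + 1 ≤ (ww T B r N w L).hi d) hwa hwb k1 k2 k3 k4 k5
    have r1 : (Finset.univ.filter (fun d : CC C T B r =>
        (ww T B r N w L).lo d ≤ e * N + (p + 1) ∧
        e * N + (p + 1) + 1 ≤ (ww T B r N w L).hi d ∧
        xx2 T x up dn g (e * N + (p + 1)) d = 0)) =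
        (Finset.univ.filter (fun d : CC C T B r => ((ww T B r N w L).lo d ≤ e * N + p ∧
        e * N + p + 1 ≤ (ww T B r N w L).hi d) ∧ xx2 T x up dn g (e * N + p + 1) d = 0)) := by
      ext d
      simp only [Finset.mem_filter, Finset.mem_univ, true_and]
      rw [← and_assoc, hlive d, add_assoc]
    have r2 : (Finset.univ.filter (fun d : CC C T B r =>
        (ww T B r N w L).lo d ≤ e * N + p ∧
        e * N + p + 1 ≤ (ww T B r N w L).hi d ∧
        xx2 T x up dn g (e * N + p) d = 0)) =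
        (Finset.univ.filter (fun d : CC C T B r => ((ww T B r N w L).lo d ≤ e * N + p ∧
        e * N + p + 1 ≤ (ww T B r N w L).hi d) ∧ xx2 T x up dn g (e * N + p) d = 0)) := by
      ext d
      simp only [Finset.mem_filter, Finset.mem_univ, true_and]
      rw [← and_assoc]
    rw [r1, hstep, ← r2, h0]

end comp

end LevelLower
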