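import Mathlib

/-!
# Levels in arrangements of x-monotone Jordan arcs: definitions
-/

namespace LevelLower

/-- An x-monotone Jordan arc: the graph of a continuous function over a closed interval
`[lo, hi]`. -/
structure XArc where
  /-- left end of the interval -/
  lo : ℝ
  /-- right end of the interval -/
  hi : ℝ
  /-- the interval is not degenerate -/
  lo_lt_hi : lo < hi
  /-- the function -/
  f : ℝ → ℝ
  /-- continuity on the interval -/
  cont : ContinuousOn f (Set.Icc lo hi)

/-- the point set of an arc -/
def XArc.graph (a : XArc) : Set (ℝ × ℝ) := {p | p.1 ∈ Set.Icc a.lo a.hi ∧ p.2 = a.f p.1}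

/-- the two end points of an arc -/
def XArc.endpoints (a : XArc) : Set (ℝ × ℝ) := {(a.lo, a.f a.lo), (a.hi, a.f a.hi)}

/-- every two arcs of the family have at most `s` common points -/
def Intersecting (s : ℕ) {n : ℕ} (Γ : Fin n → XArc) : Prop :=
  ∀ i j, i ≠ j → ((Γ i).graph ∩ (Γ j).graph).encard ≤ s

/-- the arcs passing strictly below a point on its vertical line -/
def below {n : ℕ} (Γ : Fin n → XArc) (p : ℝ × ℝ) : Set (Fin n) :=
  {i | p.1 ∈ Set.Icc (Γ i).lo (Γ i).hi ∧ (Γ i).f p.1 < p.2}

/-- The `k`-level: the closure of the set of points lying on some arc with exactly `k` arcs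
strictly below. -/
def level {n : ℕ} (Γ : Fin n → XArc) (k : ℕ) : Set (ℝ × ℝ) :=
  closure {p | (∃ i, p ∈ (Γ i).graph) ∧ (below Γ p).ncard = k}

/-- the vertices of the arrangement: end points and pairwise intersection points -/
def vertices {n : ℕ} (Γ : Fin n → XArc) : Set (ℝ × ℝ) :=
  {p | (∃ i, p ∈ (Γ i).endpoints) ∨ ∃ i j, i ≠ j ∧ p ∈ (Γ i).graph ∩ (Γ j).graph}

/-- the complexity of the `k`-level: the number of vertices lying on it -/
noncomputable def psi {n : ℕ} (Γ : Fin n → XArc) (k : ℕ) : ℕ :=
  (vertices Γ ∩ level Γ k).ncard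

/-- The maximum complexity of a level over all families of `n` arcs every two of which have at
most `s` common points. -/
noncomputable def Psi (s n : ℕ) : ℕ :=
  sSup {m : ℕ | ∃ Γ : Fin n → XArc, Intersecting s Γ ∧ ∃ k < n, psi Γ k = m}

end LevelLower
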