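import Pool.Agent.LevelLower.Numerics2

/-!
# Asymptotic lower bounds
-/

namespace LevelLower

/-- thresholds of the recursion -/
theorem find_threshold {Γ lamR : ℝ} (hΓ : 2 ≤ Γ) (hlam : 1 ≤ lamR) {n τ₀ : ℕ}
    (h0 : 2 * Γ ^ τ₀ * lamR ^ (τ₀ * (τ₀ - 1) / 2) ≤ n) :
    ∃ τ, τ₀ ≤ τ ∧ 2 * Γ ^ τ * lamR ^ (τ * (τ - 1) / 2) ≤ n ∧
      (n : ℝ) < 2 * Γ ^ (τ + 1) * lamR ^ ((τ + 1) * τ / 2) := by
  classical
  have hmono : ∀ i j : ℕ, i ≤ j → 2 * Γ ^ i * lamR ^ (i * (i - 1) / 2) ≤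
      2 * Γ ^ j * lamR ^ (j * (j - 1) / 2) := by
    intro i j hij
    have h1 : Γ ^ i ≤ Γ ^ j := pow_le_pow_right₀ (by linarith) hij
    have h2 : i * (i - 1) / 2 ≤ j * (j - 1) / 2 :=
      Nat.div_le_div_right (Nat.mul_le_mul hij (by omega))
    have h3 : lamR ^ (i * (i - 1) / 2) ≤ lamR ^ (j * (j - 1) / 2) :=
      pow_le_pow_right₀ hlam h2
    have h4 : (0 : ℝ) ≤ Γ ^ j := by positivity
    have h5 : (0 : ℝ) ≤ lamR ^ (i * (i - 1) / 2) := by positivity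
    calc 2 * Γ ^ i * lamR ^ (i * (i - 1) / 2) ≤ 2 * Γ ^ j * lamR ^ (i * (i - 1) / 2) :=
          mul_le_mul_of_nonneg_right (by linarith) h5
      _ ≤ 2 * Γ ^ j * lamR ^ (j * (j - 1) / 2) :=
          mul_le_mul_of_nonneg_left h3 (by linarith)
  have hex : ∃ τ : ℕ, (n : ℝ) < 2 * Γ ^ τ * lamR ^ (τ * (τ - 1) / 2) := by
    refine ⟨n, ?_⟩
    have h1 : (n : ℝ) < 2 ^ n := by exact_mod_cast Nat.lt_two_pow_self
    have h2 : (2 : ℝ) ^ n ≤ Γ ^ n := pow_le_pow_left₀ (by norm_num) hΓ n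
    have h3 : (1 : ℝ) ≤ lamR ^ (n * (n - 1) / 2) := one_le_pow₀ hlam
    have h4 : (0 : ℝ) ≤ Γ ^ n := by positivity
    nlinarith
  have hmin := Nat.find_spec hex
  have hgt : τ₀ < Nat.find hex := by
    by_contra hcon
    push Not at hcon
    have := hmono _ _ hcon
    linarith
  refine ⟨Nat.find hex - 1, by omega, ?_, ?_⟩
  · have := Nat.find_min hex (show Nat.find hex - 1 < Nat.find hex by omega)
    exact not_lt.1 this
  · obtain ⟨j, hj⟩ : ∃ j, Nat.find hex = j + 1 := ⟨Nat.find hex - 1, by omega⟩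
    rw [hj] at hmin ⊢
    simpa using hmin

/-- **Main bound for fixed `s`.** -/
theorem main_fixed2 {s a l : ℕ} (hl : 1 ≤ l) (hs : 4 * l + 2 * a - 1 ≤ s) {ε : ℝ}
    (hε : 0 < ε) : ∃ n₀ : ℕ, ∀ n ≥ n₀,
      (n : ℝ) * Real.exp ((1 - ε) *
        Real.sqrt (2 * Real.log (2 ^ (l + 2) * (a + 1) - 2) * Real.log n)) ≤ Psi s n := by
  -- the growth factor
  have h4 : 8 ≤ 2 ^ (l + 2) * (a + 1) := by
    have h1 : 2 ^ 3 ≤ 2 ^ (l + 2) := Nat.pow_le_pow_right (by norm_num) (by omega)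
    calc 8 = 2 ^ 3 * 1 := by norm_num
      _ ≤ 2 ^ (l + 2) * (a + 1) := Nat.mul_le_mul h1 (by omega)
  have hlamN : 6 ≤ lam a l := by unfold lam; omega
  have hlamR : (6 : ℝ) ≤ lam a l := by exact_mod_cast hlamN
  have hlame : ((2 : ℝ) ^ (l + 2) * (a + 1) - 2) = lam a l := by
    unfold lam
    rw [Nat.cast_sub (by omega)]
    push_cast
    ring
  rw [hlame]
  set ℓ : ℝ := (lam a l : ℝ) with hℓ
  have hℓ0 : 0 < ℓ := by linarith
  set L := Real.log ℓ with hL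
  have hLpos : 0 < L := Real.log_pos (by linarith)
  set ε' := min ε (1 / 2) with hε'
  have hε'0 : 0 < ε' := lt_min hε (by norm_num)
  have hε'1 : ε' ≤ 1 / 2 := min_le_right _ _
  have hε'2 : ε' ≤ ε := min_le_left _ _
  -- choose K
  have hexp : 0 < Real.exp (ε' * L) - 1 := by
    have := Real.add_one_lt_exp (x := ε' * L) (by positivity)
    have : 0 < ε' * L := by positivity
    linarith
  obtain ⟨K₀, hK₀⟩ := exists_nat_gt (3 / (Real.exp (ε' * L) - 1))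
  set K := K₀ + 1 with hK
  have hK1 : 1 ≤ K := by omega
  have hKR : (1 : ℝ) ≤ K := by exact_mod_cast hK1
  have hK3 : (K : ℝ) + 3 < K * Real.exp (ε' * L) := by
    rw [div_lt_iff₀ hexp] at hK₀
    have e1 : (K : ℝ) = K₀ + 1 := by rw [hK]; push_cast; ring
    have e2 : ((K₀ : ℝ) + 1) * Real.exp (ε' * L) =
        K₀ * (Real.exp (ε' * L) - 1) + K₀ + Real.exp (ε' * L) := by ring
    rw [e1, e2]
    linarith
  set μ : ℝ := ℓ * K / (K + 3) with hμdef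
  have hK30 : (0 : ℝ) < K + 3 := by linarith
  have hμ : μ * (K + 3) = ℓ * K := div_mul_cancel₀ _ hK30.ne'
  have hμ1 : 1 ≤ μ := by
    rw [hμdef, le_div_iff₀ hK30]
    have := mul_le_mul_of_nonneg_right hlamR (show (0 : ℝ) ≤ K by linarith)
    linarith
  have hμ0 : 0 < μ := by linarith
  set m := Real.log μ with hm
  -- m > (1 - ε') L
  have hmL : (1 - ε') * L < m := by
    rw [hm, Real.lt_log_iff_exp_lt hμ0]
    have e1 : Real.exp ((1 - ε') * L) = ℓ / Real.exp (ε' * L) := by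
      rw [show (1 - ε') * L = L - ε' * L by ring, Real.exp_sub, hL, Real.exp_log hℓ0]
    rw [e1, hμdef, div_lt_div_iff₀ (Real.exp_pos _) hK30, mul_assoc]
    exact mul_lt_mul_of_pos_left hK3 hℓ0
  have hθL : 0 < (1 - ε') * L := mul_pos (by linarith) hLpos
  have hm0 : 0 < m := by linarith
  set Γ : ℝ := 2 ^ l * (3 * K + 4) with hΓ
  have hΓ2 : 2 ≤ Γ := by
    have h1 : (1 : ℝ) ≤ 2 ^ l := one_le_pow₀ (by norm_num)
    have h2 : (2 : ℝ) ≤ 3 * K + 4 := by linarith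
    calc (2 : ℝ) ≤ 1 * (3 * K + 4) := by linarith
      _ ≤ 2 ^ l * (3 * K + 4) := mul_le_mul_of_nonneg_right h1 (by linarith)
  have hΓ0 : 0 < Γ := by linarith
  set g := Real.log Γ with hg
  have hg0 : 0 ≤ g := Real.log_nonneg (by linarith)
  have hlog2 : 0 < Real.log 2 := Real.log_pos (by norm_num)
  set A := m ^ 2 - ((1 - ε') * L) ^ 2 with hA
  have hApos : 0 < A := by
    have := mul_self_lt_mul_self hθL.le hmL
    rw [hA, sq, sq]
    linarith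
  set c₁ := 2 * L * (Real.log 2 + 2 * g) + L ^ 2 with hc₁
  have hc₁0 : 0 ≤ c₁ := by positivity
  obtain ⟨τ₁, hτ₁⟩ := exists_nat_gt ((c₁ + 2 * m * Real.log 2) / A)
  obtain ⟨τ₂, hτ₂⟩ := exists_nat_gt (Real.log 2 / m)
  set τ₀ := τ₁ + τ₂ + 1 with hτ₀
  obtain ⟨n₀, hn₀⟩ := exists_nat_ge (2 * Γ ^ τ₀ * ℓ ^ (τ₀ * (τ₀ - 1) / 2))
  refine ⟨n₀, fun n hn => ?_⟩
  have hn' : 2 * Γ ^ τ₀ * ℓ ^ (τ₀ * (τ₀ - 1) / 2) ≤ n :=
    hn₀.trans (by exact_mod_cast hn)
  obtain ⟨τ, hτ, hlo, hhi⟩ := find_threshold hΓ2 (by linarith) hn'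
  obtain ⟨t, rfl⟩ : ∃ t, τ = t + 1 := ⟨τ - 1, by omega⟩
  rw [Nat.add_sub_cancel] at hlo
  have hcore := main_core hl hs hK1 hμ1 hμ t n hlo
  set τ := t + 1 with hτdef
  have hn0 : (0 : ℝ) < n := lt_of_lt_of_le (by positivity) hlo
  -- logarithm of n
  have hlogn : Real.log n ≤ Real.log 2 + (τ + 1) * g + ((τ : ℝ) + 1) * τ / 2 * L := by
    have h1 := Real.log_le_log hn0 hhi.le
    rw [Real.log_mul (by positivity) (by positivity), Real.log_mul (by norm_num) (by positivity),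
      Real.log_pow, Real.log_pow] at h1
    have h2 : ((((τ + 1) * τ / 2 : ℕ)) : ℝ) ≤ ((τ : ℝ) + 1) * τ / 2 := by
      have := @Nat.cast_div_le ℝ _ _ _ ((τ + 1) * τ) 2
      push_cast at this
      exact this
    have h3 := mul_le_mul_of_nonneg_right h2 hLpos.le
    push_cast at h1
    linarith
  have hτ1 : (1 : ℝ) ≤ τ := by
    have : 1 ≤ τ := by omega
    exact_mod_cast this
  have hτA : c₁ + 2 * m * Real.log 2 ≤ τ * A := by
    rw [div_lt_iff₀ hApos] at hτ₁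
    have : (τ₁ : ℝ) ≤ τ := by
      have : τ₁ ≤ τ := by omega
      exact_mod_cast this
    have := mul_le_mul_of_nonneg_right this hApos.le
    linarith
  have hτm : Real.log 2 ≤ τ * m := by
    rw [div_lt_iff₀ hm0] at hτ₂
    have : (τ₂ : ℝ) ≤ τ := by
      have : τ₂ ≤ τ := by omega
      exact_mod_cast this
    have := mul_le_mul_of_nonneg_right this hm0.le
    linarith
  -- the square root
  have hsq : (1 - ε') * Real.sqrt (2 * L * Real.log n) ≤ τ * m - Real.log 2 := by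
    have hθ0 : 0 ≤ 1 - ε' := by linarith
    have e1 : (1 - ε') * Real.sqrt (2 * L * Real.log n) =
        Real.sqrt ((1 - ε') ^ 2 * (2 * L * Real.log n)) := by
      rw [Real.sqrt_mul (sq_nonneg (1 - ε')) (2 * L * Real.log n), Real.sqrt_sq hθ0]
    rw [e1]
    apply Real.sqrt_le_iff.2
    refine ⟨by linarith, ?_⟩
    have hθ1 : (1 - ε') ^ 2 ≤ 1 := pow_le_one₀ hθ0 (by linarith)
    have hθ2 : (0 : ℝ) ≤ (1 - ε') ^ 2 := by positivity
    have h1 : (1 - ε') ^ 2 * (2 * L * Real.log n) ≤ (1 - ε') ^ 2 *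
        (2 * L * (Real.log 2 + (τ + 1) * g + ((τ : ℝ) + 1) * τ / 2 * L)) := by
      refine mul_le_mul_of_nonneg_left ?_ hθ2
      exact mul_le_mul_of_nonneg_left hlogn (by positivity)
    have h2 : (1 - ε') ^ 2 *
        (2 * L * (Real.log 2 + (τ + 1) * g + ((τ : ℝ) + 1) * τ / 2 * L)) ≤
        τ * c₁ + ((1 - ε') * L) ^ 2 * (τ : ℝ) ^ 2 := by
      have h3 : (1 - ε') ^ 2 * (2 * L * (Real.log 2 + (τ + 1) * g)) ≤
          1 * (2 * L * (Real.log 2 + (τ + 1) * g)) :=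
        mul_le_mul_of_nonneg_right hθ1 (by positivity)
      have h4 : 2 * L * (Real.log 2 + (τ + 1) * g) ≤ τ * (2 * L * (Real.log 2 + 2 * g)) := by
        have h5 : Real.log 2 + (τ + 1) * g ≤ τ * (Real.log 2 + 2 * g) := by
          have a1 := mul_nonneg (sub_nonneg.2 hτ1) hlog2.le
          have a2 := mul_nonneg (sub_nonneg.2 hτ1) hg0
          linarith
        calc 2 * L * (Real.log 2 + (τ + 1) * g) ≤ 2 * L * (τ * (Real.log 2 + 2 * g)) :=
              mul_le_mul_of_nonneg_left h5 (by positivity)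
          _ = τ * (2 * L * (Real.log 2 + 2 * g)) := by ring
      have h6 : (1 - ε') ^ 2 * (L ^ 2 * τ) ≤ 1 * (L ^ 2 * τ) :=
        mul_le_mul_of_nonneg_right hθ1 (by positivity)
      calc (1 - ε') ^ 2 * (2 * L * (Real.log 2 + (τ + 1) * g + ((τ : ℝ) + 1) * τ / 2 * L)) =
          (1 - ε') ^ 2 * (2 * L * (Real.log 2 + (τ + 1) * g)) +
          (1 - ε') ^ 2 * (L ^ 2 * τ) + ((1 - ε') * L) ^ 2 * (τ : ℝ) ^ 2 := by ring
        _ ≤ τ * c₁ + ((1 - ε') * L) ^ 2 * (τ : ℝ) ^ 2 := by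
            rw [hc₁]
            linarith
    have h7 : τ * c₁ + ((1 - ε') * L) ^ 2 * (τ : ℝ) ^ 2 ≤ (τ * m - Real.log 2) ^ 2 := by
      have h8 : (τ : ℝ) * (c₁ + 2 * m * Real.log 2) ≤ τ * (τ * A) :=
        mul_le_mul_of_nonneg_left hτA (by linarith)
      have h9 : (τ : ℝ) * (τ * A) = (τ : ℝ) ^ 2 * m ^ 2 - ((1 - ε') * L) ^ 2 * (τ : ℝ) ^ 2 := by
        rw [hA]; ring
      have h10 : (τ * m - Real.log 2) ^ 2 = (τ : ℝ) ^ 2 * m ^ 2 -
          τ * (2 * m * Real.log 2) + Real.log 2 ^ 2 := by ring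
      have h11 := sq_nonneg (Real.log 2)
      rw [h10]
      linarith
    linarith
  -- conclusion
  have hfin : Real.exp ((1 - ε) * Real.sqrt (2 * L * Real.log n)) ≤ μ ^ τ / 2 := by
    have h1 : (1 - ε) * Real.sqrt (2 * L * Real.log n) ≤ τ * m - Real.log 2 := by
      refine le_trans ?_ hsq
      exact mul_le_mul_of_nonneg_right (by linarith) (Real.sqrt_nonneg _)
    have h2 : Real.exp (τ * m - Real.log 2) = μ ^ τ / 2 := by
      rw [Real.exp_sub, Real.exp_log (by norm_num), Real.exp_nat_mul, hm, Real.exp_log hμ0]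
    rw [← h2]
    exact Real.exp_le_exp.2 h1
  calc (n : ℝ) * Real.exp ((1 - ε) * Real.sqrt (2 * L * Real.log n)) ≤ n * (μ ^ τ / 2) :=
        mul_le_mul_of_nonneg_left hfin hn0.le
    _ = (n * μ ^ τ) / 2 := by ring
    _ ≤ Psi s n := by linarith

end LevelLower
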