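import Pool.Agent.LevelLower.Path2

/-!
# The block exchange gadget with exact numbers of alternations
-/

namespace LevelLower

/-- status of the `i`-th curve of a chain with threshold `θ` -/
def vl (i θ : ℕ) : ℤ := if i < θ then 1 else 0

/-- Thresholds `u, m` for exchanging a chain of length `r` going up with a chain of length `r`
going down, with a helper chain of length `2 B` whose threshold is `B + m - u`. -/
structure Gadget2 (B r N c : ℕ) where
  u : ℕ → ℕ
  m : ℕ → ℕ
  u0 : u 0 = 0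
  m0 : m 0 = 0
  uN : u N = r
  mN : m N = r
  ule : ∀ p ≤ N, u p ≤ r
  mle : ∀ p ≤ N, m p ≤ r
  d1 : ∀ p ≤ N, u p ≤ m p + B
  d2 : ∀ p ≤ N, m p ≤ u p + B
  step : ∀ p < N, (u (p + 1) = u p + 1 ∧ m (p + 1) = m p) ∨
    (u p = u (p + 1) + 1 ∧ m (p + 1) = m p) ∨ (u (p + 1) = u p ∧ m (p + 1) = m p + 1) ∨
    (u (p + 1) = u p ∧ m p = m (p + 1) + 1)
  sw : ∀ p p', p ≤ p' → p' < N → ¬ (u p' < u p ∧ m p' < m p)
  colq : ∀ i k : ℕ, i < r → ∀ q, Odd q →
    Ph (fun p => vl i (u p) - vl k (B + m p - u p)) 0 (N + 1) q (q + c)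
  rowq : ∀ j k : ℕ, j < r → ∀ q, Even q →
    Ph (fun p => vl j (r - m p) - vl k (B + m p - u p)) 0 (N + 1) q (q + c)

/-- `R` square paths in a row -/
def QR2 (a l R : ℕ) : List Dir := (List.replicate R (Q2 a l)).flatten

theorem QR2_succ (a l R : ℕ) : QR2 a l (R + 1) = Q2 a l ++ QR2 a l R := by
  simp [QR2, List.replicate_succ]

theorem QR2_add (a l R R' : ℕ) : QR2 a l (R + R') = QR2 a l R ++ QR2 a l R' := by
  rw [QR2, List.replicate_add, List.flatten_append]
  rfl

theorem length_QR2 (a l R : ℕ) : (QR2 a l R).length = R * (Q2 a l).length := by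
  induction R with
  | zero => simp [QR2]
  | succ R ih => rw [QR2_succ, List.length_append, ih]; ring

theorem run_QR2 (a l R : ℕ) (x y : ℤ) :
    run (x, y) (QR2 a l R) = (x + R * 2 ^ l, y + R * 2 ^ l) := by
  induction R generalizing x y with
  | zero => simp [QR2, run]
  | succ R ih =>
    rw [QR2_succ, run_append, run_Q2, ih]
    push_cast
    refine Prod.ext ?_ ?_ <;> simp only <;> ring

theorem walk_QR2_succ (a l R : ℕ) (x y : ℤ) : walk (x, y) (QR2 a l (R + 1)) =
    walk (x, y) (Q2 a l) ++ walk (x + 2 ^ l, y + 2 ^ l) (QR2 a l R) := by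
  rw [QR2_succ, walk_append, run_Q2]

theorem box_QR2 (a l R : ℕ) (x y : ℤ) : ∀ q ∈ walk (x, y) (QR2 a l R),
    x ≤ q.1 ∧ q.1 ≤ x + R * 2 ^ l ∧ y ≤ q.2 ∧ q.2 ≤ y + R * 2 ^ l ∧
    q.2 - q.1 ≤ y - x + 2 ^ l ∧ y - x ≤ q.2 - q.1 + 2 ^ l := by
  induction R generalizing x y with
  | zero => simp [QR2, walk]
  | succ R ih =>
    intro q hq
    have hb : (0 : ℤ) < 2 ^ l := by positivity
    have hR : (0 : ℤ) ≤ R * 2 ^ l := by positivity
    rw [walk_QR2_succ, List.mem_append] at hq
    push_cast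
    rw [add_mul, one_mul]
    rcases hq with h | h
    · have := box_Q2 a l x y q h; omega
    · have := ih _ _ q h; omega

theorem sw_QR2 (a l R : ℕ) (x y : ℤ) :
    (walk (x, y) (QR2 a l R)).Pairwise (fun p q => ¬ (q.1 < p.1 ∧ q.2 < p.2)) := by
  induction R generalizing x y with
  | zero => simp [QR2, walk]
  | succ R ih =>
    rw [walk_QR2_succ, List.pairwise_append]
    refine ⟨sw_Q2 a l x y, ih _ _, fun p hp q hq => ?_⟩
    have := box_Q2 a l x y p hp
    have := box_QR2 a l R _ _ q hq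
    omega

theorem split_QR2 (a l R : ℕ) (x y : ℤ) (i' : ℕ) (hi : i' < R * 2 ^ l) :
    ∃ q R' : ℕ, q * 2 ^ l ≤ i' ∧ i' < (q + 1) * 2 ^ l ∧
      walk (x, y) (QR2 a l R) = walk (x, y) (QR2 a l q) ++
        (walk (x + q * 2 ^ l, y + q * 2 ^ l) (Q2 a l) ++
          walk (x + (q + 1) * 2 ^ l, y + (q + 1) * 2 ^ l) (QR2 a l R')) := by
  have hb : 0 < 2 ^ l := by positivity
  refine ⟨i' / 2 ^ l, R - i' / 2 ^ l - 1, Nat.div_mul_le_self _ _, ?_, ?_⟩
  · have h1 := Nat.div_add_mod i' (2 ^ l)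
    have h2 := Nat.mod_lt i' hb
    rw [add_mul, one_mul, mul_comm]
    omega
  · have h3 : i' / 2 ^ l < R := (Nat.div_lt_iff_lt_mul hb).2 hi
    have h4 : R = i' / 2 ^ l + ((R - i' / 2 ^ l - 1) + 1) := by omega
    conv_lhs => rw [h4]
    rw [QR2_add, walk_append, run_QR2, walk_QR2_succ]
    congr 3
    refine Prod.ext ?_ ?_ <;> simp only <;> ring

theorem col_QR2 (a l R : ℕ) (hl : 1 ≤ l) (x y i k : ℤ) (h1 : x ≤ i) (h2 : i < x + R * 2 ^ l)
    (q₀ : ℕ) (hq : Odd q₀) :
    AC (colf i k) q₀ (q₀ + (4 * l + 2 * a - 1))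
      (walk (x, y) (QR2 a l R) ++ [(x + R * 2 ^ l, y + R * 2 ^ l)]) := by
  obtain ⟨i', hi'⟩ : ∃ i' : ℕ, i = x + i' := ⟨(i - x).toNat, by omega⟩
  subst hi'
  have hlt : i' < R * 2 ^ l := by zify; linarith
  obtain ⟨q, R', hq1, hq2, hs⟩ := split_QR2 a l R x y i' hlt
  zify at hq1 hq2
  rw [hs]
  have A1 : AC (colf (x + i') k) q₀ q₀ (walk (x, y) (QR2 a l q)) := by
    refine AC.const_nonpos hq (fun p hp => ?_)
    have := box_QR2 a l q x y p hp
    exact colf_nonpos_of (by omega)
  have A2 := col_Q2 a l (x + q * 2 ^ l) (y + q * 2 ^ l) (x + i') k (by linarith)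
    (by linarith) q₀ hq
  set c := cn a true l ((x + i') - (x + q * 2 ^ l))
    (k - ((y + q * 2 ^ l) - (x + q * 2 ^ l))) with hc
  have hco : Odd c := cn_odd _ _ _ _ _
  have hcl : c ≤ 4 * l + 2 * a - 1 := cn_le _ _ _ hl _ _
  have A3 : AC (colf (x + i') k) (q₀ + c) (q₀ + c)
      (walk (x + (q + 1) * 2 ^ l, y + (q + 1) * 2 ^ l) (QR2 a l R')) := by
    refine AC.const_nonneg (hq.add_odd hco) (fun p hp => ?_)
    have := box_QR2 a l R' _ _ p hp
    exact colf_nonneg_of (by omega)
  have A4 : AC (colf (x + i') k) (q₀ + c) (q₀ + c) [(x + R * 2 ^ l, y + R * 2 ^ l)] := by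
    refine AC.const_nonneg (hq.add_odd hco) (fun p hp => ?_)
    rw [List.mem_singleton] at hp
    subst hp
    exact colf_nonneg_of (Or.inl (by simpa using h2))
  exact ((A1.append (A2.append A3)).append A4).mono_right (by omega)

theorem row_QR2 (a l R : ℕ) (hl : 1 ≤ l) (x y j k : ℤ) (h1 : y ≤ j) (h2 : j < y + R * 2 ^ l)
    (q₀ : ℕ) (hq : Even q₀) :
    AC (rowf j k) q₀ (q₀ + (4 * l + 2 * a - 1))
      (walk (x, y) (QR2 a l R) ++ [(x + R * 2 ^ l, y + R * 2 ^ l)]) := by
  obtain ⟨i', hi'⟩ : ∃ i' : ℕ, j = y + i' := ⟨(j - y).toNat, by omega⟩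
  subst hi'
  have hlt : i' < R * 2 ^ l := by zify; linarith
  obtain ⟨q, R', hq1, hq2, hs⟩ := split_QR2 a l R x y i' hlt
  zify at hq1 hq2
  rw [hs]
  have A1 : AC (rowf (y + i') k) q₀ q₀ (walk (x, y) (QR2 a l q)) := by
    refine AC.const_nonneg hq (fun p hp => ?_)
    have := box_QR2 a l q x y p hp
    exact rowf_nonneg_of (by omega)
  have A2 := row_Q2 a l (x + q * 2 ^ l) (y + q * 2 ^ l) (y + i') k (by linarith)
    (by linarith) q₀ hq
  set c := cn a false l ((y + i') - (y + q * 2 ^ l))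
    (k - ((y + q * 2 ^ l) - (x + q * 2 ^ l))) with hc
  have hco : Odd c := cn_odd _ _ _ _ _
  have hcl : c ≤ 4 * l + 2 * a - 1 := cn_le _ _ _ hl _ _
  have A3 : AC (rowf (y + i') k) (q₀ + c) (q₀ + c)
      (walk (x + (q + 1) * 2 ^ l, y + (q + 1) * 2 ^ l) (QR2 a l R')) := by
    refine AC.const_nonpos (hq.add_odd hco) (fun p hp => ?_)
    have := box_QR2 a l R' _ _ p hp
    exact rowf_nonpos_of (by omega)
  have A4 : AC (rowf (y + i') k) (q₀ + c) (q₀ + c) [(x + R * 2 ^ l, y + R * 2 ^ l)] := by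
    refine AC.const_nonpos (hq.add_odd hco) (fun p hp => ?_)
    rw [List.mem_singleton] at hp
    subst hp
    exact rowf_nonpos_of (Or.inl (by simpa using h2))
  exact ((A1.append (A2.append A3)).append A4).mono_right (by omega)

theorem step_walk2 (L : List Dir) (p : ℕ) (hp : p < L.length) (x : ℤ × ℤ) :
    run x (L.take (p + 1)) = mv L[p] (run x (L.take p)) := by
  rw [List.take_succ_eq_append_getElem hp, run_append]
  rfl

theorem getElem_full (x : ℤ × ℤ) (L : List Dir) (t : ℕ)
    (ht : t < (walk x L ++ [run x L]).length) :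
    (walk x L ++ [run x L])[t] = run x (L.take t) := by
  rw [List.length_append, length_walk, List.length_singleton] at ht
  rcases Nat.lt_or_ge t L.length with h | h
  · rw [List.getElem_append_left (by simpa using h), getElem_walk]
  · obtain rfl : t = L.length := by omega
    rw [List.getElem_append_right (by simp)]
    simp

theorem AC.toPh {α : Type*} {g : α → ℤ} {a b : ℕ} {L : List α} (h : AC g a b L) {f : ℕ → ℤ}
    (hf : ∀ (t : ℕ) (ht : t < L.length), f t = g (L[t])) : Ph f 0 L.length a b := by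
  obtain ⟨φ, h1, h2, h3⟩ := h.phase
  exact ⟨φ, h1, h2, fun t _ ht' => by rw [hf t ht']; exact h3 t ht'⟩

/-- the gadget with side length `2^l`, `R` squares and `2 a + 1` sweeps per cell -/
theorem exists_gadget2 (a l R : ℕ) (hl : 1 ≤ l) :
    Nonempty (Gadget2 (2 ^ l) (R * 2 ^ l) (R * (Q2 a l).length) (4 * l + 2 * a - 1)) := by
  rw [← length_QR2]
  set L := QR2 a l R with hL
  have hb : (0 : ℤ) < 2 ^ l := by positivity
  set pos : ℕ → ℤ × ℤ := fun p => run (0, 0) (L.take p) with hpos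
  have hmem : ∀ p < L.length, pos p ∈ walk (0, 0) L := by
    intro p hp
    have h : p < (walk (0, 0) L).length := by simpa using hp
    have := getElem_walk (0, 0) L p h
    rw [← show (walk (0, 0) L)[p] = pos p from this]
    exact List.getElem_mem h
  have hend : pos L.length = ((R : ℤ) * 2 ^ l, (R : ℤ) * 2 ^ l) := by
    simp only [hpos, List.take_length]
    rw [hL, run_QR2]
    simp
  have hrun : run (0, 0) L = ((0 : ℤ) + R * 2 ^ l, (0 : ℤ) + R * 2 ^ l) := by
    rw [hL, run_QR2]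
  have hbox : ∀ p ≤ L.length, 0 ≤ (pos p).1 ∧ (pos p).1 ≤ R * 2 ^ l ∧ 0 ≤ (pos p).2 ∧
      (pos p).2 ≤ R * 2 ^ l ∧ (pos p).2 - (pos p).1 ≤ 2 ^ l ∧ 0 ≤ (pos p).2 - (pos p).1 + 2 ^ l := by
    intro p hp
    rcases hp.lt_or_eq with h | h
    · have := box_QR2 a l R 0 0 (pos p) (hmem p h)
      simpa using this
    · rw [h, hend]
      simp only
      have : (0 : ℤ) ≤ R * 2 ^ l := by positivity
      omega
  have hstep : ∀ (p : ℕ) (hp : p < L.length), pos (p + 1) = mv (L[p]'hp) (pos p) :=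
    fun p hp => step_walk2 L p hp (0, 0)
  have hr : ((R * 2 ^ l : ℕ) : ℤ) = R * 2 ^ l := by push_cast; rfl
  have hB : ((2 ^ l : ℕ) : ℤ) = 2 ^ l := by push_cast; rfl
  refine ⟨⟨fun p => (pos p).1.toNat, fun p => (pos p).2.toNat, ?_, ?_, ?_, ?_, ?_,
    ?_, ?_, ?_, ?_, ?_, ?_, ?_⟩⟩
  · simp [hpos, run]
  · simp [hpos, run]
  · rw [hend]
    omega
  · rw [hend]
    omega
  · intro p hp
    have := hbox p hp
    try dsimp only
    omega
  · intro p hp
    have := hbox p hp
    try dsimp only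
    omega
  · intro p hp
    have := hbox p hp
    try dsimp only
    omega
  · intro p hp
    have := hbox p hp
    try dsimp only
    omega
  · intro p hp
    have h1 := hbox p hp.le
    have h2 := hbox (p + 1) hp
    have h3 := hstep p hp
    try dsimp only
    rcases hd : L[p] with _ | _ | _ | _ <;> rw [hd] at h3 <;> simp only [mv] at h3 <;>
      rw [Prod.ext_iff] at h3 <;> dsimp only at h3 <;> omega
  · intro p p' hpp hp'
    have h1 := hbox p (by omega)
    have h2 := hbox p' (by omega)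
    have hsw := sw_QR2 a l R 0 0
    rw [← hL, List.pairwise_iff_getElem] at hsw
    rcases hpp.lt_or_eq with h | h
    · have := hsw p p' (by simpa using hpp.trans_lt hp') (by simpa using hp') h
      rw [getElem_walk, getElem_walk] at this
      change ¬ ((pos p').1 < (pos p).1 ∧ (pos p').2 < (pos p).2) at this
      try dsimp only
      omega
    · subst h
      simp
  · intro i k hi q₀ hq₀
    have h := col_QR2 a l R hl 0 0 i (k - 2 ^ l) (by positivity) (by zify at hi; linarith) q₀ hq₀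
    rw [← hL, ← hrun] at h
    have h' := h.toPh (f := fun p => vl i (pos p).1.toNat -
      vl k (2 ^ l + (pos p).2.toNat - (pos p).1.toNat)) ?_
    · rw [List.length_append, length_walk, List.length_singleton] at h'
      exact h'
    · intro t ht
      rw [getElem_full]
      change _ = colf i (k - 2 ^ l) (pos t)
      have ht' : t ≤ L.length := by
        rw [List.length_append, length_walk, List.length_singleton] at ht
        omega
      have h1 := hbox t ht'
      unfold colf vl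
      have e1 : (i < (pos t).1.toNat) ↔ ((i : ℤ) < (pos t).1) := by omega
      have e2 : (k < 2 ^ l + (pos t).2.toNat - (pos t).1.toNat) ↔
          ((k : ℤ) - 2 ^ l < (pos t).2 - (pos t).1) := by omega
      simp only [e1, e2]
  · intro j k hj q₀ hq₀
    have h := row_QR2 a l R hl 0 0 (R * 2 ^ l - j - 1) (k - 2 ^ l)
      (by zify at hj; linarith) (by linarith [Int.natCast_nonneg j]) q₀ hq₀
    rw [← hL, ← hrun] at h
    have h' := h.toPh (f := fun p => vl j (R * 2 ^ l - (pos p).2.toNat) -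
      vl k (2 ^ l + (pos p).2.toNat - (pos p).1.toNat)) ?_
    · rw [List.length_append, length_walk, List.length_singleton] at h'
      exact h'
    · intro t ht
      rw [getElem_full]
      change _ = rowf (R * 2 ^ l - j - 1) (k - 2 ^ l) (pos t)
      have ht' : t ≤ L.length := by
        rw [List.length_append, length_walk, List.length_singleton] at ht
        omega
      have h1 := hbox t ht'
      unfold rowf vl
      have e1 : (j < R * 2 ^ l - (pos t).2.toNat) ↔
          ((pos t).2 ≤ (R : ℤ) * 2 ^ l - j - 1) := by omega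
      have e2 : (k < 2 ^ l + (pos t).2.toNat - (pos t).1.toNat) ↔
          ((k : ℤ) - 2 ^ l < (pos t).2 - (pos t).1) := by omega
      simp only [e1, e2]

end LevelLower
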