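import Pool.Agent.LevelLower.Cert

/-!
# The square path and its alternations
-/

namespace LevelLower

/-- unit moves in the plane -/
inductive Dir
  | N | E | S | W

/-- the effect of a unit move -/
def mv : Dir → ℤ × ℤ → ℤ × ℤ
  | .N, p => (p.1, p.2 + 1)
  | .E, p => (p.1 + 1, p.2)
  | .S, p => (p.1, p.2 - 1)
  | .W, p => (p.1 - 1, p.2)

/-- the end point of a walk -/
def run : ℤ × ℤ → List Dir → ℤ × ℤ
  | p, [] => p
  | p, d :: L => run (mv d p) L

/-- the positions before each move of a walk -/
def walk : ℤ × ℤ → List Dir → List (ℤ × ℤ)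
  | _, [] => []
  | p, d :: L => p :: walk (mv d p) L

theorem run_append (p : ℤ × ℤ) (L M : List Dir) : run p (L ++ M) = run (run p L) M := by
  induction L generalizing p with
  | nil => rfl
  | cons d L ih => simp [run, ih]

theorem walk_append (p : ℤ × ℤ) (L M : List Dir) :
    walk p (L ++ M) = walk p L ++ walk (run p L) M := by
  induction L generalizing p with
  | nil => rfl
  | cons d L ih => simp [run, walk, ih]

@[simp] theorem length_walk (p : ℤ × ℤ) (L : List Dir) : (walk p L).length = L.length := by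
  induction L generalizing p with
  | nil => rfl
  | cons d L ih => simp [walk, ih]

theorem getElem_walk (p : ℤ × ℤ) (L : List Dir) (i : ℕ) (h : i < (walk p L).length) :
    (walk p L)[i] = run p (L.take i) := by
  induction L generalizing p i with
  | nil => simp [walk] at h
  | cons d L ih =>
    cases i with
    | zero => simp [walk, run]
    | succ i =>
      simp only [walk, List.getElem_cons_succ, List.take_succ_cons, run]
      exact ih _ _ _

theorem run_rep_W (x y : ℤ) (n : ℕ) : run (x, y) (List.replicate n Dir.W) = (x - n, y) := by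
  induction n generalizing x with
  | zero => simp [run]
  | succ n ih =>
    simp only [List.replicate_succ, run, mv, ih]
    push_cast
    congr 1
    ring

theorem run_rep_S (x y : ℤ) (n : ℕ) : run (x, y) (List.replicate n Dir.S) = (x, y - n) := by
  induction n generalizing y with
  | zero => simp [run]
  | succ n ih =>
    simp only [List.replicate_succ, run, mv, ih]
    push_cast
    congr 1
    ring

theorem box_W (x y : ℤ) (n : ℕ) : ∀ q ∈ walk (x, y) (List.replicate n Dir.W),
    q.2 = y ∧ x - n < q.1 ∧ q.1 ≤ x := by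
  induction n generalizing x with
  | zero => simp [walk]
  | succ n ih =>
    intro q hq
    simp only [List.replicate_succ, walk, mv, List.mem_cons] at hq
    rcases hq with rfl | hq
    · simp
    · have := ih _ q hq
      push_cast
      omega

theorem box_S (x y : ℤ) (n : ℕ) : ∀ q ∈ walk (x, y) (List.replicate n Dir.S),
    q.1 = x ∧ y - n < q.2 ∧ q.2 ≤ y := by
  induction n generalizing y with
  | zero => simp [walk]
  | succ n ih =>
    intro q hq
    simp only [List.replicate_succ, walk, mv, List.mem_cons] at hq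
    rcases hq with rfl | hq
    · simp
    · have := ih _ q hq
      push_cast
      omega

theorem pairwise_W (x y : ℤ) (n : ℕ) : (walk (x, y) (List.replicate n Dir.W)).Pairwise
    (fun p q => q.1 < p.1 ∧ q.2 = p.2) := by
  induction n generalizing x with
  | zero => simp [walk]
  | succ n ih =>
    simp only [List.replicate_succ, walk, mv, List.pairwise_cons]
    refine ⟨fun q hq => ?_, ih _⟩
    have := box_W _ _ _ q hq
    omega

theorem pairwise_S (x y : ℤ) (n : ℕ) : (walk (x, y) (List.replicate n Dir.S)).Pairwise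
    (fun p q => q.1 = p.1 ∧ q.2 < p.2) := by
  induction n generalizing y with
  | zero => simp [walk]
  | succ n ih =>
    simp only [List.replicate_succ, walk, mv, List.pairwise_cons]
    refine ⟨fun q hq => ?_, ih _⟩
    have := box_S _ _ _ q hq
    omega

/-- The square path from `(0,0)` to `(2^l, 2^l)`, visiting all cells. -/
def Q : ℕ → List Dir
  | 0 => [.N, .E]
  | l + 1 => Q l ++ (List.replicate (2 ^ l) .W ++ (Q l ++ (List.replicate (2 * 2 ^ l) .S ++
      (Q l ++ (List.replicate (2 ^ l) .W ++ Q l)))))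

theorem run_Q (l : ℕ) (x y : ℤ) : run (x, y) (Q l) = (x + 2 ^ l, y + 2 ^ l) := by
  induction l generalizing x y with
  | zero => simp [Q, run, mv]
  | succ l ih =>
    simp only [Q, run_append, ih, run_rep_W, run_rep_S]
    push_cast
    rw [pow_succ]
    refine Prod.ext ?_ ?_ <;> simp only <;> ring

theorem walk_Q_succ (l : ℕ) (x y : ℤ) : walk (x, y) (Q (l + 1)) =
    walk (x, y) (Q l) ++ (walk (x + 2 ^ l, y + 2 ^ l) (List.replicate (2 ^ l) .W) ++
    (walk (x, y + 2 ^ l) (Q l) ++
    (walk (x + 2 ^ l, y + 2 * 2 ^ l) (List.replicate (2 * 2 ^ l) .S) ++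
    (walk (x + 2 ^ l, y) (Q l) ++
    (walk (x + 2 * 2 ^ l, y + 2 ^ l) (List.replicate (2 ^ l) .W) ++
    walk (x + 2 ^ l, y + 2 ^ l) (Q l)))))) := by
  rw [Q, walk_append, walk_append, walk_append, walk_append, walk_append, walk_append]
  simp only [run_Q, run_rep_W, run_rep_S]
  push_cast
  have e1 : x + 2 ^ l - 2 ^ l = x := by ring
  have e2 : y + 2 ^ l + 2 ^ l = y + 2 * 2 ^ l := by ring
  have e3 : y + 2 * 2 ^ l - 2 * 2 ^ l = y := by ring
  have e4 : x + 2 ^ l + 2 ^ l = x + 2 * 2 ^ l := by ring
  have e5 : x + 2 * 2 ^ l - 2 ^ l = x + 2 ^ l := by ring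
  simp only [e1, e2, e3, e4, e5]

theorem length_Q (l : ℕ) : 4 ^ l ≤ (Q l).length := by
  induction l with
  | zero => simp [Q]
  | succ l ih =>
    simp only [Q, List.length_append, List.length_replicate, pow_succ]
    omega

theorem box_Q (l : ℕ) (x y : ℤ) : ∀ q ∈ walk (x, y) (Q l),
    x ≤ q.1 ∧ q.1 ≤ x + 2 ^ l ∧ y ≤ q.2 ∧ q.2 ≤ y + 2 ^ l := by
  induction l generalizing x y with
  | zero => simp [Q, walk, mv]
  | succ l ih =>
    intro q hq
    have hb : (0 : ℤ) < 2 ^ l := by positivity
    rw [walk_Q_succ] at hq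
    simp only [List.mem_append] at hq
    rw [pow_succ]
    rcases hq with h | h | h | h | h | h | h
    · have := ih _ _ q h; omega
    · have := box_W _ _ _ q h; push_cast at this; omega
    · have := ih _ _ q h; omega
    · have := box_S _ _ _ q h; push_cast at this; omega
    · have := ih _ _ q h; omega
    · have := box_W _ _ _ q h; push_cast at this; omega
    · have := ih _ _ q h; omega

/-- no later position is strictly south-west of an earlier one -/
theorem sw_Q (l : ℕ) (x y : ℤ) :
    (walk (x, y) (Q l)).Pairwise (fun p q => ¬ (q.1 < p.1 ∧ q.2 < p.2)) := by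
  induction l generalizing x y with
  | zero => simp [Q, walk, mv]
  | succ l ih =>
    have hb : (0 : ℤ) < 2 ^ l := by positivity
    have hW : ∀ x y : ℤ, ∀ n : ℕ, (walk (x, y) (List.replicate n Dir.W)).Pairwise
        (fun p q => ¬ (q.1 < p.1 ∧ q.2 < p.2)) := fun x y n =>
      (pairwise_W x y n).imp (fun h => by omega)
    have hS : ∀ x y : ℤ, ∀ n : ℕ, (walk (x, y) (List.replicate n Dir.S)).Pairwise
        (fun p q => ¬ (q.1 < p.1 ∧ q.2 < p.2)) := fun x y n =>
      (pairwise_S x y n).imp (fun h => by omega)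
    rw [walk_Q_succ]
    simp only [List.pairwise_append, List.mem_append]
    have B1 := box_Q l x y
    have B2 := box_W (x + 2 ^ l) (y + 2 ^ l) (2 ^ l)
    have B3 := box_Q l x (y + 2 ^ l)
    have B4 := box_S (x + 2 ^ l) (y + 2 * 2 ^ l) (2 * 2 ^ l)
    have B5 := box_Q l (x + 2 ^ l) y
    have B6 := box_W (x + 2 * 2 ^ l) (y + 2 ^ l) (2 ^ l)
    have B7 := box_Q l (x + 2 ^ l) (y + 2 ^ l)
    push_cast at B2 B4 B6
    refine ⟨ih _ _, ⟨hW _ _ _, ⟨ih _ _, ⟨hS _ _ _, ⟨ih _ _, ⟨hW _ _ _, ih _ _, ?_⟩, ?_⟩, ?_⟩,
      ?_⟩, ?_⟩, ?_⟩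
    · intro p hp q hq
      have := B6 p hp; have := B7 q hq; omega
    · intro p hp q hq
      have := B5 p hp
      rcases hq with hq | hq
      · have := B6 q hq; omega
      · have := B7 q hq; omega
    · intro p hp q hq
      have := B4 p hp
      rcases hq with hq | hq | hq
      · have := B5 q hq; omega
      · have := B6 q hq; omega
      · have := B7 q hq; omega
    · intro p hp q hq
      have := B3 p hp
      rcases hq with hq | hq | hq | hq
      · have := B4 q hq; omega
      · have := B5 q hq; omega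
      · have := B6 q hq; omega
      · have := B7 q hq; omega
    · intro p hp q hq
      have := B2 p hp
      rcases hq with hq | hq | hq | hq | hq
      · have := B3 q hq; omega
      · have := B4 q hq; omega
      · have := B5 q hq; omega
      · have := B6 q hq; omega
      · have := B7 q hq; omega
    · intro p hp q hq
      have := B1 p hp
      rcases hq with hq | hq | hq | hq | hq | hq
      · have := B2 q hq; omega
      · have := B3 q hq; omega
      · have := B4 q hq; omega
      · have := B5 q hq; omega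
      · have := B6 q hq; omega
      · have := B7 q hq; omega

/-! ### The numeric bound -/

/-- binary logarithm of an integer -/
def lg (z : ℤ) : ℕ := Nat.log 2 z.toNat

theorem lg_le {z : ℤ} {l : ℕ} (h : z < 2 ^ (l + 1)) : lg z ≤ l := by
  have : z.toNat < 2 ^ (l + 1) := by
    have h0 : (0 : ℤ) < 2 ^ (l + 1) := by positivity
    zify
    rw [Int.toNat_eq_max]
    exact max_lt h h0
  exact Nat.lt_succ_iff.1 (Nat.log_lt_of_lt_pow' (by omega) this)

theorem le_lg {z : ℤ} {l : ℕ} (h : 2 ^ l ≤ z) : l ≤ lg z := by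
  have : 2 ^ l ≤ z.toNat := by
    zify
    rw [Int.toNat_eq_max]
    exact h.trans (le_max_left _ _)
  exact Nat.le_log_of_pow_le (by omega) this

/-- bound for the number of alternations on a square of side `2^l` -/
def G (l : ℕ) (z : ℤ) : ℕ :=
  if z ≤ 0 then 2 + 6 * (l - lg (-z))
  else if 2 ^ l ≤ z then 2 + 6 * (l - lg (z - 2 ^ l))
  else 2 + 6 * (lg z + lg (2 ^ l - z)) + 6 * l

theorem two_le_G (l : ℕ) (z : ℤ) : 2 ≤ G l z := by
  unfold G
  split_ifs <;> omega

theorem G_le (l : ℕ) (z : ℤ) : G l z ≤ 18 * l + 2 := by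
  unfold G
  split_ifs with h1 h2
  · omega
  · omega
  · have a1 : lg z ≤ l := lg_le (by rw [pow_succ]; omega)
    have a2 : lg (2 ^ l - z) ≤ l := lg_le (by rw [pow_succ]; omega)
    omega

theorem G_step (l : ℕ) (z : ℤ) (h1 : -(2 ^ (l + 1)) < z) (h2 : z < 2 * 2 ^ (l + 1)) :
    G l z + G l (z - 2 ^ l) + 4 ≤ G (l + 1) z := by
  have hb : (0 : ℤ) < 2 ^ l := by positivity
  have hb2 : (2 : ℤ) ^ (l + 1) = 2 * 2 ^ l := by ring
  have l0 : lg 0 = 0 := by simp [lg]
  rcases le_or_gt z 0 with hz | hz
  · -- below
    have e1 : G l z = 2 + 6 * (l - lg (-z)) := by rw [G, if_pos hz]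
    have e2 : G l (z - 2 ^ l) = 2 + 6 * (l - lg (-(z - 2 ^ l))) := by
      rw [G, if_pos (by omega)]
    have e3 : G (l + 1) z = 2 + 6 * (l + 1 - lg (-z)) := by rw [G, if_pos hz]
    have a1 : lg (-z) ≤ l := lg_le (by omega)
    have a2 : l ≤ lg (-(z - 2 ^ l)) := le_lg (by omega)
    omega
  · rcases lt_trichotomy z (2 ^ l) with hz2 | hz2 | hz2
    · have e1 : G l z = 2 + 6 * (lg z + lg (2 ^ l - z)) + 6 * l := by
        rw [G, if_neg (by omega), if_neg (by omega)]
      have e2 : G l (z - 2 ^ l) = 2 + 6 * (l - lg (-(z - 2 ^ l))) := by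
        rw [G, if_pos (by omega)]
      have e3 : G (l + 1) z = 2 + 6 * (lg z + lg (2 ^ (l + 1) - z)) + 6 * (l + 1) := by
        rw [G, if_neg (by omega), if_neg (by omega)]
      have e4 : -(z - 2 ^ l) = 2 ^ l - z := by ring
      have a1 : lg (2 ^ l - z) ≤ l := lg_le (by omega)
      have a2 : l ≤ lg (2 ^ (l + 1) - z) := le_lg (by omega)
      rw [e4] at e2
      omega
    · have e1 : G l z = 2 + 6 * (l - lg (z - 2 ^ l)) := by
        rw [G, if_neg (by omega), if_pos (by omega)]
      have e2 : G l (z - 2 ^ l) = 2 + 6 * (l - lg (-(z - 2 ^ l))) := by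
        rw [G, if_pos (by omega)]
      have e3 : G (l + 1) z = 2 + 6 * (lg z + lg (2 ^ (l + 1) - z)) + 6 * (l + 1) := by
        rw [G, if_neg (by omega), if_neg (by omega)]
      have a1 : l ≤ lg z := le_lg (by omega)
      have a2 : l ≤ lg (2 ^ (l + 1) - z) := le_lg (by omega)
      omega
    · rcases lt_or_ge z (2 ^ (l + 1)) with hz3 | hz3
      · have e1 : G l z = 2 + 6 * (l - lg (z - 2 ^ l)) := by
          rw [G, if_neg (by omega), if_pos (by omega)]
        have e2 : G l (z - 2 ^ l) = 2 + 6 * (lg (z - 2 ^ l) + lg (2 ^ l - (z - 2 ^ l))) + 6 * l := by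
          rw [G, if_neg (by omega), if_neg (by omega)]
        have e3 : G (l + 1) z = 2 + 6 * (lg z + lg (2 ^ (l + 1) - z)) + 6 * (l + 1) := by
          rw [G, if_neg (by omega), if_neg (by omega)]
        have e4 : (2 : ℤ) ^ l - (z - 2 ^ l) = 2 ^ (l + 1) - z := by rw [hb2]; ring
        have a1 : l ≤ lg z := le_lg (by omega)
        have a2 : lg (z - 2 ^ l) ≤ l := lg_le (by omega)
        rw [e4] at e2
        omega
      · have e1 : G l z = 2 + 6 * (l - lg (z - 2 ^ l)) := by
          rw [G, if_neg (by omega), if_pos (by omega)]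
        have e2 : G l (z - 2 ^ l) = 2 + 6 * (l - lg (z - 2 ^ l - 2 ^ l)) := by
          rw [G, if_neg (by omega), if_pos (by omega)]
        have e3 : G (l + 1) z = 2 + 6 * (l + 1 - lg (z - 2 ^ (l + 1))) := by
          rw [G, if_neg (by omega), if_pos (by omega)]
        have e4 : z - 2 ^ l - 2 ^ l = z - 2 ^ (l + 1) := by rw [hb2]; ring
        have a1 : l ≤ lg (z - 2 ^ l) := le_lg (by omega)
        have a2 : lg (z - 2 ^ (l + 1)) ≤ l := lg_le (by omega)
        rw [e4] at e2
        omega

/-! ### Columns and rows -/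

/-- column query -/
def colf (i k : ℤ) (p : ℤ × ℤ) : ℤ :=
  (if i < p.1 then 1 else 0) - (if k < p.2 - p.1 then 1 else 0)

/-- row query -/
def rowf (j k : ℤ) (p : ℤ × ℤ) : ℤ :=
  (if p.2 ≤ j then 1 else 0) - (if k < p.2 - p.1 then 1 else 0)

theorem colf_nonneg_of {i k : ℤ} {p : ℤ × ℤ} (h : i < p.1 ∨ p.2 - p.1 ≤ k) :
    0 ≤ colf i k p := by
  unfold colf
  split_ifs <;> omega

theorem colf_nonpos_of {i k : ℤ} {p : ℤ × ℤ} (h : p.1 ≤ i ∨ k < p.2 - p.1) :
    colf i k p ≤ 0 := by
  unfold colf
  split_ifs <;> omega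

theorem rowf_nonneg_of {j k : ℤ} {p : ℤ × ℤ} (h : p.2 ≤ j ∨ p.2 - p.1 ≤ k) :
    0 ≤ rowf j k p := by
  unfold rowf
  split_ifs <;> omega

theorem rowf_nonpos_of {j k : ℤ} {p : ℤ × ℤ} (h : j < p.2 ∨ k < p.2 - p.1) :
    rowf j k p ≤ 0 := by
  unfold rowf
  split_ifs <;> omega

theorem colf_W (i k x y : ℤ) (n : ℕ) :
    AL (colf i k) 2 (walk (x, y) (List.replicate n .W)) := by
  apply AL.of_antitone
  refine (pairwise_W x y n).imp ?_
  intro p q h
  unfold colf
  split_ifs <;> omega

theorem rowf_S (j k x y : ℤ) (n : ℕ) :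
    AL (rowf j k) 2 (walk (x, y) (List.replicate n .S)) := by
  have : AL (fun p => - rowf j k p) 2 (walk (x, y) (List.replicate n .S)) := by
    apply AL.of_antitone
    refine (pairwise_S x y n).imp ?_
    intro p q h
    unfold rowf
    split_ifs <;> omega
  simpa using this.neg

theorem col_Q (l : ℕ) : ∀ x y i k : ℤ, x ≤ i → i < x + 2 ^ l →
    AL (colf i k) (G l (i + k + 1 - y)) (walk (x, y) (Q l)) := by
  induction l with
  | zero =>
    intro x y i k _ _
    have := AL.length (f := colf i k) (walk (x, y) (Q 0))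
    refine this.mono ?_
    rw [length_walk]
    exact two_le_G _ _
  | succ l ih =>
    intro x y i k hx hx'
    have hb : (0 : ℤ) < 2 ^ l := by positivity
    have hb2 : (2 : ℤ) ^ (l + 1) = 2 * 2 ^ l := by ring
    have hbox := box_Q (l + 1) x y
    by_cases h1 : i + k + 1 - y ≤ -(2 ^ (l + 1))
    · refine AL.mono (AL.of_nonpos ?_) (le_trans (by omega) (two_le_G _ _))
      intro q hq
      have := hbox q hq
      exact colf_nonpos_of (by omega)
    by_cases h2 : 2 * 2 ^ (l + 1) ≤ i + k + 1 - y
    · refine AL.mono (AL.of_nonneg ?_) (le_trans (by omega) (two_le_G _ _))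
      intro q hq
      have := hbox q hq
      exact colf_nonneg_of (by omega)
    have hG := G_step l (i + k + 1 - y) (by omega) (by omega)
    rw [walk_Q_succ]
    have B1 := box_Q l x y
    have B2 := box_W (x + 2 ^ l) (y + 2 ^ l) (2 ^ l)
    have B3 := box_Q l x (y + 2 ^ l)
    have B4 := box_S (x + 2 ^ l) (y + 2 * 2 ^ l) (2 * 2 ^ l)
    have B5 := box_Q l (x + 2 ^ l) y
    have B6 := box_W (x + 2 * 2 ^ l) (y + 2 ^ l) (2 ^ l)
    have B7 := box_Q l (x + 2 ^ l) (y + 2 ^ l)
    push_cast at B2 B4 B6
    rcases lt_or_ge i (x + 2 ^ l) with hi | hi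
    · have A1 := ih x y i k hx hi
      have A2 := colf_W i k (x + 2 ^ l) (y + 2 ^ l) (2 ^ l)
      have A3 := ih x (y + 2 ^ l) i k hx hi
      rw [show i + k + 1 - (y + 2 ^ l) = i + k + 1 - y - 2 ^ l by ring] at A3
      have A4 : AL (colf i k) 1
          (walk (x + 2 ^ l, y + 2 * 2 ^ l) (List.replicate (2 * 2 ^ l) .S) ++
          (walk (x + 2 ^ l, y) (Q l) ++
          (walk (x + 2 * 2 ^ l, y + 2 ^ l) (List.replicate (2 ^ l) .W) ++
          walk (x + 2 ^ l, y + 2 ^ l) (Q l)))) := by
        apply AL.of_nonneg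
        intro q hq
        apply colf_nonneg_of
        simp only [List.mem_append] at hq
        rcases hq with h | h | h | h
        · have := B4 q h; omega
        · have := B5 q h; omega
        · have := B6 q h; omega
        · have := B7 q h; omega
      exact (A1.append (A2.append (A3.append A4))).mono (by omega)
    · have A1 : AL (colf i k) 1
          (walk (x, y) (Q l) ++ (walk (x + 2 ^ l, y + 2 ^ l) (List.replicate (2 ^ l) .W) ++
          (walk (x, y + 2 ^ l) (Q l) ++
          (walk (x + 2 ^ l, y + 2 * 2 ^ l) (List.replicate (2 * 2 ^ l) .S))))) := by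
        apply AL.of_nonpos
        intro q hq
        apply colf_nonpos_of
        simp only [List.mem_append] at hq
        rcases hq with h | h | h | h
        · have := B1 q h; omega
        · have := B2 q h; omega
        · have := B3 q h; omega
        · have := B4 q h; omega
      have A2 := ih (x + 2 ^ l) y i k hi (by omega)
      have A3 := colf_W i k (x + 2 * 2 ^ l) (y + 2 ^ l) (2 ^ l)
      have A4 := ih (x + 2 ^ l) (y + 2 ^ l) i k hi (by omega)
      rw [show i + k + 1 - (y + 2 ^ l) = i + k + 1 - y - 2 ^ l by ring] at A4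
      have := (A1.append (A2.append (A3.append A4))).mono (t := G (l + 1) (i + k + 1 - y))
        (by omega)
      simpa only [List.append_assoc] using this

theorem row_Q (l : ℕ) : ∀ x y j k : ℤ, y ≤ j → j < y + 2 ^ l →
    AL (rowf j k) (G l (j - k - x)) (walk (x, y) (Q l)) := by
  induction l with
  | zero =>
    intro x y j k _ _
    have := AL.length (f := rowf j k) (walk (x, y) (Q 0))
    refine this.mono ?_
    rw [length_walk]
    exact two_le_G _ _
  | succ l ih =>
    intro x y j k hy hy'
    have hb : (0 : ℤ) < 2 ^ l := by positivity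
    have hb2 : (2 : ℤ) ^ (l + 1) = 2 * 2 ^ l := by ring
    have hbox := box_Q (l + 1) x y
    by_cases h1 : j - k - x ≤ -(2 ^ (l + 1))
    · refine AL.mono (AL.of_nonneg ?_) (le_trans (by omega) (two_le_G _ _))
      intro q hq
      have := hbox q hq
      exact rowf_nonneg_of (by omega)
    by_cases h2 : 2 * 2 ^ (l + 1) ≤ j - k - x
    · refine AL.mono (AL.of_nonpos ?_) (le_trans (by omega) (two_le_G _ _))
      intro q hq
      have := hbox q hq
      exact rowf_nonpos_of (by omega)
    have hG := G_step l (j - k - x) (by omega) (by omega)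
    rw [walk_Q_succ]
    have B1 := box_Q l x y
    have B2 := box_W (x + 2 ^ l) (y + 2 ^ l) (2 ^ l)
    have B3 := box_Q l x (y + 2 ^ l)
    have B4 := box_S (x + 2 ^ l) (y + 2 * 2 ^ l) (2 * 2 ^ l)
    have B5 := box_Q l (x + 2 ^ l) y
    have B6 := box_W (x + 2 * 2 ^ l) (y + 2 ^ l) (2 ^ l)
    have B7 := box_Q l (x + 2 ^ l) (y + 2 ^ l)
    push_cast at B2 B4 B6
    rcases lt_or_ge j (y + 2 ^ l) with hj | hj
    · have A1 := ih x y j k hy hj
      have A2 : AL (rowf j k) 1
          (walk (x + 2 ^ l, y + 2 ^ l) (List.replicate (2 ^ l) .W) ++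
          walk (x, y + 2 ^ l) (Q l)) := by
        apply AL.of_nonpos
        intro q hq
        apply rowf_nonpos_of
        simp only [List.mem_append] at hq
        rcases hq with h | h
        · have := B2 q h; omega
        · have := B3 q h; omega
      have A3 := rowf_S j k (x + 2 ^ l) (y + 2 * 2 ^ l) (2 * 2 ^ l)
      have A4 := ih (x + 2 ^ l) y j k hy hj
      rw [show j - k - (x + 2 ^ l) = j - k - x - 2 ^ l by ring] at A4
      have A5 : AL (rowf j k) 1
          (walk (x + 2 * 2 ^ l, y + 2 ^ l) (List.replicate (2 ^ l) .W) ++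
          walk (x + 2 ^ l, y + 2 ^ l) (Q l)) := by
        apply AL.of_nonpos
        intro q hq
        apply rowf_nonpos_of
        simp only [List.mem_append] at hq
        rcases hq with h | h
        · have := B6 q h; omega
        · have := B7 q h; omega
      have := (A1.append (A2.append (A3.append (A4.append A5)))).mono
        (t := G (l + 1) (j - k - x)) (by omega)
      simpa only [List.append_assoc] using this
    · have A1 : AL (rowf j k) 1
          (walk (x, y) (Q l) ++
          walk (x + 2 ^ l, y + 2 ^ l) (List.replicate (2 ^ l) .W)) := by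
        apply AL.of_nonneg
        intro q hq
        apply rowf_nonneg_of
        simp only [List.mem_append] at hq
        rcases hq with h | h
        · have := B1 q h; omega
        · have := B2 q h; omega
      have A2 := ih x (y + 2 ^ l) j k hj (by omega)
      have A3 := rowf_S j k (x + 2 ^ l) (y + 2 * 2 ^ l) (2 * 2 ^ l)
      have A4 : AL (rowf j k) 1
          (walk (x + 2 ^ l, y) (Q l) ++
          walk (x + 2 * 2 ^ l, y + 2 ^ l) (List.replicate (2 ^ l) .W)) := by
        apply AL.of_nonneg
        intro q hq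
        apply rowf_nonneg_of
        simp only [List.mem_append] at hq
        rcases hq with h | h
        · have := B5 q h; omega
        · have := B6 q h; omega
      have A5 := ih (x + 2 ^ l) (y + 2 ^ l) j k hj (by omega)
      rw [show j - k - (x + 2 ^ l) = j - k - x - 2 ^ l by ring] at A5
      have := (A1.append (A2.append (A3.append (A4.append A5)))).mono
        (t := G (l + 1) (j - k - x)) (by omega)
      simpa only [List.append_assoc] using this

end LevelLower
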