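import Pool.Agent.LevelLower.Path

/-!
# Square paths with sweeps, with exact numbers of alternations
-/

namespace LevelLower

/-! ### The counting function -/

/-- exact bound for the number of alternations (parity odd) -/
def cn (a : ℕ) (σ : Bool) : ℕ → ℤ → ℤ → ℕ
  | 0, _, k => if k = 0 then 2 * a + 1 else 1
  | l + 1, i, k => if k < -(2 ^ (l + 1)) ∨ 2 ^ (l + 1) ≤ k then 1 else
      cn a σ l (if i < 2 ^ l then i else i - 2 ^ l) k +
      cn a σ l (if i < 2 ^ l then i else i - 2 ^ l)
        (if decide (i < 2 ^ l) = σ then k - 2 ^ l else k + 2 ^ l) + 1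

theorem cn_pos (a : ℕ) (σ : Bool) (l : ℕ) (i k : ℤ) : 1 ≤ cn a σ l i k := by
  cases l with
  | zero => unfold cn; split_ifs <;> omega
  | succ l => unfold cn; split_ifs <;> omega

theorem cn_odd (a : ℕ) (σ : Bool) (l : ℕ) (i k : ℤ) : Odd (cn a σ l i k) := by
  induction l generalizing i k with
  | zero =>
    unfold cn
    split_ifs
    · exact ⟨a, rfl⟩
    · exact odd_one
  | succ l ih =>
    rw [cn]
    split
    · exact odd_one
    · exact ((ih _ _).add_odd (ih _ _)).add_one

theorem cn_triv (a : ℕ) (σ : Bool) (l : ℕ) (i k : ℤ) (h : k < -(2 ^ l) ∨ 2 ^ l ≤ k) :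
    cn a σ l i k = 1 := by
  cases l with
  | zero =>
    unfold cn
    rw [if_neg]
    rintro rfl
    simp at h
  | succ l =>
    rw [cn, if_pos h]

theorem cn_le_of_pair {a : ℕ} {σ : Bool} {l : ℕ}
    (h : ∀ i k, cn a σ l i k + cn a σ l i (k + 2 ^ l) ≤ 2 * a + 2 + 4 * l) (i k : ℤ) :
    cn a σ (l + 1) i k ≤ 2 * a + 4 * l + 3 := by
  rw [cn]
  split
  · omega
  · obtain ⟨i', hi'⟩ : ∃ i', i' = (if i < 2 ^ l then i else i - 2 ^ l) := ⟨_, rfl⟩
    rw [← hi']
    split
    · have := h i' (k - 2 ^ l)
      rw [sub_add_cancel] at this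
      omega
    · have := h i' k
      omega

theorem cn_pair (a : ℕ) (σ : Bool) (l : ℕ) :
    ∀ i k, cn a σ l i k + cn a σ l i (k + 2 ^ l) ≤ 2 * a + 2 + 4 * l := by
  induction l with
  | zero =>
    intro i k
    unfold cn
    simp only [pow_zero]
    split_ifs <;> omega
  | succ l ih =>
    intro i k
    have hb : (0 : ℤ) < 2 ^ l := by positivity
    have hb2 : (2 : ℤ) ^ (l + 1) = 2 * 2 ^ l := by ring
    have hle := cn_le_of_pair ih
    by_cases h1 : k < -(2 ^ (l + 1)) ∨ 2 ^ (l + 1) ≤ k
    · rw [cn_triv a σ (l + 1) i k h1]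
      have := hle i (k + 2 ^ (l + 1))
      omega
    by_cases h2 : k + 2 ^ (l + 1) < -(2 ^ (l + 1)) ∨ 2 ^ (l + 1) ≤ k + 2 ^ (l + 1)
    · rw [cn_triv a σ (l + 1) i (k + 2 ^ (l + 1)) h2]
      have := hle i k
      omega
    rw [cn, if_neg h1, cn, if_neg h2]
    obtain ⟨i', hi'⟩ : ∃ i', i' = (if i < 2 ^ l then i else i - 2 ^ l) := ⟨_, rfl⟩
    rw [← hi']
    by_cases h3 : decide (i < 2 ^ l) = σ
    · rw [if_pos h3, if_pos h3]
      have e1 : cn a σ l i' (k - 2 ^ l) = 1 := cn_triv _ _ _ _ _ (by omega)
      have e2 : k + 2 ^ (l + 1) - 2 ^ l = k + 2 ^ l := by rw [hb2]; ring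
      rw [e1, e2]
      rcases lt_or_ge k (-(2 ^ l)) with h4 | h4
      · have e3 : cn a σ l i' k = 1 := cn_triv _ _ _ _ _ (Or.inl h4)
        have := ih i' (k + 2 ^ l)
        have e4 : k + 2 ^ l + 2 ^ l = k + 2 ^ (l + 1) := by rw [hb2]; ring
        rw [e4] at this
        omega
      · have e3 : cn a σ l i' (k + 2 ^ (l + 1)) = 1 := cn_triv _ _ _ _ _ (by omega)
        have := ih i' k
        omega
    · rw [if_neg h3, if_neg h3]
      have e1 : cn a σ l i' (k + 2 ^ (l + 1) + 2 ^ l) = 1 := cn_triv _ _ _ _ _ (by omega)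
      rw [e1]
      rcases lt_or_ge k (-(2 ^ l)) with h4 | h4
      · have e3 : cn a σ l i' k = 1 := cn_triv _ _ _ _ _ (Or.inl h4)
        have := ih i' (k + 2 ^ l)
        have e4 : k + 2 ^ l + 2 ^ l = k + 2 ^ (l + 1) := by rw [hb2]; ring
        rw [e4] at this
        omega
      · have e3 : cn a σ l i' (k + 2 ^ (l + 1)) = 1 := cn_triv _ _ _ _ _ (by omega)
        have := ih i' k
        omega

theorem cn_le (a : ℕ) (σ : Bool) (l : ℕ) (hl : 1 ≤ l) (i k : ℤ) :
    cn a σ l i k ≤ 4 * l + 2 * a - 1 := by
  obtain ⟨l, rfl⟩ : ∃ l', l = l' + 1 := ⟨l - 1, by omega⟩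
  have := cn_le_of_pair (cn_pair a σ l) i k
  omega

/-! ### The path -/

/-- The square path with `2 a + 1` sweeps in each cell. -/
def Q2 (a : ℕ) : ℕ → List Dir
  | 0 => .N :: ((List.replicate a [Dir.S, .N]).flatten ++
      .E :: (List.replicate a [Dir.W, .E]).flatten)
  | l + 1 => Q2 a l ++ (List.replicate (2 ^ l) .W ++ (Q2 a l ++ (List.replicate (2 * 2 ^ l) .S ++
      (Q2 a l ++ (List.replicate (2 ^ l) .W ++ Q2 a l)))))

theorem flat_succ {α : Type*} (a : ℕ) (L : List α) :
    (List.replicate (a + 1) L).flatten = L ++ (List.replicate a L).flatten := by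
  simp [List.replicate_succ]

theorem run_SN (a : ℕ) (x y : ℤ) :
    run (x, y + 1) (List.replicate a [Dir.S, .N]).flatten = (x, y + 1) := by
  induction a with
  | zero => simp [run]
  | succ a ih =>
    rw [flat_succ, run_append]
    simpa [run, mv] using ih

theorem walk_SN (a : ℕ) (x y : ℤ) :
    walk (x, y + 1) (List.replicate a [Dir.S, .N]).flatten =
      (List.replicate a [(x, y + 1), (x, y)]).flatten := by
  induction a with
  | zero => simp [walk]
  | succ a ih =>
    rw [flat_succ, walk_append, flat_succ, ← ih]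
    simp [run, mv, walk]

theorem run_WE (a : ℕ) (x y : ℤ) :
    run (x + 1, y) (List.replicate a [Dir.W, .E]).flatten = (x + 1, y) := by
  induction a with
  | zero => simp [run]
  | succ a ih =>
    rw [flat_succ, run_append]
    simpa [run, mv] using ih

theorem walk_WE (a : ℕ) (x y : ℤ) :
    walk (x + 1, y) (List.replicate a [Dir.W, .E]).flatten =
      (List.replicate a [(x + 1, y), (x, y)]).flatten := by
  induction a with
  | zero => simp [walk]
  | succ a ih =>
    rw [flat_succ, walk_append, flat_succ, ← ih]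
    simp [run, mv, walk]

theorem walk_Q2_zero (a : ℕ) (x y : ℤ) : walk (x, y) (Q2 a 0) =
    (x, y) :: ((List.replicate a [(x, y + 1), (x, y)]).flatten ++
      (x, y + 1) :: (List.replicate a [(x + 1, y + 1), (x, y + 1)]).flatten) := by
  rw [Q2, walk]
  simp only [mv]
  rw [walk_append, walk_SN, run_SN, walk]
  simp only [mv]
  rw [walk_WE]

theorem mem_flat {α : Type*} {a : ℕ} {p q z : α} (h : z ∈ (List.replicate a [p, q]).flatten) :
    z = p ∨ z = q := by
  rw [List.mem_flatten] at h
  obtain ⟨L, hL, hz⟩ := h
  rw [List.eq_of_mem_replicate hL] at hz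
  simpa using hz

theorem run_Q2 (a l : ℕ) (x y : ℤ) : run (x, y) (Q2 a l) = (x + 2 ^ l, y + 2 ^ l) := by
  induction l generalizing x y with
  | zero =>
    rw [Q2, run]
    simp only [mv]
    rw [run_append, run_SN, run]
    simp only [mv]
    rw [run_WE]
    simp
  | succ l ih =>
    simp only [Q2, run_append, ih, run_rep_W, run_rep_S]
    push_cast
    rw [pow_succ]
    refine Prod.ext ?_ ?_ <;> simp only <;> ring

theorem walk_Q2_succ (a l : ℕ) (x y : ℤ) : walk (x, y) (Q2 a (l + 1)) =
    walk (x, y) (Q2 a l) ++ (walk (x + 2 ^ l, y + 2 ^ l) (List.replicate (2 ^ l) .W) ++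
    (walk (x, y + 2 ^ l) (Q2 a l) ++
    (walk (x + 2 ^ l, y + 2 * 2 ^ l) (List.replicate (2 * 2 ^ l) .S) ++
    (walk (x + 2 ^ l, y) (Q2 a l) ++
    (walk (x + 2 * 2 ^ l, y + 2 ^ l) (List.replicate (2 ^ l) .W) ++
    walk (x + 2 ^ l, y + 2 ^ l) (Q2 a l)))))) := by
  rw [Q2, walk_append, walk_append, walk_append, walk_append, walk_append, walk_append]
  simp only [run_Q2, run_rep_W, run_rep_S]
  push_cast
  have e1 : x + 2 ^ l - 2 ^ l = x := by ring
  have e2 : y + 2 ^ l + 2 ^ l = y + 2 * 2 ^ l := by ring
  have e3 : y + 2 * 2 ^ l - 2 * 2 ^ l = y := by ring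
  have e4 : x + 2 ^ l + 2 ^ l = x + 2 * 2 ^ l := by ring
  have e5 : x + 2 * 2 ^ l - 2 ^ l = x + 2 ^ l := by ring
  simp only [e1, e2, e3, e4, e5]

theorem length_flat {α : Type*} (a : ℕ) (p q : α) :
    (List.replicate a [p, q]).flatten.length = 2 * a := by
  simp [mul_comm]

theorem length_Q2 (a l : ℕ) : (Q2 a l).length + 2 * 2 ^ l = 4 ^ l * (4 * a + 4) := by
  induction l with
  | zero =>
    rw [Q2, List.length_cons, List.length_append, List.length_cons, length_flat, length_flat]
    ring
  | succ l ih =>
    simp only [Q2, List.length_append, List.length_replicate]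
    rw [pow_succ, pow_succ 4 l]
    linarith

theorem box_Q2 (a l : ℕ) (x y : ℤ) : ∀ q ∈ walk (x, y) (Q2 a l),
    x ≤ q.1 ∧ q.1 ≤ x + 2 ^ l ∧ y ≤ q.2 ∧ q.2 ≤ y + 2 ^ l := by
  induction l generalizing x y with
  | zero =>
    intro q hq
    rw [walk_Q2_zero, List.mem_cons, List.mem_append, List.mem_cons] at hq
    rw [pow_zero]
    rcases hq with rfl | h | rfl | h
    · simp
    · rcases mem_flat h with rfl | rfl <;> simp
    · simp
    · rcases mem_flat h with rfl | rfl <;> simp
  | succ l ih =>
    intro q hq
    have hb : (0 : ℤ) < 2 ^ l := by positivity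
    rw [walk_Q2_succ] at hq
    simp only [List.mem_append] at hq
    rw [pow_succ]
    rcases hq with h | h | h | h | h | h | h
    · have := ih _ _ q h; omega
    · have := box_W _ _ _ q h; push_cast at this; omega
    · have := ih _ _ q h; omega
    · have := box_S _ _ _ q h; push_cast at this; omega
    · have := ih _ _ q h; omega
    · have := box_W _ _ _ q h; push_cast at this; omega
    · have := ih _ _ q h; omega

/-- no later position is strictly south-west of an earlier one -/
theorem sw_Q2 (a l : ℕ) (x y : ℤ) :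
    (walk (x, y) (Q2 a l)).Pairwise (fun p q => ¬ (q.1 < p.1 ∧ q.2 < p.2)) := by
  induction l generalizing x y with
  | zero =>
    rw [walk_Q2_zero]
    have h1 : ∀ q ∈ (x, y) :: (List.replicate a [(x, y + 1), (x, y)]).flatten,
        q.1 = x ∧ q.2 ≤ y + 1 := by
      intro q hq
      rcases List.mem_cons.1 hq with rfl | h
      · simp
      · rcases mem_flat h with rfl | rfl <;> simp
    have h2 : ∀ q ∈ (x, y + 1) :: (List.replicate a [(x + 1, y + 1), (x, y + 1)]).flatten,
        q.2 = y + 1 := by
      intro q hq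
      rcases List.mem_cons.1 hq with rfl | h
      · simp
      · rcases mem_flat h with rfl | rfl <;> simp
    rw [← List.cons_append, List.pairwise_append]
    refine ⟨List.Pairwise.imp_of_mem (R := fun _ _ => True) (fun {p q} hp hq _ => ?_)
      (List.pairwise_of_forall (fun _ _ => trivial)),
      List.Pairwise.imp_of_mem (R := fun _ _ => True) (fun {p q} hp hq _ => ?_)
      (List.pairwise_of_forall (fun _ _ => trivial)), fun p hp q hq => ?_⟩
    · have := h1 p hp; have := h1 q hq; omega
    · have := h2 p hp; have := h2 q hq; omega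
    · have := h1 p hp; have := h2 q hq; omega
  | succ l ih =>
    have hb : (0 : ℤ) < 2 ^ l := by positivity
    have hW : ∀ x y : ℤ, ∀ n : ℕ, (walk (x, y) (List.replicate n Dir.W)).Pairwise
        (fun p q => ¬ (q.1 < p.1 ∧ q.2 < p.2)) := fun x y n =>
      (pairwise_W x y n).imp (fun h => by omega)
    have hS : ∀ x y : ℤ, ∀ n : ℕ, (walk (x, y) (List.replicate n Dir.S)).Pairwise
        (fun p q => ¬ (q.1 < p.1 ∧ q.2 < p.2)) := fun x y n =>
      (pairwise_S x y n).imp (fun h => by omega)
    rw [walk_Q2_succ]
    simp only [List.pairwise_append, List.mem_append]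
    have B1 := box_Q2 a l x y
    have B2 := box_W (x + 2 ^ l) (y + 2 ^ l) (2 ^ l)
    have B3 := box_Q2 a l x (y + 2 ^ l)
    have B4 := box_S (x + 2 ^ l) (y + 2 * 2 ^ l) (2 * 2 ^ l)
    have B5 := box_Q2 a l (x + 2 ^ l) y
    have B6 := box_W (x + 2 * 2 ^ l) (y + 2 ^ l) (2 ^ l)
    have B7 := box_Q2 a l (x + 2 ^ l) (y + 2 ^ l)
    push_cast at B2 B4 B6
    refine ⟨ih _ _, ⟨hW _ _ _, ⟨ih _ _, ⟨hS _ _ _, ⟨ih _ _, ⟨hW _ _ _, ih _ _, ?_⟩, ?_⟩, ?_⟩,
      ?_⟩, ?_⟩, ?_⟩
    · intro p hp q hq
      have := B6 p hp; have := B7 q hq; omega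
    · intro p hp q hq
      have := B5 p hp
      rcases hq with hq | hq
      · have := B6 q hq; omega
      · have := B7 q hq; omega
    · intro p hp q hq
      have := B4 p hp
      rcases hq with hq | hq | hq
      · have := B5 q hq; omega
      · have := B6 q hq; omega
      · have := B7 q hq; omega
    · intro p hp q hq
      have := B3 p hp
      rcases hq with hq | hq | hq | hq
      · have := B4 q hq; omega
      · have := B5 q hq; omega
      · have := B6 q hq; omega
      · have := B7 q hq; omega
    · intro p hp q hq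
      have := B2 p hp
      rcases hq with hq | hq | hq | hq | hq
      · have := B3 q hq; omega
      · have := B4 q hq; omega
      · have := B5 q hq; omega
      · have := B6 q hq; omega
      · have := B7 q hq; omega
    · intro p hp q hq
      have := B1 p hp
      rcases hq with hq | hq | hq | hq | hq | hq
      · have := B2 q hq; omega
      · have := B3 q hq; omega
      · have := B4 q hq; omega
      · have := B5 q hq; omega
      · have := B6 q hq; omega
      · have := B7 q hq; omega

/-! ### Certificates -/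

variable {α : Type*} {f : α → ℤ}

theorem AC.zigzag {p₁ p₂ : α} {q : ℕ} (h1 : 0 ≤ (-1) ^ (q + 1) * f p₁)
    (h2 : 0 ≤ (-1) ^ q * f p₂) (a : ℕ) :
    AC f q (q + 2 * a) (List.replicate a [p₁, p₂]).flatten := by
  induction a generalizing q with
  | zero => simpa using AC.nil (f := f) (le_refl q)
  | succ a ih =>
    rw [flat_succ]
    have e : (-1 : ℤ) ^ (q + 2) = (-1) ^ q := by rw [pow_add]; norm_num
    have e' : (-1 : ℤ) ^ (q + 2 + 1) = (-1) ^ (q + 1) := by
      rw [pow_succ, e, ← pow_succ]
    refine .cons (a' := q + 1) (by omega) h1 (.cons (a' := q + 2) (by omega)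
      (by rw [e]; exact h2) ?_)
    have := ih (q := q + 2) (by rw [e']; exact h1) (by rw [e]; exact h2)
    rwa [show q + 2 + 2 * a = q + 2 * (a + 1) by ring] at this

theorem AC.const_nonneg {q : ℕ} (hq : Even q) {L : List α} (h : ∀ z ∈ L, 0 ≤ f z) :
    AC f q q L :=
  AC.const le_rfl le_rfl (fun z hz => by rw [hq.neg_one_pow, one_mul]; exact h z hz)

theorem AC.const_nonpos {q : ℕ} (hq : Odd q) {L : List α} (h : ∀ z ∈ L, f z ≤ 0) :
    AC f q q L :=
  AC.const le_rfl le_rfl (fun z hz => by rw [hq.neg_one_pow]; have := h z hz; omega)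

/-- going down once, starting in an even phase -/
theorem AC.of_monotone {a : ℕ} (ha : Odd a) {L : List α}
    (h : L.Pairwise (fun x y => f x ≤ f y)) : AC f a (a + 1) L := by
  have := (AC.of_antitone (f := fun x => - f x) ha.add_one
    (h.imp (fun {x y} hxy => neg_le_neg hxy))).neg
  simpa using this

theorem colf_W' (i k x y : ℤ) (n : ℕ) {q : ℕ} (hq : Even q) :
    AC (colf i k) q (q + 1) (walk (x, y) (List.replicate n .W)) := by
  apply AC.of_antitone hq
  refine (pairwise_W x y n).imp ?_
  intro p q h
  unfold colf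
  split_ifs <;> omega

theorem rowf_S' (j k x y : ℤ) (n : ℕ) {q : ℕ} (hq : Odd q) :
    AC (rowf j k) q (q + 1) (walk (x, y) (List.replicate n .S)) := by
  apply AC.of_monotone hq
  refine (pairwise_S x y n).imp ?_
  intro p q h
  unfold rowf
  split_ifs <;> omega

theorem col_Q2 (a l : ℕ) : ∀ x y i k : ℤ, x ≤ i → i < x + 2 ^ l → ∀ q, Odd q →
    AC (colf i k) q (q + cn a true l (i - x) (k - (y - x))) (walk (x, y) (Q2 a l)) := by
  induction l with
  | zero =>
    intro x y i k hx hx' q hq
    obtain rfl : i = x := by rw [pow_zero] at hx'; omega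
    rw [walk_Q2_zero, cn]
    by_cases hk : k - (y - i) = 0
    · rw [if_pos hk]
      have f1 : colf i k (i, y) = 0 := by unfold colf; simp only; split_ifs <;> omega
      have f2 : colf i k (i, y + 1) = -1 := by unfold colf; simp only; split_ifs <;> omega
      have f3 : colf i k (i + 1, y + 1) = 1 := by unfold colf; simp only; split_ifs <;> omega
      have A1 : AC (colf i k) q q ((i, y) ::
          (List.replicate a [(i, y + 1), (i, y)]).flatten) := by
        refine AC.const_nonpos hq (fun z hz => ?_)
        rcases List.mem_cons.1 hz with rfl | h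
        · rw [f1]
        · rcases mem_flat h with rfl | rfl
          · rw [f2]; norm_num
          · rw [f1]
      have A2 : AC (colf i k) q (q + 2 * a) ((i, y + 1) ::
          (List.replicate a [(i + 1, y + 1), (i, y + 1)]).flatten) := by
        refine .cons (a' := q) le_rfl ?_ (AC.zigzag ?_ ?_ a)
        · rw [hq.neg_one_pow, f2]; norm_num
        · rw [hq.add_one.neg_one_pow, f3]; norm_num
        · rw [hq.neg_one_pow, f2]; norm_num
      rw [← List.cons_append]
      exact (A1.append A2).mono_right (by omega)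
    · rw [if_neg hk]
      rcases lt_or_gt_of_ne hk with hk | hk
      · refine (AC.const_nonpos hq (fun z hz => ?_)).mono_right (by omega)
        rw [List.mem_cons, List.mem_append, List.mem_cons] at hz
        apply colf_nonpos_of
        rcases hz with rfl | h | rfl | h
        · simp
        · rcases mem_flat h with rfl | rfl <;> simp
        · simp
        · rcases mem_flat h with rfl | rfl
          · right; simp only; omega
          · simp
      · refine (AC.const_nonneg hq.add_one (fun z hz => ?_)).mono_left (by omega)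
        rw [List.mem_cons, List.mem_append, List.mem_cons] at hz
        apply colf_nonneg_of
        rcases hz with rfl | h | rfl | h
        · right; simp only; omega
        · rcases mem_flat h with rfl | rfl <;> right <;> simp only <;> omega
        · right; simp only; omega
        · rcases mem_flat h with rfl | rfl
          · left; simp only; omega
          · right; simp only; omega
  | succ l ih =>
    intro x y i k hx hx' q hq
    have hb : (0 : ℤ) < 2 ^ l := by positivity
    have hb2 : (2 : ℤ) ^ (l + 1) = 2 * 2 ^ l := by ring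
    have hbox := box_Q2 a (l + 1) x y
    rw [cn]
    by_cases ht : k - (y - x) < -(2 ^ (l + 1)) ∨ 2 ^ (l + 1) ≤ k - (y - x)
    · rw [if_pos ht]
      rcases ht with ht | ht
      · refine (AC.const_nonpos hq (fun z hz => ?_)).mono_right (by omega)
        have := hbox z hz
        exact colf_nonpos_of (by omega)
      · refine (AC.const_nonneg hq.add_one (fun z hz => ?_)).mono_left (by omega)
        have := hbox z hz
        exact colf_nonneg_of (by omega)
    rw [if_neg ht, walk_Q2_succ]
    have B1 := box_Q2 a l x y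
    have B2 := box_W (x + 2 ^ l) (y + 2 ^ l) (2 ^ l)
    have B3 := box_Q2 a l x (y + 2 ^ l)
    have B4 := box_S (x + 2 ^ l) (y + 2 * 2 ^ l) (2 * 2 ^ l)
    have B5 := box_Q2 a l (x + 2 ^ l) y
    have B6 := box_W (x + 2 * 2 ^ l) (y + 2 ^ l) (2 ^ l)
    have B7 := box_Q2 a l (x + 2 ^ l) (y + 2 ^ l)
    push_cast at B2 B4 B6
    rcases lt_or_ge i (x + 2 ^ l) with hi | hi
    · have hi' : i - x < 2 ^ l := by omega
      rw [if_pos hi', if_pos (by simpa using hi')]
      set c₁ := cn a true l (i - x) (k - (y - x)) with hc₁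
      set c₂ := cn a true l (i - x) (k - (y - x) - 2 ^ l) with hc₂
      have o1 : Odd c₁ := cn_odd _ _ _ _ _
      have o2 : Odd c₂ := cn_odd _ _ _ _ _
      have A1 := ih x y i k hx hi q hq
      have A2 := colf_W' i k (x + 2 ^ l) (y + 2 ^ l) (2 ^ l) (q := q + c₁) (hq.add_odd o1)
      have A3 := ih x (y + 2 ^ l) i k hx hi (q + c₁ + 1) (hq.add_odd o1).add_one
      rw [show k - (y + 2 ^ l - x) = k - (y - x) - 2 ^ l by ring] at A3
      have A4 : AC (colf i k) (q + c₁ + 1 + c₂) (q + c₁ + 1 + c₂)
          (walk (x + 2 ^ l, y + 2 * 2 ^ l) (List.replicate (2 * 2 ^ l) .S) ++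
          (walk (x + 2 ^ l, y) (Q2 a l) ++
          (walk (x + 2 * 2 ^ l, y + 2 ^ l) (List.replicate (2 ^ l) .W) ++
          walk (x + 2 ^ l, y + 2 ^ l) (Q2 a l)))) := by
        refine AC.const_nonneg ((hq.add_odd o1).add_one.add_odd o2) (fun q hq => ?_)
        apply colf_nonneg_of
        simp only [List.mem_append] at hq
        rcases hq with h | h | h | h
        · have := B4 q h; omega
        · have := B5 q h; omega
        · have := B6 q h; omega
        · have := B7 q h; omega
      exact (A1.append (A2.append (A3.append A4))).mono_right (by omega)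
    · have hi' : ¬ (i - x < 2 ^ l) := by omega
      rw [if_neg hi', if_neg (by simpa using hi')]
      have e0 : i - x - 2 ^ l = i - (x + 2 ^ l) := by ring
      rw [e0]
      set c₁ := cn a true l (i - (x + 2 ^ l)) (k - (y - x)) with hc₁
      set c₂ := cn a true l (i - (x + 2 ^ l)) (k - (y - x) + 2 ^ l) with hc₂
      have o1 : Odd c₁ := cn_odd _ _ _ _ _
      have o2 : Odd c₂ := cn_odd _ _ _ _ _
      have A1 : AC (colf i k) q q
          (walk (x, y) (Q2 a l) ++ (walk (x + 2 ^ l, y + 2 ^ l) (List.replicate (2 ^ l) .W) ++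
          (walk (x, y + 2 ^ l) (Q2 a l) ++
          (walk (x + 2 ^ l, y + 2 * 2 ^ l) (List.replicate (2 * 2 ^ l) .S))))) := by
        refine AC.const_nonpos hq (fun q hq => ?_)
        apply colf_nonpos_of
        simp only [List.mem_append] at hq
        rcases hq with h | h | h | h
        · have := B1 q h; omega
        · have := B2 q h; omega
        · have := B3 q h; omega
        · have := B4 q h; omega
      have A2 := ih (x + 2 ^ l) y i k hi (by omega) q hq
      rw [show k - (y - (x + 2 ^ l)) = k - (y - x) + 2 ^ l by ring] at A2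
      have A3 := colf_W' i k (x + 2 * 2 ^ l) (y + 2 ^ l) (2 ^ l) (q := q + c₂) (hq.add_odd o2)
      have A4 := ih (x + 2 ^ l) (y + 2 ^ l) i k hi (by omega) (q + c₂ + 1)
        (hq.add_odd o2).add_one
      rw [show k - (y + 2 ^ l - (x + 2 ^ l)) = k - (y - x) by ring] at A4
      have := (A1.append (A2.append (A3.append A4))).mono_right (b' := q + (c₁ + c₂ + 1))
        (by omega)
      simpa only [List.append_assoc] using this

theorem row_Q2 (a l : ℕ) : ∀ x y j k : ℤ, y ≤ j → j < y + 2 ^ l → ∀ q, Even q →
    AC (rowf j k) q (q + cn a false l (j - y) (k - (y - x))) (walk (x, y) (Q2 a l)) := by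
  induction l with
  | zero =>
    intro x y j k hy hy' q hq
    obtain rfl : j = y := by rw [pow_zero] at hy'; omega
    rw [walk_Q2_zero, cn]
    by_cases hk : k - (j - x) = 0
    · rw [if_pos hk]
      have f1 : rowf j k (x, j) = 1 := by unfold rowf; simp only; split_ifs <;> omega
      have f2 : rowf j k (x, j + 1) = -1 := by unfold rowf; simp only; split_ifs <;> omega
      have f3 : rowf j k (x + 1, j + 1) = 0 := by unfold rowf; simp only; split_ifs <;> omega
      have A1 : AC (rowf j k) q (q + 2 * a) ((x, j) ::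
          (List.replicate a [(x, j + 1), (x, j)]).flatten) := by
        refine .cons (a' := q) le_rfl ?_ (AC.zigzag ?_ ?_ a)
        · rw [hq.neg_one_pow, f1]; norm_num
        · rw [hq.add_one.neg_one_pow, f2]; norm_num
        · rw [hq.neg_one_pow, f1]; norm_num
      have ho : Odd (q + 2 * a + 1) := by
        have : Even (q + 2 * a) := hq.add (even_two_mul a)
        exact this.add_one
      have A2 : AC (rowf j k) (q + 2 * a + 1) (q + 2 * a + 1) ((x, j + 1) ::
          (List.replicate a [(x + 1, j + 1), (x, j + 1)]).flatten) := by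
        refine AC.const_nonpos ho (fun z hz => ?_)
        rcases List.mem_cons.1 hz with rfl | h
        · rw [f2]; norm_num
        · rcases mem_flat h with rfl | rfl
          · rw [f3]
          · rw [f2]; norm_num
      rw [← List.cons_append]
      exact (A1.append (A2.mono_left (by omega))).mono_right (by omega)
    · rw [if_neg hk]
      rcases lt_or_gt_of_ne hk with hk | hk
      · refine (AC.const_nonpos hq.add_one (fun z hz => ?_)).mono_left (by omega)
        rw [List.mem_cons, List.mem_append, List.mem_cons] at hz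
        apply rowf_nonpos_of
        rcases hz with rfl | h | rfl | h
        · right; simp only; omega
        · rcases mem_flat h with rfl | rfl <;> right <;> simp only <;> omega
        · right; simp only; omega
        · rcases mem_flat h with rfl | rfl <;> right <;> simp only <;> omega
      · have A1 : AC (rowf j k) q q ((x, j) ::
            (List.replicate a [(x, j + 1), (x, j)]).flatten) := by
          refine AC.const_nonneg hq (fun z hz => ?_)
          apply rowf_nonneg_of
          rcases List.mem_cons.1 hz with rfl | h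
          · left; simp
          · rcases mem_flat h with rfl | rfl
            · right; simp only; omega
            · left; simp
        have A2 : AC (rowf j k) q q ((x, j + 1) ::
            (List.replicate a [(x + 1, j + 1), (x, j + 1)]).flatten) := by
          refine AC.const_nonneg hq (fun z hz => ?_)
          apply rowf_nonneg_of
          rcases List.mem_cons.1 hz with rfl | h
          · right; simp only; omega
          · rcases mem_flat h with rfl | rfl <;> right <;> simp only <;> omega
        rw [← List.cons_append]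
        exact (A1.append A2).mono_right (by omega)
  | succ l ih =>
    intro x y j k hy hy' q hq
    have hb : (0 : ℤ) < 2 ^ l := by positivity
    have hb2 : (2 : ℤ) ^ (l + 1) = 2 * 2 ^ l := by ring
    have hbox := box_Q2 a (l + 1) x y
    rw [cn]
    by_cases ht : k - (y - x) < -(2 ^ (l + 1)) ∨ 2 ^ (l + 1) ≤ k - (y - x)
    · rw [if_pos ht]
      rcases ht with ht | ht
      · refine (AC.const_nonpos hq.add_one (fun z hz => ?_)).mono_left (by omega)
        have := hbox z hz
        exact rowf_nonpos_of (by omega)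
      · refine (AC.const_nonneg hq (fun z hz => ?_)).mono_right (by omega)
        have := hbox z hz
        exact rowf_nonneg_of (by omega)
    rw [if_neg ht, walk_Q2_succ]
    have B1 := box_Q2 a l x y
    have B2 := box_W (x + 2 ^ l) (y + 2 ^ l) (2 ^ l)
    have B3 := box_Q2 a l x (y + 2 ^ l)
    have B4 := box_S (x + 2 ^ l) (y + 2 * 2 ^ l) (2 * 2 ^ l)
    have B5 := box_Q2 a l (x + 2 ^ l) y
    have B6 := box_W (x + 2 * 2 ^ l) (y + 2 ^ l) (2 ^ l)
    have B7 := box_Q2 a l (x + 2 ^ l) (y + 2 ^ l)
    push_cast at B2 B4 B6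
    rcases lt_or_ge j (y + 2 ^ l) with hj | hj
    · have hj' : j - y < 2 ^ l := by omega
      rw [if_pos hj', if_neg (by simpa using hj')]
      set c₁ := cn a false l (j - y) (k - (y - x)) with hc₁
      set c₂ := cn a false l (j - y) (k - (y - x) + 2 ^ l) with hc₂
      have o1 : Odd c₁ := cn_odd _ _ _ _ _
      have o2 : Odd c₂ := cn_odd _ _ _ _ _
      have A1 := ih x y j k hy hj q hq
      have A2 : AC (rowf j k) (q + c₁) (q + c₁)
          (walk (x + 2 ^ l, y + 2 ^ l) (List.replicate (2 ^ l) .W) ++
          walk (x, y + 2 ^ l) (Q2 a l)) := by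
        refine AC.const_nonpos (hq.add_odd o1) (fun q hq => ?_)
        apply rowf_nonpos_of
        simp only [List.mem_append] at hq
        rcases hq with h | h
        · have := B2 q h; omega
        · have := B3 q h; omega
      have A3 := rowf_S' j k (x + 2 ^ l) (y + 2 * 2 ^ l) (2 * 2 ^ l) (q := q + c₁)
        (hq.add_odd o1)
      have A4 := ih (x + 2 ^ l) y j k hy hj (q + c₁ + 1) (hq.add_odd o1).add_one
      rw [show k - (y - (x + 2 ^ l)) = k - (y - x) + 2 ^ l by ring] at A4
      have A5 : AC (rowf j k) (q + c₁ + 1 + c₂) (q + c₁ + 1 + c₂)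
          (walk (x + 2 * 2 ^ l, y + 2 ^ l) (List.replicate (2 ^ l) .W) ++
          walk (x + 2 ^ l, y + 2 ^ l) (Q2 a l)) := by
        refine AC.const_nonpos ((hq.add_odd o1).add_one.add_odd o2) (fun q hq => ?_)
        apply rowf_nonpos_of
        simp only [List.mem_append] at hq
        rcases hq with h | h
        · have := B6 q h; omega
        · have := B7 q h; omega
      have := (A1.append (A2.append (A3.append (A4.append A5)))).mono_right
        (b' := q + (c₁ + c₂ + 1)) (by omega)
      simpa only [List.append_assoc] using this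
    · have hj' : ¬ (j - y < 2 ^ l) := by omega
      rw [if_neg hj', if_pos (by simpa using hj')]
      have e0 : j - y - 2 ^ l = j - (y + 2 ^ l) := by ring
      rw [e0]
      set c₁ := cn a false l (j - (y + 2 ^ l)) (k - (y - x)) with hc₁
      set c₂ := cn a false l (j - (y + 2 ^ l)) (k - (y - x) - 2 ^ l) with hc₂
      have o1 : Odd c₁ := cn_odd _ _ _ _ _
      have o2 : Odd c₂ := cn_odd _ _ _ _ _
      have A1 : AC (rowf j k) q q
          (walk (x, y) (Q2 a l) ++
          walk (x + 2 ^ l, y + 2 ^ l) (List.replicate (2 ^ l) .W)) := by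
        refine AC.const_nonneg hq (fun q hq => ?_)
        apply rowf_nonneg_of
        simp only [List.mem_append] at hq
        rcases hq with h | h
        · have := B1 q h; omega
        · have := B2 q h; omega
      have A2 := ih x (y + 2 ^ l) j k hj (by omega) q hq
      rw [show k - (y + 2 ^ l - x) = k - (y - x) - 2 ^ l by ring] at A2
      have A3 := rowf_S' j k (x + 2 ^ l) (y + 2 * 2 ^ l) (2 * 2 ^ l) (q := q + c₂)
        (hq.add_odd o2)
      have A4 : AC (rowf j k) (q + c₂ + 1) (q + c₂ + 1)
          (walk (x + 2 ^ l, y) (Q2 a l) ++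
          walk (x + 2 * 2 ^ l, y + 2 ^ l) (List.replicate (2 ^ l) .W)) := by
        refine AC.const_nonneg (hq.add_odd o2).add_one (fun q hq => ?_)
        apply rowf_nonneg_of
        simp only [List.mem_append] at hq
        rcases hq with h | h
        · have := B5 q h; omega
        · have := B6 q h; omega
      have A5 := ih (x + 2 ^ l) (y + 2 ^ l) j k hj (by omega) (q + c₂ + 1)
        (hq.add_odd o2).add_one
      rw [show k - (y + 2 ^ l - (x + 2 ^ l)) = k - (y - x) by ring] at A5
      have := (A1.append (A2.append (A3.append (A4.append A5)))).mono_right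
        (b' := q + (c₁ + c₂ + 1)) (by omega)
      simpa only [List.append_assoc] using this

end LevelLower
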