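import Pool.Agent.LevelLower.Gadget2

/-!
# Exchange systems with windows
-/

namespace LevelLower

/-- birth and death times and ranks of curves -/
structure Win (C : Type) where
  lo : C → ℕ
  hi : C → ℕ
  rk : C → ℕ

/-- `a` is older than `b` -/
def Win.older {C : Type} (w : Win C) (a b : C) : Prop :=
  w.lo a < w.lo b ∨ (w.lo a = w.lo b ∧ w.rk a < w.rk b)

/-- An exchange system with windows: at each of the `T` steps one living curve goes up and one
goes down, the number of living curves with status `0` is constant, and the statuses of every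
pair alternate at most `s` times while both live. A newly born curve is next to the gap. -/
structure IsSys2 {C : Type} [Fintype C] (s T K : ℕ) (w : Win C) (x : ℕ → C → ℤ) : Prop where
  h01 : ∀ t c, x t c = 0 ∨ x t c = 1
  win : ∀ c, w.lo c < w.hi c ∧ w.hi c ≤ T
  exch : ∀ t < T, ∃ a b, (w.lo a ≤ t ∧ t + 1 ≤ w.hi a) ∧ (w.lo b ≤ t ∧ t + 1 ≤ w.hi b) ∧
    x t a = 0 ∧ x (t + 1) a = 1 ∧ x t b = 1 ∧ x (t + 1) b = 0 ∧
    ∀ c, c ≠ a → c ≠ b → x (t + 1) c = x t c
  cnt : ∀ t < T,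
    (Finset.univ.filter (fun c => w.lo c ≤ t ∧ t + 1 ≤ w.hi c ∧ x t c = 0)).card = K
  old : ∀ a b, w.older a b → ∀ q, 0 < (-1) ^ q * (2 * x (w.lo b) a - 1) →
    Ph (fun t => x t a - x t b) (w.lo b) (min (w.hi a) (w.hi b) + 1) q (q + s)
  same : ∀ a b, a ≠ b → w.lo a = w.lo b → w.rk a = w.rk b →
    ∀ q, 0 ≤ (-1) ^ q * (x (w.lo a) a - x (w.lo a) b) →
    Ph (fun t => x t a - x t b) (w.lo a) (min (w.hi a) (w.hi b) + 1) q (q + s)

/-- existence of an exchange system with `n` curves -/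
def HasSys2 (s n T : ℕ) : Prop :=
  ∃ (K : ℕ) (w : Win (Fin n)) (x : ℕ → Fin n → ℤ), IsSys2 s T K w x

theorem HasSys2.of_fintype {C : Type} [Fintype C] {s n T K : ℕ} (hn : Fintype.card C = n)
    {w : Win C} {x : ℕ → C → ℤ} (h : IsSys2 s T K w x) : HasSys2 s n T := by
  subst hn
  let e := (Fintype.equivFin C).symm
  refine ⟨K, ⟨fun i => w.lo (e i), fun i => w.hi (e i), fun i => w.rk (e i)⟩,
    fun t i => x t (e i), ⟨fun t c => h.h01 t (e c), fun c => h.win (e c), fun t ht => ?_,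
    fun t ht => ?_, fun a b hab => h.old (e a) (e b) hab, fun a b hab h1 h2 =>
    h.same (e a) (e b) (fun hh => hab (e.injective hh)) h1 h2⟩⟩
  · obtain ⟨a, b, h1, h2, h3, h4, h5, h6, h7⟩ := h.exch t ht
    refine ⟨e.symm a, e.symm b, by simpa using h1, by simpa using h2, by simpa using h3,
      by simpa using h4, by simpa using h5, by simpa using h6, fun c hca hcb => h7 (e c) ?_ ?_⟩
    · rintro rfl
      exact hca (by simp)
    · rintro rfl
      exact hcb (by simp)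
  · rw [← h.cnt t ht, ← Finset.card_map e.toEmbedding]
    congr 1
    ext c
    simp only [Finset.mem_map, Finset.mem_filter, Finset.mem_univ, true_and,
      Equiv.coe_toEmbedding]
    constructor
    · rintro ⟨i, hi, rfl⟩
      exact hi
    · intro hc
      exact ⟨e.symm c, by simpa using hc, by simp⟩

theorem vl_or (i θ : ℕ) : vl i θ = 0 ∨ vl i θ = 1 := by
  unfold vl; split_ifs <;> simp

theorem vl_nonneg (i θ : ℕ) : 0 ≤ vl i θ := by
  unfold vl; split_ifs <;> simp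

theorem vl_le_one (i θ : ℕ) : vl i θ ≤ 1 := by
  unfold vl; split_ifs <;> simp

theorem vl_of_lt {i θ : ℕ} (h : i < θ) : vl i θ = 1 := if_pos h

theorem vl_of_le {i θ : ℕ} (h : θ ≤ i) : vl i θ = 0 := if_neg (by omega)

/-- statuses from thresholds -/
def st2 {D : Type} {size : D → ℕ} (θ : D → ℕ) (c : Σ d : D, Fin (size d)) : ℤ :=
  vl c.2 (θ c.1)

theorem exch_of_thresholds2 {D : Type} {size : D → ℕ} {θ θ' : D → ℕ} {c d : D} (hcd : c ≠ d)
    (hc : θ' c = θ c + 1) (hd : θ d = θ' d + 1) (ho : ∀ o, o ≠ c → o ≠ d → θ' o = θ o)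
    (bc : θ' c ≤ size c) (bd : θ d ≤ size d) :
    ∃ a b : (Σ d : D, Fin (size d)), a.1 = c ∧ b.1 = d ∧ st2 θ a = 0 ∧ st2 θ' a = 1 ∧
      st2 θ b = 1 ∧ st2 θ' b = 0 ∧ ∀ e, e ≠ a → e ≠ b → st2 θ' e = st2 θ e := by
  refine ⟨⟨c, ⟨θ c, by omega⟩⟩, ⟨d, ⟨θ' d, by omega⟩⟩, rfl, rfl, ?_, ?_, ?_, ?_, ?_⟩
  · exact vl_of_le le_rfl
  · exact vl_of_lt (by simp [hc])
  · exact vl_of_lt (by simp [hd])
  · exact vl_of_le le_rfl
  · rintro ⟨e, i⟩ h1 h2
    by_cases hec : e = c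
    · subst hec
      have : (i : ℕ) ≠ θ e := fun h => h1 (by congr 1; exact Fin.ext h)
      unfold st2 vl
      dsimp only
      split_ifs <;> omega
    · by_cases hed : e = d
      · subst hed
        have : (i : ℕ) ≠ θ' e := fun h => h2 (by congr 1; exact Fin.ext h)
        unfold st2 vl
        dsimp only
        split_ifs <;> omega
      · unfold st2
        dsimp only
        rw [ho e hec hed]

/-- refining a certificate blockwise -/
theorem Ph.blocks2 {f F : ℕ → ℤ} {e₀ e₁ N a b : ℕ} (hab : a ≤ b) (hN : 0 < N)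
    (hF : Ph F e₀ (e₁ + 1) a b)
    (hb : ∀ e, e₀ ≤ e → e < e₁ → ∀ q q', q ≤ q' → 0 ≤ (-1) ^ q * F e →
      0 ≤ (-1) ^ q' * F (e + 1) → Ph f (e * N) (e * N + N) q q')
    (hT : f (e₁ * N) = F e₁) : Ph f (e₀ * N) (e₁ * N + 1) a b := by
  rcases lt_or_ge e₁ e₀ with hlt | hle
  · refine Ph.const le_rfl hab (fun t h1 h2 => ?_)
    exfalso
    have : (e₁ + 1) * N ≤ e₀ * N := Nat.mul_le_mul_right _ hlt
    rw [add_mul, one_mul] at this
    omega
  obtain ⟨φ, h1, h2, h3⟩ := hF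
  have key : ∀ e, e₀ ≤ e → e ≤ e₁ → Ph f (e₀ * N) (e * N) (φ e₀) (φ e) := by
    intro e he
    induction e, he using Nat.le_induction with
    | base =>
      intro _
      exact Ph.const le_rfl le_rfl (fun t h4 h5 => by omega)
    | succ e he ih =>
      intro he'
      have := (ih (by omega)).trans (hb e he (by omega) (φ e) (φ (e + 1)) (h1 (by omega))
        (h3 e (by omega) (by omega)) (h3 (e + 1) (by omega) (by omega)))
      rwa [add_mul, one_mul]
  have hlast : Ph f (e₁ * N) (e₁ * N + 1) (φ e₁) (φ e₁) := by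
    refine Ph.const le_rfl le_rfl (fun t ht ht' => ?_)
    have : t = e₁ * N := by omega
    rw [this, hT]
    exact h3 e₁ (by omega) (by omega)
  exact ((key e₁ hle le_rfl).trans hlast).mono (h2 e₀).1 (h2 e₁).2

theorem neg_one_pow_eq_one_of2 {q : ℕ} {F : ℤ} (h : 0 ≤ (-1) ^ q * F) (hF : 0 < F) :
    (-1 : ℤ) ^ q = 1 := by
  rcases neg_one_pow_eq_or ℤ q with h1 | h1
  · exact h1
  · rw [h1] at h
    omega

theorem neg_one_pow_eq_neg_one_of2 {q : ℕ} {F : ℤ} (h : 0 ≤ (-1) ^ q * F) (hF : F < 0) :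
    (-1 : ℤ) ^ q = -1 := by
  rcases neg_one_pow_eq_or ℤ q with h1 | h1
  · rw [h1] at h
    omega
  · exact h1

theorem odd_of_neg_one_pow {q : ℕ} (h : (-1 : ℤ) ^ q = -1) : Odd q := by
  rcases Nat.even_or_odd q with h' | h'
  · rw [h'.neg_one_pow] at h
    norm_num at h
  · exact h'

theorem even_of_neg_one_pow {q : ℕ} (h : (-1 : ℤ) ^ q = 1) : Even q := by
  rcases Nat.even_or_odd q with h' | h'
  · exact h'
  · rw [h'.neg_one_pow] at h
    norm_num at h

theorem block_nonneg2 {g : ℕ → ℤ} {N q q' : ℕ} {F F' : ℤ} (hq : q ≤ q')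
    (h : 0 ≤ (-1) ^ q * F) (h' : 0 ≤ (-1) ^ q' * F') (hF : 0 < F ∨ 0 < F')
    (hg : ∀ p < N, 0 ≤ g p) : Ph g 0 N q q' := by
  rcases hF with hF | hF
  · refine Ph.const le_rfl hq (fun p _ hp => ?_)
    rw [neg_one_pow_eq_one_of2 h hF, one_mul]
    exact hg p hp
  · refine Ph.const hq le_rfl (fun p _ hp => ?_)
    rw [neg_one_pow_eq_one_of2 h' hF, one_mul]
    exact hg p hp

theorem block_nonpos2 {g : ℕ → ℤ} {N q q' : ℕ} {F F' : ℤ} (hq : q ≤ q')
    (h : 0 ≤ (-1) ^ q * F) (h' : 0 ≤ (-1) ^ q' * F') (hF : F < 0 ∨ F' < 0)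
    (hg : ∀ p < N, g p ≤ 0) : Ph g 0 N q q' := by
  rcases hF with hF | hF
  · refine Ph.const le_rfl hq (fun p _ hp => ?_)
    rw [neg_one_pow_eq_neg_one_of2 h hF]
    have := hg p hp
    omega
  · refine Ph.const hq le_rfl (fun p _ hp => ?_)
    rw [neg_one_pow_eq_neg_one_of2 h' hF]
    have := hg p hp
    omega

/-- the pair (chain going up, chain going down) changes sign once -/
theorem block_updown2 {B r N c : ℕ} (g : Gadget2 B r N c) {q q' i j : ℕ} (hq : q ≤ q')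
    (h : (-1 : ℤ) ^ q = -1) (h' : (-1 : ℤ) ^ q' = 1) :
    Ph (fun p => vl i (g.u p) - vl j (r - g.m p)) 0 N q q' := by
  classical
  refine ⟨fun p => if ∃ p' ≤ p, p' < N ∧ i < g.u p' ∧ r - g.m p' ≤ j then q' else q, ?_, ?_, ?_⟩
  · intro p p' hpp
    dsimp only
    by_cases h1 : ∃ p'' ≤ p, p'' < N ∧ i < g.u p'' ∧ r - g.m p'' ≤ j
    · have h2 : ∃ p'' ≤ p', p'' < N ∧ i < g.u p'' ∧ r - g.m p'' ≤ j := by
        obtain ⟨p'', h3, h4⟩ := h1
        exact ⟨p'', h3.trans hpp, h4⟩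
      rw [if_pos h1, if_pos h2]
    · rw [if_neg h1]
      split_ifs <;> omega
  · intro p
    dsimp only
    split_ifs <;> omega
  · intro p _ hp
    dsimp only
    by_cases h1 : ∃ p'' ≤ p, p'' < N ∧ i < g.u p'' ∧ r - g.m p'' ≤ j
    · rw [if_pos h1, h', one_mul]
      obtain ⟨p'', h3, h4, h5, h6⟩ := h1
      have hsw := g.sw p'' p h3 hp
      have hm := g.mle p'' h4.le
      have hm' := g.mle p hp.le
      unfold vl
      split_ifs <;> omega
    · rw [if_neg h1, h]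
      have : ¬ (i < g.u p ∧ r - g.m p ≤ j) := fun hh => h1 ⟨p, le_rfl, hp, hh⟩
      unfold vl
      split_ifs <;> omega

theorem block_downup2 {B r N c : ℕ} (g : Gadget2 B r N c) {q q' i j : ℕ} (hq : q ≤ q')
    (h : (-1 : ℤ) ^ q = 1) (h' : (-1 : ℤ) ^ q' = -1) :
    Ph (fun p => vl j (r - g.m p) - vl i (g.u p)) 0 N q q' := by
  have := (block_updown2 g (i := i) (j := j) (q := q + 1) (q' := q' + 1) (by omega)
    (by rw [pow_succ, h]; norm_num) (by rw [pow_succ, h']; norm_num)).neg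
  refine this.congr (fun t _ _ => ?_)
  ring

/-- the older curve has constant status on the window -/
theorem ph_const_older {X Y : ℕ → ℤ} {t₀ t₁ q s : ℕ} (hX : ∀ t, X t = 0 ∨ X t = 1)
    (hY : ∀ t, Y t = 0 ∨ Y t = 1) (hc : ∀ t, t₀ ≤ t → t < t₁ → X t = X t₀)
    (hq : 0 < (-1) ^ q * (2 * X t₀ - 1)) : Ph (fun t => X t - Y t) t₀ t₁ q (q + s) := by
  refine Ph.const le_rfl (by omega) (fun t h1 h2 => ?_)
  rw [hc t h1 h2]
  rcases hX t₀ with h | h
  · rw [h] at hq ⊢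
    rw [neg_one_pow_eq_neg_one_of2 hq.le (by norm_num)]
    rcases hY t with h' | h' <;> rw [h'] <;> norm_num
  · rw [h] at hq ⊢
    rw [neg_one_pow_eq_one_of2 hq.le (by norm_num)]
    rcases hY t with h' | h' <;> rw [h'] <;> norm_num

/-- a single-signed pair -/
theorem ph_single {f : ℕ → ℤ} {t₀ t₁ q s : ℕ} (hs : 1 ≤ s)
    (h : (∀ t, 0 ≤ f t) ∨ (∀ t, f t ≤ 0)) : Ph f t₀ t₁ q (q + s) := by
  rcases h with h | h
  · exact (PL.of_nonneg (fun t _ _ => h t) q).mono le_rfl (by omega)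
  · exact (PL.of_nonpos (fun t _ _ => h t) q).mono le_rfl (by omega)

end LevelLower
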