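import Pool.Agent.LevelLower.Final2

/-!
# A lower bound uniform in `s`
-/

namespace LevelLower

theorem growth_bound {l : ℕ} (hl : 2 ≤ l) : (5 / 4 : ℝ) ^ l ≤ (2 ^ l - 1 / 2) / 2 := by
  induction l, hl using Nat.le_induction with
  | base => norm_num
  | succ l hl ih =>
    rw [pow_succ, pow_succ]
    have h1 : (0 : ℝ) < 2 ^ l := by positivity
    linarith

/-- **Main bound, uniform in `s`.** -/
theorem main_uniform {s n : ℕ} (hs : 7 ≤ s) (hn : Real.exp s ≤ n) :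
    (n : ℝ) * Real.exp (Real.sqrt (s * Real.log n) / 30) ≤ Psi s n := by
  obtain ⟨l, hl⟩ : ∃ l, l = (s + 1) / 4 := ⟨_, rfl⟩
  have hl2 : 2 ≤ l := by omega
  have hsl : s ≤ 4 * l + 2 := by omega
  have hsl' : 4 * l + 2 * 0 - 1 ≤ s := by omega
  have hn0 : (0 : ℝ) < n := lt_of_lt_of_le (Real.exp_pos _) hn
  have hlR : (2 : ℝ) ≤ l := by exact_mod_cast hl2
  have hBR : (4 : ℝ) ≤ 2 ^ l := by
    calc (4 : ℝ) = 2 ^ 2 := by norm_num
      _ ≤ 2 ^ l := pow_le_pow_right₀ (by norm_num) hl2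
  have hlam : (lam 0 l : ℝ) = 4 * 2 ^ l - 2 := by
    unfold lam
    rw [Nat.cast_sub (by have := four_le_pow_mul 0 l; omega)]
    push_cast
    ring
  have hμ : ((2 : ℝ) ^ l - 1 / 2) * (((1 : ℕ) : ℝ) + 3) = lam 0 l * ((1 : ℕ) : ℝ) := by
    rw [hlam]; push_cast; ring
  have hμ1 : (1 : ℝ) ≤ 2 ^ l - 1 / 2 := by linarith
  set Γ : ℝ := 2 ^ l * (3 * ((1 : ℕ) : ℝ) + 4) with hΓ
  have hΓe : Γ = 7 * 2 ^ l := by rw [hΓ]; push_cast; ring
  have hΓ2 : 2 ≤ Γ := by rw [hΓe]; linarith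
  have hlam1 : (1 : ℝ) ≤ lam 0 l := by rw [hlam]; linarith
  have h0 : 2 * Γ ^ 1 * (lam 0 l : ℝ) ^ (1 * (1 - 1) / 2) ≤ n := by
    have e1 : 1 * (1 - 1) / 2 = 0 := by norm_num
    rw [e1, pow_zero, mul_one, pow_one, hΓe]
    refine le_trans ?_ hn
    have h1 : (2 : ℝ) ^ s ≤ Real.exp s := by
      have h2 : (2 : ℝ) ≤ Real.exp 1 := by
        have := Real.add_one_le_exp (1 : ℝ)
        linarith
      calc (2 : ℝ) ^ s ≤ (Real.exp 1) ^ s := pow_le_pow_left₀ (by norm_num) h2 s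
        _ = Real.exp s := by rw [← Real.exp_nat_mul, mul_one]
    refine le_trans ?_ h1
    have h3 : (2 : ℝ) ^ (l + 5) ≤ 2 ^ s := pow_le_pow_right₀ (by norm_num) (by omega)
    have h4 : (2 : ℝ) ^ (l + 5) = 32 * 2 ^ l := by ring
    linarith
  obtain ⟨τ, hτ1, hlo, hhi⟩ := find_threshold hΓ2 hlam1 h0
  obtain ⟨t, rfl⟩ : ∃ t, τ = t + 1 := ⟨τ - 1, by omega⟩
  rw [Nat.add_sub_cancel] at hlo
  have hcore := main_core (by omega : 1 ≤ l) hsl' le_rfl hμ1 hμ t n hlo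
  set τ := t + 1 with hτdef
  have hτR : (1 : ℝ) ≤ τ := by exact_mod_cast hτ1
  have hlog2 : 0 < Real.log 2 := Real.log_pos (by norm_num)
  have hlog2' : Real.log 2 < 0.6932 := by
    have := Real.log_two_lt_d9
    linarith
  -- logarithm of n
  have hlogn : Real.log n ≤ Real.log 2 + (τ + 1) * ((l + 3) * Real.log 2) +
      ((τ : ℝ) + 1) * τ / 2 * ((l + 2) * Real.log 2) := by
    have h1 := Real.log_le_log hn0 hhi.le
    rw [Real.log_mul (by positivity) (by positivity), Real.log_mul (by norm_num) (by positivity),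
      Real.log_pow, Real.log_pow] at h1
    have h2 : ((((τ + 1) * τ / 2 : ℕ)) : ℝ) ≤ ((τ : ℝ) + 1) * τ / 2 := by
      have := @Nat.cast_div_le ℝ _ _ _ ((τ + 1) * τ) 2
      push_cast at this
      exact this
    have h3 : Real.log Γ ≤ (l + 3) * Real.log 2 := by
      have e : ((l : ℝ) + 3) * Real.log 2 = Real.log (2 ^ (l + 3)) := by
        rw [Real.log_pow]; push_cast; ring
      rw [e]
      apply Real.log_le_log (by linarith)
      rw [hΓe, pow_add]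
      linarith
    have h4 : Real.log (lam 0 l) ≤ (l + 2) * Real.log 2 := by
      have e : ((l : ℝ) + 2) * Real.log 2 = Real.log (2 ^ (l + 2)) := by
        rw [Real.log_pow]; push_cast; ring
      rw [e]
      apply Real.log_le_log (by linarith)
      rw [hlam, pow_add]
      linarith
    have h5 : 0 ≤ Real.log (lam 0 l) := Real.log_nonneg hlam1
    have h6 := mul_le_mul h2 h4 h5 (by positivity)
    have h7 := mul_le_mul_of_nonneg_left h3 (show (0 : ℝ) ≤ (τ : ℝ) + 1 by linarith)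
    push_cast at h1
    linarith
  have hlogn2 : Real.log n ≤ 5.2 * l * (τ : ℝ) ^ 2 := by
    have h1 : 1 + ((τ : ℝ) + 1) * (l + 3) + ((τ : ℝ) + 1) * τ / 2 * (l + 2) ≤
        7.5 * l * (τ : ℝ) ^ 2 := by
      have b1 : (τ : ℝ) + 1 ≤ 2 * (τ : ℝ) ^ 2 := by nlinarith
      have b2 : ((τ : ℝ) + 1) * τ / 2 ≤ (τ : ℝ) ^ 2 := by nlinarith
      have b3 : (1 : ℝ) ≤ (τ : ℝ) ^ 2 := by nlinarith
      have b4 := mul_le_mul_of_nonneg_right b1 (show (0 : ℝ) ≤ (l : ℝ) + 3 by linarith)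
      have b5 := mul_le_mul_of_nonneg_right b2 (show (0 : ℝ) ≤ (l : ℝ) + 2 by linarith)
      have b6 : (τ : ℝ) ^ 2 * (3 * l + 9) ≤ (τ : ℝ) ^ 2 * (7.5 * l) :=
        mul_le_mul_of_nonneg_left (by linarith) (by positivity)
      linarith
    have h2 := mul_le_mul_of_nonneg_right h1 hlog2.le
    have h3 : 7.5 * (l : ℝ) * (τ : ℝ) ^ 2 * Real.log 2 ≤ 5.2 * l * (τ : ℝ) ^ 2 := by
      have h4 : (0 : ℝ) ≤ (l : ℝ) * (τ : ℝ) ^ 2 := by positivity
      have h5 := mul_le_mul_of_nonneg_left (show 7.5 * Real.log 2 ≤ 5.2 by linarith) h4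
      linarith
    linarith
  have hsR : (s : ℝ) ≤ 5 * l := by
    have : s ≤ 5 * l := by omega
    exact_mod_cast this
  have hlogn0 : 0 ≤ Real.log n := by
    apply Real.log_nonneg
    have : (1 : ℝ) ≤ Real.exp s := Real.one_le_exp (Nat.cast_nonneg _)
    linarith
  have hsq : Real.sqrt (s * Real.log n) ≤ 6 * l * τ := by
    apply Real.sqrt_le_iff.2
    refine ⟨by positivity, ?_⟩
    have h1 : (s : ℝ) * Real.log n ≤ (5 * l) * (5.2 * l * (τ : ℝ) ^ 2) :=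
      mul_le_mul hsR hlogn2 hlogn0 (by positivity)
    have h2 : (0 : ℝ) ≤ (l : ℝ) ^ 2 * (τ : ℝ) ^ 2 := by positivity
    have e1 : ((5 : ℝ) * l) * (5.2 * l * (τ : ℝ) ^ 2) = 26 * ((l : ℝ) ^ 2 * (τ : ℝ) ^ 2) := by
      ring
    have e2 : ((6 : ℝ) * l * τ) ^ 2 = 36 * ((l : ℝ) ^ 2 * (τ : ℝ) ^ 2) := by ring
    rw [e2]
    linarith
  -- conclusion
  have hexp5 : Real.exp (1 / 5) ≤ 5 / 4 := by
    have h1 := Real.add_one_le_exp (-(1 / 5) : ℝ)
    rw [Real.exp_neg] at h1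
    have h2 : (0 : ℝ) < Real.exp (1 / 5) := Real.exp_pos _
    have h3 : (4 / 5 : ℝ) * Real.exp (1 / 5) ≤ 1 := by
      have h4 := mul_le_mul_of_nonneg_right h1 h2.le
      rw [inv_mul_cancel₀ h2.ne'] at h4
      linarith
    linarith
  have hfin : Real.exp (Real.sqrt (s * Real.log n) / 30) ≤ ((2 : ℝ) ^ l - 1 / 2) ^ τ / 2 := by
    have h1 : Real.sqrt (s * Real.log n) / 30 ≤ ((l * τ : ℕ) : ℝ) * (1 / 5) := by
      push_cast
      linarith
    have h2 : Real.exp (((l * τ : ℕ) : ℝ) * (1 / 5)) ≤ (5 / 4) ^ (l * τ) := by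
      rw [Real.exp_nat_mul]
      exact pow_le_pow_left₀ (Real.exp_pos _).le hexp5 _
    have h3 : (5 / 4 : ℝ) ^ (l * τ) ≤ (((2 : ℝ) ^ l - 1 / 2) / 2) ^ τ := by
      rw [pow_mul]
      exact pow_le_pow_left₀ (by positivity) (growth_bound hl2) _
    have h4 : (((2 : ℝ) ^ l - 1 / 2) / 2) ^ τ ≤ ((2 : ℝ) ^ l - 1 / 2) ^ τ / 2 := by
      rw [div_pow]
      have h5 : (2 : ℝ) ≤ 2 ^ τ := by
        calc (2 : ℝ) = 2 ^ 1 := by norm_num
          _ ≤ 2 ^ τ := pow_le_pow_right₀ (by norm_num) (by omega)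
      exact div_le_div_of_nonneg_left (by positivity) (by norm_num) h5
    exact (Real.exp_le_exp.2 h1).trans (h2.trans (h3.trans h4))
  calc (n : ℝ) * Real.exp (Real.sqrt (s * Real.log n) / 30) ≤
      n * (((2 : ℝ) ^ l - 1 / 2) ^ τ / 2) := mul_le_mul_of_nonneg_left hfin hn0.le
    _ = (n * ((2 : ℝ) ^ l - 1 / 2) ^ τ) / 2 := by ring
    _ ≤ Psi s n := by linarith

end LevelLower
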